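import Mathlib
import Pool.Agent.Helper278.TrAlg
import Pool.Agent.Helper278.CEStd
import Pool.Agent.Helper436.SM.Pauli

/-!
Basic facts on tracial star algebras: contractions, orthonormal families, Pauli systems.
-/

set_option autoImplicit false
set_option linter.unusedSectionVars false

open scoped InnerProductSpace

namespace Pool.Agent.H504R3

open Pool.Agent.Helper278 Pool.Agent.Helper436.SM

variable {A : Type} [Ring A] [StarRing A] [Algebra ℂ A] [StarModule ℂ A] {τ : A →ₗ[ℂ] ℂ}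

/-- contractions -/
structure Ctr (τ : A →ₗ[ℂ] ℂ) (x : A) : Prop where
  left : ∀ y, n2 τ (x * y) ≤ n2 τ y
  right : ∀ y, n2 τ (y * x) ≤ n2 τ y

theorem Ctr.star' (h : TrAlg τ) {x : A} (hx : Ctr τ x) : Ctr τ (star x) := by
  constructor
  · intro y
    have h1 := hx.right (Star.star y)
    rw [← h.n2_star (Star.star x * y), star_mul, star_star]
    rwa [h.n2_star] at h1
  · intro y
    have h1 := hx.left (Star.star y)
    rw [← h.n2_star (y * Star.star x), star_mul, star_star]
    rwa [h.n2_star] at h1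

theorem Ctr.mul {x y : A} (hx : Ctr τ x) (hy : Ctr τ y) : Ctr τ (x * y) := by
  constructor
  · intro z
    rw [mul_assoc]
    exact (hx.left _).trans (hy.left _)
  · intro z
    rw [← mul_assoc]
    exact (hy.right _).trans (hx.right _)

theorem Ctr.one : Ctr τ (1 : A) := ⟨fun y => by rw [one_mul], fun y => by rw [mul_one]⟩

/-- contraction of the difference -/
theorem Ctr.comm_le (h : TrAlg τ) {x : A} (hx : Ctr τ x) (d : A) :
    n2 τ (x * d - d * x) ≤ 2 * n2 τ d := by
  have h1 := h.n2_sub_le (x * d) (d * x)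
  have h2 := hx.left d
  have h3 := hx.right d
  linarith

theorem n2_one (h : TrAlg τ) : n2 τ (1 : A) = 1 := by
  unfold n2
  rw [star_one, one_mul, h.one]
  simp

theorem Ctr.n2_le (h : TrAlg τ) {x : A} (hx : Ctr τ x) : n2 τ x ≤ 1 := by
  have := hx.left 1
  rwa [mul_one, n2_one h] at this

theorem n2_isom_left {a : A} (ha : star a * a = 1) (x : A) : n2 τ (a * x) = n2 τ x := by
  unfold n2
  rw [star_mul, mul_assoc, ← mul_assoc (star a), ha, one_mul]

theorem n2_isom_right (h : TrAlg τ) {a : A} (ha : a * star a = 1) (x : A) :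
    n2 τ (x * a) = n2 τ x := by
  unfold n2
  rw [star_mul, h.comm, mul_assoc, ← mul_assoc a, ha, one_mul, h.comm]

theorem Ctr.of_unitary (h : TrAlg τ) {a : A} (h1 : star a * a = 1) (h2 : a * star a = 1) :
    Ctr τ a := ⟨fun y => (n2_isom_left h1 y).le, fun y => (n2_isom_right h h2 y).le⟩

theorem n2_smul (h : TrAlg τ) (c : ℂ) (x : A) : n2 τ (c • x) = ‖c‖ * n2 τ x := by
  unfold n2
  rw [star_smul, smul_mul_smul_comm, map_smul, Complex.star_def, smul_eq_mul,
    ← Complex.normSq_eq_conj_mul_self, Complex.re_ofReal_mul,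
    Real.sqrt_mul (Complex.normSq_nonneg c), Complex.normSq_eq_norm_sq,
    Real.sqrt_sq (norm_nonneg c)]

theorem n2_sum_le (h : TrAlg τ) {ι : Type*} (F : Finset ι) (f : ι → A) :
    n2 τ (∑ i ∈ F, f i) ≤ ∑ i ∈ F, n2 τ (f i) := by
  classical
  induction F using Finset.induction_on with
  | empty => simp [h.n2_zero]
  | insert a F ha ih =>
    rw [Finset.sum_insert ha, Finset.sum_insert ha]
    exact (h.n2_add_le _ _).trans (by linarith)

/-- the product of a contraction and an element with small 2-norm -/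
theorem abs_trace_le (h : TrAlg τ) (x y : A) : ‖τ (x * y)‖ ≤ n2 τ x * n2 τ y := h.cauchy' x y

/-- orthonormal families for the trace -/
def ON (τ : A →ₗ[ℂ] ℂ) {ι : Type*} [DecidableEq ι] (e : ι → A) : Prop :=
  ∀ i k, τ (star (e i) * e k) = if i = k then 1 else 0

theorem ON.n2_sum (h : TrAlg τ) {ι : Type*} [DecidableEq ι] {e : ι → A} (he : ON τ e)
    (F : Finset ι) (c : ι → ℂ) : n2 τ (∑ i ∈ F, c i • e i) ^ 2 = ∑ i ∈ F, ‖c i‖ ^ 2 := by
  rw [h.n2_sq, star_sum, Finset.sum_mul, map_sum, Complex.re_sum]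
  refine Finset.sum_congr rfl fun i hi => ?_
  rw [Finset.mul_sum, map_sum, Complex.re_sum]
  rw [Finset.sum_eq_single i]
  · rw [star_smul, smul_mul_smul_comm, map_smul, he i i, if_pos rfl, smul_eq_mul, mul_one,
      Complex.star_def, ← Complex.normSq_eq_conj_mul_self, Complex.ofReal_re,
      Complex.normSq_eq_norm_sq]
  · intro k _ hk
    rw [star_smul, smul_mul_smul_comm, map_smul, he i k, if_neg (Ne.symm hk), smul_zero]
    rfl
  · intro hi'
    exact absurd hi hi'

/-- Pythagoras -/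
theorem ON.pyth (h : TrAlg τ) {ι : Type*} [DecidableEq ι] {e : ι → A} (he : ON τ e)
    (F : Finset ι) (c : ι → ℂ) (x : A) :
    n2 τ x ^ 2 - ∑ i ∈ F, ‖τ (star (e i) * x)‖ ^ 2 ≤ n2 τ (x - ∑ i ∈ F, c i • e i) ^ 2 := by
  have e1 : n2 τ (x - ∑ i ∈ F, c i • e i) ^ 2 = n2 τ x ^ 2 + ∑ i ∈ F, ‖c i‖ ^ 2 -
      2 * ∑ i ∈ F, (star (c i) * τ (star (e i) * x)).re := by
    rw [← he.n2_sum h F c, h.n2_sq, h.n2_sq, h.n2_sq]
    set s := ∑ i ∈ F, c i • e i with hs
    have e2 : star (x - s) * (x - s) = star x * x + star s * s - star s * x - star x * s := by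
      rw [star_sub]; noncomm_ring
    have e3 : (τ (star x * s)).re = (τ (star s * x)).re := by
      have : τ (star x * s) = star (τ (star s * x)) := by
        rw [← h.conj, star_mul, star_star]
      rw [this, Complex.star_def, Complex.conj_re]
    have e4 : τ (star s * x) = ∑ i ∈ F, star (c i) * τ (star (e i) * x) := by
      rw [hs, star_sum, Finset.sum_mul, map_sum]
      refine Finset.sum_congr rfl fun i _ => ?_
      rw [star_smul, smul_mul_assoc, map_smul, smul_eq_mul]
    rw [e2, map_sub, map_sub, map_add, Complex.sub_re, Complex.sub_re, Complex.add_re,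
      e3, e4, Complex.re_sum]
    ring
  rw [e1]
  have e5 : ∀ i ∈ F, 2 * (star (c i) * τ (star (e i) * x)).re ≤
      ‖c i‖ ^ 2 + ‖τ (star (e i) * x)‖ ^ 2 := by
    intro i _
    have h1 := Complex.re_le_norm (star (c i) * τ (star (e i) * x))
    rw [norm_mul, norm_star] at h1
    nlinarith [sq_nonneg (‖c i‖ - ‖τ (star (e i) * x)‖)]
  have e6 := Finset.sum_le_sum e5
  rw [← Finset.mul_sum, Finset.sum_add_distrib] at e6
  linarith

/-- Bessel's inequality -/
theorem ON.bessel (h : TrAlg τ) {ι : Type*} [DecidableEq ι] {e : ι → A} (he : ON τ e)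
    (F : Finset ι) (x : A) : ∑ i ∈ F, ‖τ (star (e i) * x)‖ ^ 2 ≤ n2 τ x ^ 2 := by
  set c : ι → ℂ := fun i => τ (star (e i) * x) with hc
  have e1 : n2 τ (x - ∑ i ∈ F, c i • e i) ^ 2 = n2 τ x ^ 2 + ∑ i ∈ F, ‖c i‖ ^ 2 -
      2 * ∑ i ∈ F, (star (c i) * τ (star (e i) * x)).re := by
    rw [← he.n2_sum h F c, h.n2_sq, h.n2_sq, h.n2_sq]
    set s := ∑ i ∈ F, c i • e i with hs
    have e2 : star (x - s) * (x - s) = star x * x + star s * s - star s * x - star x * s := by
      rw [star_sub]; noncomm_ring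
    have e3 : (τ (star x * s)).re = (τ (star s * x)).re := by
      have : τ (star x * s) = star (τ (star s * x)) := by
        rw [← h.conj, star_mul, star_star]
      rw [this, Complex.star_def, Complex.conj_re]
    have e4 : τ (star s * x) = ∑ i ∈ F, star (c i) * τ (star (e i) * x) := by
      rw [hs, star_sum, Finset.sum_mul, map_sum]
      refine Finset.sum_congr rfl fun i _ => ?_
      rw [star_smul, smul_mul_assoc, map_smul, smul_eq_mul]
    rw [e2, map_sub, map_sub, map_add, Complex.sub_re, Complex.sub_re, Complex.add_re,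
      e3, e4, Complex.re_sum]
    ring
  have e5 : ∀ i ∈ F, (star (c i) * τ (star (e i) * x)).re = ‖c i‖ ^ 2 := by
    intro i _
    show (star (c i) * c i).re = _
    rw [Complex.star_def, ← Complex.normSq_eq_conj_mul_self, Complex.ofReal_re,
      Complex.normSq_eq_norm_sq]
  rw [Finset.sum_congr rfl e5] at e1
  have := sq_nonneg (n2 τ (x - ∑ i ∈ F, c i • e i))
  linarith

/-! ### Pauli systems -/

variable {W : VV → A}

theorem PauliSys.on (hW : PauliSys τ W) : ON τ W := by
  intro s t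
  rw [hW.star, smul_mul_assoc, hW.mul, smul_smul, map_smul, hW.trace]
  have key : s + t = 0 ↔ s = t := by
    constructor
    · intro h
      have : s + t + t = t := by rw [h, zero_add]
      rwa [add_assoc, vv_add_self, add_zero] at this
    · rintro rfl
      exact vv_add_self s
  by_cases hst : s = t
  · subst hst
    rw [if_pos (vv_add_self s), if_pos rfl, sg_mul_self, smul_eq_mul, mul_one]
  · rw [if_neg (fun h => hst (key.1 h)), if_neg hst, smul_zero]

theorem PauliSys.star_mul_self (hW : PauliSys τ W) (v : VV) : star (W v) * W v = 1 := by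
  rw [hW.star, smul_mul_assoc, hW.mul, smul_smul, sg_mul_self, one_smul, vv_add_self, hW.zero]

theorem PauliSys.mul_star_self (hW : PauliSys τ W) (v : VV) : W v * star (W v) = 1 := by
  rw [hW.star, mul_smul_comm, hW.mul, smul_smul, sg_mul_self, one_smul, vv_add_self, hW.zero]

theorem PauliSys.comm (hW : PauliSys τ W) (v w : VV) :
    W v * W w = sg (sf v w) • (W w * W v) := by
  rw [hW.mul, hW.mul, smul_smul, add_comm w v]
  congr 1
  unfold sf
  rw [sg_add, mul_assoc, sg_mul_self, mul_one]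

theorem PauliSys.ctr (hW : PauliSys τ W) (h : TrAlg τ) (v : VV) : Ctr τ (W v) :=
  Ctr.of_unitary h (PauliSys.star_mul_self hW v) (PauliSys.mul_star_self hW v)

/-- the strings supported in `[0, k)` -/
def low (k : ℕ) : Set VV := {t | ∀ i, k ≤ i → t i = 0}

/-- the strings supported in `[k, ∞)` -/
def high (k : ℕ) : Set VV := {t | ∀ i < k, t i = 0}

theorem PauliSys.comm_low_high (hW : PauliSys τ W) {k : ℕ} {v w : VV} (hv : v ∈ high k)
    (hw : w ∈ low k) : W v * W w = W w * W v := by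
  rw [PauliSys.comm hW, sf_eq_zero k v w hv hw]
  unfold sg
  rw [if_pos rfl, one_smul]

open Classical in
/-- An element of the span of the Pauli strings is close to the span of the low strings if it almost
commutes with the high strings. -/
theorem PauliSys.near_low (hW : PauliSys τ W) (h : TrAlg τ) (k : ℕ) (F : Finset VV) (c : VV → ℂ) :
    ∃ w ∈ high k, n2 τ (∑ t ∈ F, c t • W t - ∑ t ∈ F with (∀ i, k ≤ i → t i = 0), c t • W t) ≤
      n2 τ (W w * (∑ t ∈ F, c t • W t) - (∑ t ∈ F, c t • W t) * W w) := by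
  set F' := F.filter (fun t => ¬ ∀ i, k ≤ i → t i = 0) with hF'
  obtain ⟨w, hw, hs⟩ := exists_pauli k F' (fun t => ‖c t‖ ^ 2) (fun t _ => sq_nonneg _) (fun t => t)
    (by
      intro t ht
      rw [hF', Finset.mem_filter] at ht
      have := ht.2
      push Not at this
      obtain ⟨i, h1, h2⟩ := this
      exact ⟨i, h1, h2⟩)
  refine ⟨w, hw, ?_⟩
  have hon := PauliSys.on hW
  -- the far part
  have e1 : ∑ t ∈ F, c t • W t - ∑ t ∈ F with (∀ i, k ≤ i → t i = 0), c t • W t =
      ∑ t ∈ F', c t • W t := by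
    rw [← Finset.sum_filter_add_sum_filter_not F (fun t => ∀ i, k ≤ i → t i = 0)]
    rw [add_sub_cancel_left]
  have e2 : n2 τ (∑ t ∈ F', c t • W t) ^ 2 = ∑ t ∈ F', ‖c t‖ ^ 2 := hon.n2_sum h F' c
  -- the commutator
  have hinj : ∀ x ∈ F, ∀ y ∈ F, w + x = w + y → x = y := fun x _ y _ hxy => add_left_cancel hxy
  have e3 : W w * (∑ t ∈ F, c t • W t) - (∑ t ∈ F, c t • W t) * W w =
      ∑ s ∈ F.image (fun t => w + t),
        (c (w + s) * (sg (bf w (w + s)) - sg (bf (w + s) w))) • W s := by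
    rw [Finset.sum_image hinj, Finset.mul_sum, Finset.sum_mul, ← Finset.sum_sub_distrib]
    refine Finset.sum_congr rfl fun t _ => ?_
    have : w + (w + t) = t := by rw [← add_assoc, vv_add_self, zero_add]
    rw [this, mul_smul_comm, smul_mul_assoc, hW.mul, hW.mul, add_comm t w, mul_smul, sub_smul,
      smul_sub]
  have e4 : n2 τ (W w * (∑ t ∈ F, c t • W t) - (∑ t ∈ F, c t • W t) * W w) ^ 2 =
      ∑ t ∈ F, ‖c t‖ ^ 2 * (2 * (1 - (if sf w t = 0 then (1 : ℝ) else -1))) := by
    rw [e3, hon.n2_sum h, Finset.sum_image hinj]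
    refine Finset.sum_congr rfl fun t _ => ?_
    have : w + (w + t) = t := by rw [← add_assoc, vv_add_self, zero_add]
    rw [this, norm_mul, mul_pow]
    congr 1
    rw [← norm_sg_sub_one_sq]
    unfold sf
    rw [sg_add]
    have e5 : sg (bf w t) * sg (bf t w) - 1 = (sg (bf w t) - sg (bf t w)) * sg (bf t w) := by
      rw [sub_mul, sg_mul_self]
    rw [e5, norm_mul, norm_sg, mul_one]
  have e6 : ∑ t ∈ F', ‖c t‖ ^ 2 * (2 * (1 - (if sf w t = 0 then (1 : ℝ) else -1))) ≤
      ∑ t ∈ F, ‖c t‖ ^ 2 * (2 * (1 - (if sf w t = 0 then (1 : ℝ) else -1))) := by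
    refine Finset.sum_le_sum_of_subset_of_nonneg (Finset.filter_subset _ _) fun t _ _ => ?_
    split_ifs
    · norm_num
    · have := sq_nonneg ‖c t‖
      nlinarith
  have e7 : 2 * ∑ t ∈ F', ‖c t‖ ^ 2 ≤
      ∑ t ∈ F', ‖c t‖ ^ 2 * (2 * (1 - (if sf w t = 0 then (1 : ℝ) else -1))) := by
    have : ∑ t ∈ F', ‖c t‖ ^ 2 * (2 * (1 - (if sf w t = 0 then (1 : ℝ) else -1))) =
        2 * ∑ t ∈ F', ‖c t‖ ^ 2 -
          2 * ∑ t ∈ F', ‖c t‖ ^ 2 * (if sf w t = 0 then (1 : ℝ) else -1) := by
      rw [Finset.mul_sum, Finset.mul_sum, ← Finset.sum_sub_distrib]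
      refine Finset.sum_congr rfl fun t _ => ?_
      ring
    rw [this]
    linarith
  rw [e1]
  have e8 : n2 τ (∑ t ∈ F', c t • W t) ^ 2 ≤
      n2 τ (W w * (∑ t ∈ F, c t • W t) - (∑ t ∈ F, c t • W t) * W w) ^ 2 := by
    rw [e2, e4]
    have : 0 ≤ ∑ t ∈ F', ‖c t‖ ^ 2 := Finset.sum_nonneg fun t _ => sq_nonneg _
    linarith
  exact (pow_le_pow_iff_left₀ (n2_nonneg _ _) (n2_nonneg _ _) two_ne_zero).1 e8

end Pool.Agent.H504R3
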