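import Mathlib

/-!
# Tracial von Neumann algebras and their continuous logic

The structures of the continuous logic of tracial von Neumann algebras, tracial von Neumann algebras,
II_1 factors, property Gamma, the hyperfinite II_1 factor, tensor products with it, strongly McDuff
factors; formulas of continuous logic and elementary equivalence.
-/

set_option autoImplicit false

open scoped InnerProductSpace

namespace Pool.Agent.H504R3.S

/-- The structures: a set with a unit, addition, multiplication, adjoint, multiplication by complex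
scalars, operator norm and trace. -/
structure Str : Type 1 where
  /-- the elements -/
  carrier : Type
  /-- the unit -/
  one : carrier
  /-- addition -/
  add : carrier → carrier → carrier
  /-- multiplication -/
  mul : carrier → carrier → carrier
  /-- the adjoint -/
  adj : carrier → carrier
  /-- scalar multiples -/
  scal : ℂ → carrier → carrier
  /-- the operator norm -/
  nrm : carrier → ℝ
  /-- the trace -/
  tr : carrier → ℂ

section

variable {H : Type} [NormedAddCommGroup H] [InnerProductSpace ℂ H] [CompleteSpace H]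
  (N : VonNeumannAlgebra H)

theorem mem_one : (1 : H →L[ℂ] H) ∈ N := N.one_mem'

theorem mem_add {x y : H →L[ℂ] H} (hx : x ∈ N) (hy : y ∈ N) : x + y ∈ N := N.add_mem' hx hy

theorem mem_mul {x y : H →L[ℂ] H} (hx : x ∈ N) (hy : y ∈ N) : x * y ∈ N := N.mul_mem' hx hy

theorem mem_adj {x : H →L[ℂ] H} (hx : x ∈ N) : star x ∈ N := N.star_mem' hx

theorem mem_scal {x : H →L[ℂ] H} (c : ℂ) (hx : x ∈ N) : c • x ∈ N :=
  N.toStarSubalgebra.smul_mem hx c

/-- The structure given by a von Neumann algebra `N` on `H` and the positive normal functional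
`x ↦ ∑ ⟨ξ k, x (ξ k)⟩`. -/
noncomputable def vnStr (ξ : ℕ → H) : Str where
  carrier := {x : H →L[ℂ] H // x ∈ N}
  one := ⟨1, mem_one N⟩
  add x y := ⟨x.1 + y.1, mem_add N x.2 y.2⟩
  mul x y := ⟨x.1 * y.1, mem_mul N x.2 y.2⟩
  adj x := ⟨star x.1, mem_adj N x.2⟩
  scal c x := ⟨c • x.1, mem_scal N c x.2⟩
  nrm x := ‖x.1‖
  tr x := ∑' k, ⟪ξ k, x.1 (ξ k)⟫_ℂ

end

/-- Terms: `*`-polynomials with complex coefficients in noncommuting variables from `V`. -/
inductive Tm (V : Type) : Type
  | var (v : V) : Tm V
  | one : Tm V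
  | add (s t : Tm V) : Tm V
  | mul (s t : Tm V) : Tm V
  | adj (s : Tm V) : Tm V
  | scal (c : ℂ) (s : Tm V) : Tm V

/-- The value of a term when the variable `v` has the value `x v`. -/
def Tm.val (M : Str) {V : Type} (x : V → M.carrier) : Tm V → M.carrier
  | .var v => x v
  | .one => M.one
  | .add s t => M.add (s.val M x) (t.val M x)
  | .mul s t => M.mul (s.val M x) (t.val M x)
  | .adj s => M.adj (s.val M x)
  | .scal c s => M.scal c (s.val M x)

namespace Str

/-- Zero. -/
def zero (M : Str) : M.carrier := M.scal 0 M.one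

/-- Subtraction. -/
def sub (M : Str) (x y : M.carrier) : M.carrier := M.add x (M.scal (-1) y)

/-- The 2-norm `‖x‖₂ = tr(x* x)^{1/2}`. -/
noncomputable def norm2 (M : Str) (x : M.carrier) : ℝ := Real.sqrt (M.tr (M.mul (M.adj x) x)).re

/-- The closed ball of radius `r` for the operator norm. -/
abbrev Ball (M : Str) (r : ℕ) : Type := {x : M.carrier // M.nrm x ≤ r}

/-- `M` is a tracial von Neumann algebra: `M` is given by a von Neumann algebra `N` on a Hilbert
space `H`, and its trace is a faithful normal tracial state (normal: a countable sum of vector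
functionals). -/
def IsTVN (M : Str) : Prop :=
  ∃ (H : Type) (_ : NormedAddCommGroup H) (_ : InnerProductSpace ℂ H) (_ : CompleteSpace H)
    (N : VonNeumannAlgebra H) (ξ : ℕ → H), Summable (fun k => ‖ξ k‖ ^ 2) ∧ M = vnStr N ξ ∧
    M.tr M.one = 1 ∧ (∀ x y, M.tr (M.mul x y) = M.tr (M.mul y x)) ∧
    ∀ x, M.tr (M.mul (M.adj x) x) = 0 → x = M.zero

/-- `M` is a II_1 factor: a tracial von Neumann algebra with trivial center which is infinite
dimensional (it has arbitrarily large finite orthonormal families for `⟨x, y⟩ = tr(x* y)`). -/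
structure IsIIOneFactor (M : Str) : Prop where
  tvn : M.IsTVN
  center : ∀ z, (∀ x, M.mul z x = M.mul x z) → ∃ c : ℂ, z = M.scal c M.one
  infinite : ∀ n : ℕ, ∃ x : Fin n → M.carrier,
    ∀ i k, M.tr (M.mul (M.adj (x i)) (x k)) = if i = k then 1 else 0

/-- `M` is separable: it has a countable 2-norm dense subset. -/
def IsSeparable (M : Str) : Prop :=
  ∃ S : Set M.carrier, S.Countable ∧
    ∀ (x : M.carrier) (ε : ℝ), 0 < ε → ∃ y ∈ S, M.norm2 (M.sub x y) < ε

/-- Unitaries. -/
def IsUnitary (M : Str) (u : M.carrier) : Prop :=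
  M.mul (M.adj u) u = M.one ∧ M.mul u (M.adj u) = M.one

/-- Property Gamma: for every finite set `F` and every `ε > 0` there is a unitary `u` of trace zero
with `‖x u - u x‖₂ < ε` for all `x ∈ F`. -/
def HasGamma (M : Str) : Prop :=
  ∀ (F : Finset M.carrier) (ε : ℝ), 0 < ε →
    ∃ u, M.IsUnitary u ∧ M.tr u = 0 ∧ ∀ x ∈ F, M.norm2 (M.sub (M.mul x u) (M.mul u x)) < ε

/-- `α` is a unital `*`-homomorphism from `N` to `M`. -/
structure IsHom (N M : Str) (α : N.carrier → M.carrier) : Prop where
  one : α N.one = M.one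
  add : ∀ x y, α (N.add x y) = M.add (α x) (α y)
  mul : ∀ x y, α (N.mul x y) = M.mul (α x) (α y)
  adj : ∀ x, α (N.adj x) = M.adj (α x)
  scal : ∀ c x, α (N.scal c x) = M.scal c (α x)

/-- The family `x` generates `M`: the `*`-polynomials in the `x v` are 2-norm dense in `M`. -/
def Generates (M : Str) {V : Type} (x : V → M.carrier) : Prop :=
  ∀ (z : M.carrier) (ε : ℝ), 0 < ε → ∃ t : Tm V, M.norm2 (M.sub z (t.val M x)) < ε

/-- `e` is a system of `2 × 2` matrix units in `M`. -/
structure IsMatrixUnits (M : Str) (e : Fin 2 → Fin 2 → M.carrier) : Prop where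
  mul : ∀ a b c d, M.mul (e a b) (e c d) = if b = c then e a d else M.zero
  adj : ∀ a b, M.adj (e a b) = e b a
  one : M.add (e 0 0) (e 1 1) = M.one

/-- `R` is the hyperfinite II_1 factor, the infinite tensor product of copies of the `2 × 2`
matrices: a tracial von Neumann algebra generated by a sequence of commuting systems of `2 × 2`
matrix units. -/
def IsHyperfinite (R : Str) : Prop :=
  R.IsTVN ∧ ∃ e : ℕ → Fin 2 → Fin 2 → R.carrier, (∀ k, R.IsMatrixUnits (e k)) ∧
    (∀ k l, k ≠ l → ∀ a b c d, R.mul (e k a b) (e l c d) = R.mul (e l c d) (e k a b)) ∧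
    R.Generates (fun v : ℕ × Fin 2 × Fin 2 => e v.1 v.2.1 v.2.2)

/-- `M` is (isomorphic to) the von Neumann algebra tensor product of `N` and `R`: `M` is a tracial
von Neumann algebra generated by commuting copies of `N` and `R` on which the trace of `M` is the
product of the traces. -/
def IsTensor (M N R : Str) : Prop :=
  M.IsTVN ∧ ∃ (α : N.carrier → M.carrier) (β : R.carrier → M.carrier),
    IsHom N M α ∧ IsHom R M β ∧ (∀ x y, M.mul (α x) (β y) = M.mul (β y) (α x)) ∧
    (∀ x y, M.tr (M.mul (α x) (β y)) = N.tr x * R.tr y) ∧ M.Generates (Sum.elim α β)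

/-- `M` is strongly McDuff: it is isomorphic to the tensor product of a separable II_1 factor `N`
without property Gamma and the hyperfinite II_1 factor. -/
def IsStronglyMcDuff (M : Str) : Prop :=
  ∃ N R : Str, N.IsIIOneFactor ∧ N.IsSeparable ∧ ¬ N.HasGamma ∧ R.IsHyperfinite ∧ M.IsTensor N R

end Str

/-- Formulas of the continuous logic of tracial von Neumann algebras with `n` free variables: the
real and the imaginary part of the trace of a term, the 2-norm of a term (the distance of `s` and `t`
is the 2-norm of `s - t`), continuous functions of finitely many formulas, and the supremum and the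
infimum over a variable which ranges over the operator norm ball of radius `r`. -/
inductive Fm : ℕ → Type
  | re {n : ℕ} (t : Tm (Fin n)) : Fm n
  | im {n : ℕ} (t : Tm (Fin n)) : Fm n
  | nrm {n : ℕ} (t : Tm (Fin n)) : Fm n
  | conn {n k : ℕ} (u : C(Fin k → ℝ, ℝ)) (φ : Fin k → Fm n) : Fm n
  | sup {n : ℕ} (r : ℕ) (φ : Fm (n + 1)) : Fm n
  | inf {n : ℕ} (r : ℕ) (φ : Fm (n + 1)) : Fm n

/-- The value of a formula in `M` when its free variables have the values `x 0, x 1, …`. -/
noncomputable def Fm.val (M : Str) : {n : ℕ} → Fm n → (Fin n → M.carrier) → ℝ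
  | _, .re t, x => (M.tr (t.val M x)).re
  | _, .im t, x => (M.tr (t.val M x)).im
  | _, .nrm t, x => M.norm2 (t.val M x)
  | _, .conn u φ, x => u fun i => (φ i).val M x
  | _, .sup r φ, x => ⨆ y : M.Ball r, φ.val M (Fin.cons y.1 x)
  | _, .inf r φ, x => ⨅ y : M.Ball r, φ.val M (Fin.cons y.1 x)

/-- Elementary equivalence: every sentence has the same value in `M` and in `N`. -/
def Str.ElemEq (M N : Str) : Prop := ∀ φ : Fm 0, φ.val M Fin.elim0 = φ.val N Fin.elim0

end Pool.Agent.H504R3.S
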