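import Mathlib

/-!
# Tracial von Neumann algebras and their continuous logic

Definitions: tracial von Neumann algebras, II_1 factors, property Gamma, the hyperfinite II_1
factor, tensor products with it, strongly McDuff factors; `*`-polynomials, formulas of continuous
logic, elementary equivalence and existentially closed algebras.
-/

set_option autoImplicit false

open scoped InnerProductSpace

namespace Pool.Agent.H504R3

/-- A tracial von Neumann algebra: a von Neumann algebra `N` on a Hilbert space `H` with a faithful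
normal tracial state `τ`.  (Normal: `τ` is a countable sum of vector functionals.) -/
structure TVN where
  /-- the Hilbert space -/
  H : Type
  [i1 : NormedAddCommGroup H]
  [i2 : InnerProductSpace ℂ H]
  [i3 : CompleteSpace H]
  /-- the von Neumann algebra -/
  N : VonNeumannAlgebra H
  /-- the trace -/
  τ : N.toStarSubalgebra →ₗ[ℂ] ℂ
  map_one : τ 1 = 1
  tracial : ∀ x y, τ (x * y) = τ (y * x)
  faithful : ∀ x, τ (star x * x) = 0 → x = 0
  normal : ∃ ξ : ℕ → H, Summable (fun k => ‖ξ k‖ ^ 2) ∧
    ∀ x : N.toStarSubalgebra, τ x = ∑' k, ⟪ξ k, (x : H →L[ℂ] H) (ξ k)⟫_ℂ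

attribute [instance] TVN.i1 TVN.i2 TVN.i3

namespace TVN

/-- The elements of a tracial von Neumann algebra. -/
abbrev E (M : TVN) : Type := M.N.toStarSubalgebra

/-- The operator norm. -/
noncomputable def opNorm (M : TVN) (x : M.E) : ℝ := ‖(x : M.H →L[ℂ] M.H)‖

/-- The 2-norm `‖x‖₂ = τ(x* x)^{1/2}`. -/
noncomputable def norm2 (M : TVN) (x : M.E) : ℝ := Real.sqrt (M.τ (star x * x)).re

/-- The closed ball of radius `r` for the operator norm. -/
abbrev Ball (M : TVN) (r : ℕ) : Type := {x : M.E // M.opNorm x ≤ r}

/-- A II_1 factor: an infinite dimensional tracial von Neumann algebra with trivial center. -/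
structure IsIIOneFactor (M : TVN) : Prop where
  center : ∀ z : M.E, (∀ x, z * x = x * z) → ∃ c : ℂ, z = c • (1 : M.E)
  infinite : ¬ FiniteDimensional ℂ M.E

/-- `M` is separable: it has a countable 2-norm dense subset. -/
def IsSeparable (M : TVN) : Prop :=
  ∃ S : Set M.E, S.Countable ∧ ∀ (x : M.E) (ε : ℝ), 0 < ε → ∃ y ∈ S, M.norm2 (x - y) < ε

/-- Property Gamma: for every finite set `F` and every `ε > 0` there is a unitary `u` of trace zero
with `‖x u - u x‖₂ < ε` for all `x ∈ F`. -/
def HasGamma (M : TVN) : Prop :=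
  ∀ (F : Finset M.E) (ε : ℝ), 0 < ε →
    ∃ u ∈ unitary M.E, M.τ u = 0 ∧ ∀ x ∈ F, M.norm2 (x * u - u * x) < ε

/-- `R` is the hyperfinite II_1 factor, the infinite tensor product of copies of the `2 × 2`
matrices: `R` is generated by a sequence `j k` of pairwise commuting unital copies of `M₂(ℂ)` (the
algebra generated by them is dense in the 2-norm). -/
def IsHyperfinite (R : TVN) : Prop :=
  ∃ j : ℕ → (Matrix (Fin 2) (Fin 2) ℂ →⋆ₐ[ℂ] R.E),
    (∀ k l, k ≠ l → ∀ a b, j k a * j l b = j l b * j k a) ∧
    ∀ (x : R.E) (ε : ℝ), 0 < ε →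
      ∃ y ∈ Algebra.adjoin ℂ (⋃ k, Set.range (j k)), R.norm2 (x - y) < ε

/-- `M` is (isomorphic to) the von Neumann algebra tensor product of `N` and `R`: there are commuting
copies of `N` and `R` in `M` on which the trace of `M` is the product of the traces, and the linear
combinations of the products are dense in the 2-norm. -/
def IsTensor (M N R : TVN) : Prop :=
  ∃ (α : N.E →⋆ₐ[ℂ] M.E) (β : R.E →⋆ₐ[ℂ] M.E),
    (∀ x y, α x * β y = β y * α x) ∧
    (∀ x y, M.τ (α x * β y) = N.τ x * R.τ y) ∧
    ∀ (z : M.E) (ε : ℝ), 0 < ε →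
      ∃ w ∈ Submodule.span ℂ {w : M.E | ∃ x y, w = α x * β y}, M.norm2 (z - w) < ε

/-- `M` is strongly McDuff: it is isomorphic to the tensor product of a separable II_1 factor `N`
without property Gamma and the hyperfinite II_1 factor. -/
def IsStronglyMcDuff (M : TVN) : Prop :=
  ∃ N R : TVN, N.IsIIOneFactor ∧ N.IsSeparable ∧ ¬ N.HasGamma ∧ R.IsHyperfinite ∧ M.IsTensor N R

end TVN

/-- Terms: `*`-polynomials with complex coefficients in noncommuting variables from `V`. -/
inductive Tm (V : Type) : Type
  | var (v : V) : Tm V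
  | one : Tm V
  | add (s t : Tm V) : Tm V
  | mul (s t : Tm V) : Tm V
  | adj (s : Tm V) : Tm V
  | scal (c : ℂ) (s : Tm V) : Tm V

/-- The value of a term when the variable `v` has the value `x v`. -/
noncomputable def Tm.val (M : TVN) {V : Type} (x : V → M.E) : Tm V → M.E
  | .var v => x v
  | .one => 1
  | .add s t => s.val M x + t.val M x
  | .mul s t => s.val M x * t.val M x
  | .adj s => star (s.val M x)
  | .scal c s => c • s.val M x

/-- Quantifier-free formulas of the continuous logic of tracial von Neumann algebras, with variables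
from `V`: the real and the imaginary part of the trace of a term, the 2-norm of a term (the distance
of `s` and `t` is the 2-norm of `s - t`), and continuous functions of finitely many formulas. -/
inductive QF (V : Type) : Type
  | re (t : Tm V) : QF V
  | im (t : Tm V) : QF V
  | nrm (t : Tm V) : QF V
  | conn {k : ℕ} (u : C(Fin k → ℝ, ℝ)) (φ : Fin k → QF V) : QF V

/-- The value of a quantifier-free formula. -/
noncomputable def QF.val (M : TVN) {V : Type} (x : V → M.E) : QF V → ℝ
  | .re t => (M.τ (t.val M x)).re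
  | .im t => (M.τ (t.val M x)).im
  | .nrm t => M.norm2 (t.val M x)
  | .conn u φ => u fun i => (φ i).val M x

/-- Formulas with `n` free variables: as above, and moreover the supremum and the infimum over a
variable which ranges over the operator norm ball of radius `r`. -/
inductive Fm : ℕ → Type
  | re {n : ℕ} (t : Tm (Fin n)) : Fm n
  | im {n : ℕ} (t : Tm (Fin n)) : Fm n
  | nrm {n : ℕ} (t : Tm (Fin n)) : Fm n
  | conn {n k : ℕ} (u : C(Fin k → ℝ, ℝ)) (φ : Fin k → Fm n) : Fm n
  | sup {n : ℕ} (r : ℕ) (φ : Fm (n + 1)) : Fm n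
  | inf {n : ℕ} (r : ℕ) (φ : Fm (n + 1)) : Fm n

/-- The value of a formula in `M` when its free variables have the values `x 0, x 1, …`. -/
noncomputable def Fm.val (M : TVN) : {n : ℕ} → Fm n → (Fin n → M.E) → ℝ
  | _, .re t, x => (M.τ (t.val M x)).re
  | _, .im t, x => (M.τ (t.val M x)).im
  | _, .nrm t, x => M.norm2 (t.val M x)
  | _, .conn u φ, x => u fun i => (φ i).val M x
  | _, .sup r φ, x => ⨆ y : M.Ball r, φ.val M (Fin.cons y.1 x)
  | _, .inf r φ, x => ⨅ y : M.Ball r, φ.val M (Fin.cons y.1 x)

namespace TVN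

/-- Elementary equivalence: every sentence has the same value in `M` and in `N`. -/
def ElemEq (M N : TVN) : Prop := ∀ φ : Fm 0, φ.val M Fin.elim0 = φ.val N Fin.elim0

/-- `M` is existentially closed: for every tracial von Neumann algebra `Q` containing `M` (with
trace preserving inclusion `ι`) and every quantifier-free formula `φ` in `n` variables with
parameters from `M`, the infimum of `φ` over the (`n`-tuples in the) unit ball is the same in `M` as
in `Q`. -/
def IsEC (M : TVN) : Prop :=
  ∀ (Q : TVN) (ι : M.E →⋆ₐ[ℂ] Q.E), (∀ x, Q.τ (ι x) = M.τ x) →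
    ∀ (n : ℕ) (φ : QF (Fin n ⊕ M.E)),
      ⨅ x : Fin n → M.Ball 1, φ.val M (Sum.elim (fun i => (x i).1) id) =
      ⨅ y : Fin n → Q.Ball 1, φ.val Q (Sum.elim (fun i => (y i).1) ι)

end TVN

end Pool.Agent.H504R3
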