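import Mathlib
import Pool.Agent.H518R4.UG.FCT
import Pool.Agent.H518R4.UG.NGAM
import Pool.Agent.H518R4.UG.MUL
import Pool.Agent.H518R4.UG.PART
import Pool.Agent.H518R4.UG.GROUP
import Pool.Agent.H518R4.UG.MERGE
import Pool.Agent.H518R4.UG.ALIGN
import Pool.Agent.H518R4.UG.HALVE
import Pool.Agent.H518R4.UG.PYTH
import Pool.Agent.H518R4.UG.PHASE
import Pool.Agent.H518R4.UG.LIMP
import Pool.Agent.H518R4.UG.SELF
import Pool.Agent.H518R4.UG.TWOU
import Pool.Agent.H518R4.UG.CONN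
import Pool.Agent.H518R4.UG.COVER
import Pool.Agent.H518R4.UG.COMPR
import Pool.Agent.H518R4.UG.WEI
import Pool.Agent.H518R4.UG.COAR

/-!
Assembly: a II_1 factor without property Gamma has spectral gap.
-/

set_option autoImplicit false

namespace Pool.Agent.H504R3

open Pool.Agent.H518R4.UG

theorem ngam : S_NGAM :=
  p_NGAM (p_MUL (p_PART (p_HALVE (p_PHASE p_SELF p_TWOU (p_CONN p_WEI p_COAR) p_COVER p_COMPR)
    p_LIMP) p_PYTH) p_GROUP p_MERGE p_ALIGN)

theorem fct : S_FCT := p_FCT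

end Pool.Agent.H504R3
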