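import Mathlib
import Pool.Agent.H504R3.Base

/-!
The key proposition: in `N ⊗ R`, `N` with spectral gap, no unitary conjugates the gap tuple of `N`
into its almost commutant.
-/

set_option autoImplicit false
set_option linter.unusedSectionVars false

namespace Pool.Agent.H504R3

open Pool.Agent.Helper278 Pool.Agent.Helper436.SM

variable {A : Type} [Ring A] [StarRing A] [Algebra ℂ A] [StarModule ℂ A] {τ : A →ₗ[ℂ] ℂ}

/-- the commutator -/
def cmt (x y : A) : A := x * y - y * x

/-- The situation of the tensor product: a gap tuple `a`, unitaries `v` and Pauli strings `W`. -/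
structure Sit (τ : A →ₗ[ℂ] ℂ) (r : ℕ) (K : ℝ) (a : Fin r → A) (W : VV → A) :
    Prop where
  tr : TrAlg τ
  pauli : PauliSys τ W
  ctr : ∀ i, Ctr τ (a i)
  vex : ∀ n : ℕ, ∃ v : Fin n → A, (∀ l, star (v l) * v l = 1) ∧ (∀ l, v l * star (v l) = 1) ∧
    ON τ v ∧ ∀ l w, v l * W w = W w * v l
  aW : ∀ i w, a i * W w = W w * a i
  K0 : 0 ≤ K
  gap : ∀ (x : A) (η : ℝ), 0 < η → ∃ (F : Finset VV) (c : VV → ℂ),
    n2 τ (x - ∑ t ∈ F, c t • W t) ≤ K * ∑ i, n2 τ (cmt (a i) x) + η

variable {r : ℕ} {K : ℝ} {a : Fin r → A} {W : VV → A}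

/-- elements that commute with the Pauli strings -/
theorem comm_span {x : A} {S : Set VV} (hx : ∀ w ∈ S, x * W w = W w * x) (F : Finset VV)
    (hF : ∀ t ∈ F, t ∈ S) (c : VV → ℂ) : x * (∑ t ∈ F, c t • W t) = (∑ t ∈ F, c t • W t) * x := by
  rw [Finset.mul_sum, Finset.sum_mul]
  refine Finset.sum_congr rfl fun t ht => ?_
  rw [mul_smul_comm, smul_mul_assoc, hx t (hF t ht)]

/-- bound of the commutator with an element close to the commutant -/
theorem cmt_le (h : TrAlg τ) {x y q : A} {δ : ℝ} (hx : Ctr τ x) (hq : x * q = q * x)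
    (hy : n2 τ (y - q) ≤ δ) : n2 τ (cmt x y) ≤ 2 * δ := by
  have e : cmt x y = x * (y - q) - (y - q) * x := by
    unfold cmt
    rw [mul_sub, sub_mul, hq]
    abel
  rw [e]
  exact (hx.comm_le h _).trans (by linarith)

theorem n2_cmt_comm (h : TrAlg τ) (x y : A) : n2 τ (cmt x y) = n2 τ (cmt y x) := by
  unfold cmt
  rw [h.n2_sub_comm]

/-- the defects of `u* u` and `u u*` agree -/
theorem defect_eq (h : TrAlg τ) (u : A) :
    n2 τ (u * star u - 1) = n2 τ (star u * u - 1) := by
  unfold n2
  have e : τ (star (u * star u - 1) * (u * star u - 1)) =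
      τ (star (star u * u - 1) * (star u * u - 1)) := by
    have e1 : star (u * star u - 1) * (u * star u - 1) =
        u * (star u * u * star u) - u * star u - u * star u + 1 := by
      rw [star_sub, star_mul, star_star, star_one]; noncomm_ring
    have e2 : star (star u * u - 1) * (star u * u - 1) =
        (star u * u * star u) * u - star u * u - star u * u + 1 := by
      rw [star_sub, star_mul, star_star, star_one]; noncomm_ring
    rw [e1, e2, map_add, map_sub, map_sub, map_add, map_sub, map_sub, h.comm u (star u * u * star u),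
      h.comm u (star u)]
  rw [e]

/-- moving a commutator through an almost unitary: `[a, u* x u]` -/
theorem conj_cmt (h : TrAlg τ) {u x b : A} {ε : ℝ} (hu : Ctr τ u) (hx : Ctr τ x) (hb : Ctr τ b)
    (hd : n2 τ (star u * u - 1) ≤ ε) :
    n2 τ (cmt b (star u * x * u)) ≤ n2 τ (cmt (u * b * star u) x) + 2 * ε := by
  have hs := hu.star' h
  have e : cmt b (star u * x * u) = star u * cmt (u * b * star u) x * u -
      (star u * u - 1) * (b * star u * x * u) + (star u * x * u * b) * (star u * u - 1) := by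
    unfold cmt
    noncomm_ring
  rw [e]
  have h1 : n2 τ (star u * cmt (u * b * star u) x * u) ≤ n2 τ (cmt (u * b * star u) x) :=
    (hu.right _).trans (hs.left _)
  have h2 : n2 τ ((star u * u - 1) * (b * star u * x * u)) ≤ ε :=
    ((((hb.mul hs).mul hx).mul hu).right _).trans hd
  have h3 : n2 τ ((star u * x * u * b) * (star u * u - 1)) ≤ ε :=
    ((((hs.mul hx).mul hu).mul hb).left _).trans hd
  have h4 := h.n2_add_le (star u * cmt (u * b * star u) x * u -
      (star u * u - 1) * (b * star u * x * u)) ((star u * x * u * b) * (star u * u - 1))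
  have h5 := h.n2_sub_le (star u * cmt (u * b * star u) x * u)
      ((star u * u - 1) * (b * star u * x * u))
  linarith

/-- the key proposition -/
theorem key (S : Sit τ r K a W) {κ ε : ℝ} (hκ : κ = K * r + 1) (hε : ε = 1 / (80 * κ ^ 3))
    {u : A} (hu : Ctr τ u) (hd : n2 τ (star u * u - 1) ≤ ε)
    (hc : ∀ i j, n2 τ (cmt (u * a i * star u) (a j)) ≤ ε) : False := by
  classical
  have h := S.tr
  have hW := S.pauli
  have hK0 := S.K0
  have hκ1 : 1 ≤ κ := by rw [hκ]; have := mul_nonneg hK0 (Nat.cast_nonneg (α := ℝ) r); linarith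
  have hε0 : 0 < ε := by rw [hε]; positivity
  have hs := hu.star' h
  have hd' : n2 τ (u * star u - 1) ≤ ε := by rw [defect_eq h]; exact hd
  -- a consequence of the gap
  have gap' : ∀ (x : A) (δ : ℝ), 0 ≤ δ → (∀ i, n2 τ (cmt (a i) x) ≤ δ) →
      ∃ (F : Finset VV) (c : VV → ℂ), n2 τ (x - ∑ t ∈ F, c t • W t) ≤ (κ - 1) * δ + ε := by
    intro x δ _ hx
    obtain ⟨F, c, hF⟩ := S.gap x ε hε0
    refine ⟨F, c, hF.trans ?_⟩
    have h1 : ∑ i, n2 τ (cmt (a i) x) ≤ r * δ := by
      refine (Finset.sum_le_sum fun i _ => hx i).trans ?_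
      rw [Finset.sum_const, Finset.card_univ, Fintype.card_fin, nsmul_eq_mul]
    have h2 : K * ∑ i, n2 τ (cmt (a i) x) ≤ K * (r * δ) := mul_le_mul_of_nonneg_left h1 hK0
    have h3 : K * (r * δ) = (κ - 1) * δ := by rw [hκ]; ring
    linarith
  -- the conjugates of the gap tuple are close to the span of the Pauli strings
  have s1 : ∀ i, ∃ (F : Finset VV) (c : VV → ℂ),
      n2 τ (u * a i * star u - ∑ t ∈ F, c t • W t) ≤ κ * ε := by
    intro i
    obtain ⟨F, c, hF⟩ := gap' (u * a i * star u) ε hε0.le (fun j => by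
      rw [n2_cmt_comm h]; exact hc i j)
    exact ⟨F, c, hF.trans (by nlinarith)⟩
  choose F c hF using s1
  -- a common level
  obtain ⟨k, hk⟩ : ∃ k : ℕ, ∀ i, ∀ t ∈ F i, t ∈ low k := by
    refine ⟨Finset.univ.sup (fun i => (F i).sup (fun t => t.support.sup id + 1)), ?_⟩
    intro i t ht m hm
    by_contra hne
    have h3 : m ≤ t.support.sup id := Finset.le_sup (f := id) (Finsupp.mem_support_iff.2 hne)
    have h4 : t.support.sup id + 1 ≤ (F i).sup (fun t => t.support.sup id + 1) :=
      Finset.le_sup (f := fun t : VV => t.support.sup id + 1) ht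
    have h5 : (F i).sup (fun t => t.support.sup id + 1) ≤
        Finset.univ.sup (fun i => (F i).sup (fun t : VV => t.support.sup id + 1)) :=
      Finset.le_sup (f := fun i => (F i).sup (fun t : VV => t.support.sup id + 1))
        (Finset.mem_univ i)
    omega
  -- the finite set of low strings
  have hfin : (low k).Finite := by
    have : (low k) ⊆ ((Finset.range k).finsupp (fun _ => (Finset.univ : Finset (ZMod 2 × ZMod 2))) :
        Finset VV) := by
      intro t ht
      rw [Finset.mem_coe, Finset.mem_finsupp_iff]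
      refine ⟨?_, fun i _ => Finset.mem_univ _⟩
      intro i hi
      rw [Finset.mem_range]
      by_contra hle
      exact (Finsupp.mem_support_iff.1 hi) (ht i (not_lt.1 hle))
    exact (Finset.finite_toSet _).subset this
  set L := hfin.toFinset with hL
  set n := 2 * L.card + 1 with hn
  obtain ⟨v, hv1, hv2, hvon, hvW⟩ := S.vex n
  -- contractions commuting with the low strings: `X`
  have s2 : ∀ x : A, Ctr τ x → (∀ w ∈ low k, x * W w = W w * x) →
      ∃ q : A, (∀ l, v l * q = q * v l) ∧ n2 τ (star u * x * u - q) ≤ 4 * κ ^ 2 * ε := by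
    intro x hx hxW
    have h1 : ∀ i, n2 τ (cmt (u * a i * star u) x) ≤ 2 * (κ * ε) := by
      intro i
      rw [n2_cmt_comm h]
      exact cmt_le h hx (comm_span hxW (F i) (hk i) (c i)) (hF i)
    have h2 : ∀ i, n2 τ (cmt (a i) (star u * x * u)) ≤ 2 * (κ * ε) + 2 * ε := by
      intro i
      have := conj_cmt h hu hx (S.ctr i) hd
      linarith [h1 i]
    obtain ⟨G, d, hG⟩ := gap' (star u * x * u) (2 * (κ * ε) + 2 * ε) (by positivity) h2
    refine ⟨_, fun l => comm_span (S := Set.univ) (fun w _ => hvW l w) G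
      (fun _ _ => Set.mem_univ _) d, hG.trans ?_⟩
    nlinarith [mul_nonneg (sub_nonneg.2 hκ1) hε0.le, mul_nonneg hε0.le (sq_nonneg κ)]
  -- the conjugates of the `v l`
  have s3 : ∀ x : A, Ctr τ x → (∀ w ∈ low k, x * W w = W w * x) → ∀ l,
      n2 τ (cmt x (u * v l * star u)) ≤ 10 * κ ^ 2 * ε := by
    intro x hx hxW l
    obtain ⟨q, hq, hq2⟩ := s2 x hx hxW
    have hv : Ctr τ (v l) := Ctr.of_unitary h (hv1 l) (hv2 l)
    have h1 : n2 τ (cmt (v l) (star u * x * u)) ≤ 2 * (4 * κ ^ 2 * ε) := cmt_le h hv (hq l) hq2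
    have h2 := conj_cmt (u := star u) (x := v l) (b := x) (ε := ε) h hs hv hx (by
      rw [star_star]; exact hd')
    rw [star_star] at h2
    rw [n2_cmt_comm h] at h1
    nlinarith [mul_nonneg hε0.le (sq_nonneg κ), mul_nonneg (sub_nonneg.2 hκ1) hε0.le]
  -- they are close to the span of the low strings
  have s4 : ∀ l, ∃ (G : Finset VV) (d : VV → ℂ), (∀ t ∈ G, t ∈ low k) ∧
      n2 τ (u * v l * star u - ∑ t ∈ G, d t • W t) ≤ 1 / 2 := by
    intro l
    obtain ⟨G, d, hG⟩ := gap' (u * v l * star u) (10 * κ ^ 2 * ε) (by positivity) (fun i =>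
      s3 (a i) (S.ctr i) (fun w _ => S.aW i w) l)
    obtain ⟨w, hw, hw2⟩ := PauliSys.near_low hW h k G d
    have h1 := s3 (W w) (PauliSys.ctr hW h w) (fun t ht => PauliSys.comm_low_high hW hw ht) l
    have h2 : n2 τ (W w * (∑ t ∈ G, d t • W t) - (∑ t ∈ G, d t • W t) * W w) ≤
        10 * κ ^ 2 * ε + 2 * ((κ - 1) * (10 * κ ^ 2 * ε) + ε) := by
      have e : W w * (∑ t ∈ G, d t • W t) - (∑ t ∈ G, d t • W t) * W w =
          cmt (W w) (u * v l * star u) -
          (W w * (u * v l * star u - ∑ t ∈ G, d t • W t) -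
            (u * v l * star u - ∑ t ∈ G, d t • W t) * W w) := by
        unfold cmt; noncomm_ring
      rw [e]
      have h3 := h.n2_sub_le (cmt (W w) (u * v l * star u))
        (W w * (u * v l * star u - ∑ t ∈ G, d t • W t) -
            (u * v l * star u - ∑ t ∈ G, d t • W t) * W w)
      have h4 := (PauliSys.ctr hW h w).comm_le h (u * v l * star u - ∑ t ∈ G, d t • W t)
      linarith
    refine ⟨G.filter (fun t => ∀ i, k ≤ i → t i = 0), d, ?_, ?_⟩
    · intro t ht
      exact (Finset.mem_filter.1 ht).2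
    · have h5 := h.n2_tri (u * v l * star u) (∑ t ∈ G, d t • W t)
        (∑ t ∈ G with (∀ i, k ≤ i → t i = 0), d t • W t)
      have h6 : n2 τ (u * v l * star u - ∑ t ∈ G with (∀ i, k ≤ i → t i = 0), d t • W t) ≤
          40 * κ ^ 3 * ε := by
        have h7 : 0 ≤ ε * κ ^ 2 := by positivity
        have h8 : 0 ≤ ε * κ := by positivity
        have h9 : ε * κ ^ 2 ≤ ε * κ ^ 3 := by
          have : κ ^ 2 ≤ κ ^ 3 := pow_le_pow_right₀ hκ1 (by norm_num)
          exact mul_le_mul_of_nonneg_left this hε0.le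
        have h10 : ε ≤ ε * κ ^ 2 := by
          have : 1 ≤ κ ^ 2 := one_le_pow₀ hκ1
          nlinarith
        have hw2' : n2 τ (∑ t ∈ G, d t • W t -
            ∑ t ∈ G with (∀ i, k ≤ i → t i = 0), d t • W t) ≤
            10 * κ ^ 2 * ε + 2 * ((κ - 1) * (10 * κ ^ 2 * ε) + ε) := by
          refine le_trans (le_of_eq ?_) (hw2.trans h2)
          congr
        nlinarith
      have h11 : 40 * κ ^ 3 * ε = 1 / 2 := by
        rw [hε]
        field_simp
        norm_num
      linarith
  choose G d hG hG2 using s4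
  have hon := PauliSys.on hW
  have hdef1 : ‖τ (star u * u) - 1‖ ≤ ε := by
    have h1 := abs_trace_le h 1 (star u * u - 1)
    rw [one_mul, map_sub, h.one, n2_one h, one_mul] at h1
    exact h1.trans hd
  -- the norm of the conjugates
  have s5 : ∀ l, 1 - 2 * ε ≤ n2 τ (u * v l * star u) ^ 2 := by
    intro l
    have hv : Ctr τ (v l) := Ctr.of_unitary h (hv1 l) (hv2 l)
    rw [h.n2_sq]
    have e : τ (star (u * v l * star u) * (u * v l * star u)) =
        1 + τ ((star u * u - 1) * (v l * (star u * u) * star (v l))) + τ (star u * u - 1) := by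
      have e1 : star (u * v l * star u) * (u * v l * star u) =
          u * (star (v l) * (star u * u) * v l * star u) := by
        rw [star_mul, star_mul, star_star]; noncomm_ring
      rw [e1, h.comm u]
      have e2 : star (v l) * (star u * u) * v l * star u * u =
          star (v l) * ((star u * u) * v l * (star u * u)) := by noncomm_ring
      rw [e2, h.comm (star (v l))]
      have e3 : star u * u * v l * (star u * u) * star (v l) =
          (star u * u - 1) * (v l * (star u * u) * star (v l)) +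
            v l * ((star u * u - 1) * star (v l)) + v l * star (v l) := by noncomm_ring
      rw [e3, map_add, map_add, hv2, h.one, h.comm (v l) ((star u * u - 1) * star (v l)),
        mul_assoc (star u * u - 1) (star (v l)) (v l), hv1, mul_one]
      ring
    rw [e, Complex.add_re, Complex.add_re, Complex.one_re]
    have h1 : ‖τ ((star u * u - 1) * (v l * (star u * u) * star (v l)))‖ ≤ ε := by
      refine (abs_trace_le h _ _).trans ?_
      have := (((hv.mul (hs.mul hu)).mul (hv.star' h)).n2_le h)
      have h0 := n2_nonneg τ (star u * u - 1)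
      nlinarith [n2_nonneg τ (v l * (star u * u) * star (v l))]
    have h2 := (abs_le.1 (Complex.abs_re_le_norm
      (τ ((star u * u - 1) * (v l * (star u * u) * star (v l)))))).1
    have h3 := (abs_le.1 (Complex.abs_re_le_norm (τ (star u * u - 1)))).1
    rw [map_sub, h.one] at h3
    rw [map_sub, h.one]
    linarith
  -- lower bound
  have s6 : ∀ l, 1 / 2 ≤ ∑ t ∈ L, ‖τ (star (W t) * (u * v l * star u))‖ ^ 2 := by
    intro l
    have hsub : ∑ t ∈ G l, d l t • W t = ∑ t ∈ L, (if t ∈ G l then d l t else 0) • W t := by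
      have : G l ⊆ L := fun t ht => by rw [hL, Set.Finite.mem_toFinset]; exact hG l t ht
      rw [← Finset.sum_filter_add_sum_filter_not L (fun t => t ∈ G l)]
      have e1 : L.filter (fun t => t ∈ G l) = G l := by
        ext t
        rw [Finset.mem_filter]
        exact ⟨fun hh => hh.2, fun hh => ⟨this hh, hh⟩⟩
      rw [e1]
      have e2 : ∑ t ∈ L with ¬ t ∈ G l, (if t ∈ G l then d l t else 0) • W t = 0 := by
        refine Finset.sum_eq_zero fun t ht => ?_
        rw [if_neg (Finset.mem_filter.1 ht).2, zero_smul]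
      rw [e2, add_zero]
      refine Finset.sum_congr rfl fun t ht => ?_
      rw [if_pos ht]
    have h1 := hon.pyth h L (fun t => if t ∈ G l then d l t else 0) (u * v l * star u)
    rw [← hsub] at h1
    have h2 := hG2 l
    have h3 := n2_nonneg τ (u * v l * star u - ∑ t ∈ G l, d l t • W t)
    have h4 := s5 l
    have h5 : ε ≤ 1 / 80 := by
      rw [hε]
      apply one_div_le_one_div_of_le (by norm_num)
      have : 1 ≤ κ ^ 3 := one_le_pow₀ hκ1
      linarith
    nlinarith
  -- upper bound
  have s7 : ∀ (t : VV),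
      ∑ l, ‖τ (star (W t) * (u * v l * star u))‖ ^ 2 ≤ 1 := by
    intro t
    have h1 := hvon.bessel h Finset.univ (star u * W t * u)
    have h2 : ∀ l, ‖τ (star (v l) * (star u * W t * u))‖ =
        ‖τ (star (W t) * (u * v l * star u))‖ := by
      intro l
      have e1 : star (star (v l) * (star u * W t * u)) = star u * star (W t) * u * v l := by
        rw [star_mul, star_mul, star_mul, star_star, star_star]
        simp only [mul_assoc]
      rw [← norm_star, ← h.conj, e1]
      congr 1
      have e2 : star u * star (W t) * u * v l = star u * (star (W t) * u * v l) := by noncomm_ring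
      rw [e2, h.comm]
      simp only [mul_assoc]
    simp only [h2] at h1
    have h3 : n2 τ (star u * W t * u) ≤ 1 :=
      (((hs.mul (PauliSys.ctr hW h t)).mul hu).n2_le h)
    have h4 := n2_nonneg τ (star u * W t * u)
    nlinarith
  have h1 : ∑ l, ∑ t ∈ L, ‖τ (star (W t) * (u * v l * star u))‖ ^ 2 ≤ L.card := by
    rw [Finset.sum_comm]
    refine (Finset.sum_le_sum fun t _ => s7 t).trans ?_
    rw [Finset.sum_const, nsmul_eq_mul, mul_one]
  have h2 : (n : ℝ) * (1 / 2) ≤
      ∑ l, ∑ t ∈ L, ‖τ (star (W t) * (u * v l * star u))‖ ^ 2 := by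
    have := Finset.sum_le_sum fun l (_ : l ∈ Finset.univ) => s6 l
    rwa [Finset.sum_const, Finset.card_univ, Fintype.card_fin, nsmul_eq_mul] at this
  have h3 : (n : ℝ) = 2 * L.card + 1 := by rw [hn]; push_cast; ring
  rw [h3] at h2
  linarith

end Pool.Agent.H504R3
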