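import Mathlib
import Pool.Agent.H504R3.KP

/-!
Pauli systems from commuting copies of the `2 × 2` matrices, and flips.
-/

set_option autoImplicit false
set_option linter.unusedSectionVars false

namespace Pool.Agent.H504R3

open Pool.Agent.Helper278 Pool.Agent.Helper436.SM

/-- the `2 × 2` matrices -/
abbrev M2 : Type := Matrix (Fin 2) (Fin 2) ℂ

/-- the Pauli matrices `X^a Z^b` -/
def pm (a : ZMod 2 × ZMod 2) : M2 :=
  if a.1 = 0 then (if a.2 = 0 then !![1, 0; 0, 1] else !![1, 0; 0, -1])
  else (if a.2 = 0 then !![0, 1; 1, 0] else !![0, -1; 1, 0])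

theorem zmod2_cases (a : ZMod 2) : a = 0 ∨ a = 1 := by
  revert a; decide

theorem pm_zero : pm 0 = 1 := by
  unfold pm
  simp [Matrix.one_fin_two]

theorem one_ne' : (1 : ZMod 2) ≠ 0 := by decide

theorem one_add_one' : (1 : ZMod 2) + 1 = 0 := by decide

theorem pm_mul (a b : ZMod 2 × ZMod 2) : pm a * pm b = sg (a.2 * b.1) • pm (a + b) := by
  obtain ⟨a1, a2⟩ := a
  obtain ⟨b1, b2⟩ := b
  rcases zmod2_cases a1 with rfl | rfl <;> rcases zmod2_cases a2 with rfl | rfl <;>
    rcases zmod2_cases b1 with rfl | rfl <;> rcases zmod2_cases b2 with rfl | rfl <;>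
    simp [pm, sg, one_ne', one_add_one', Matrix.mul_fin_two, Matrix.smul_of]

theorem pm_star (a : ZMod 2 × ZMod 2) : star (pm a) = sg (a.2 * a.1) • pm a := by
  obtain ⟨a1, a2⟩ := a
  rcases zmod2_cases a1 with rfl | rfl <;> rcases zmod2_cases a2 with rfl | rfl <;>
    (ext i k; fin_cases i <;> fin_cases k <;> simp [pm, sg, one_ne', Matrix.star_apply])

/-- the Pauli matrices span -/
theorem pm_span (m : M2) : m = ((m 0 0 + m 1 1) / 2) • pm (0, 0) + ((m 0 0 - m 1 1) / 2) • pm (0, 1) +
    ((m 0 1 + m 1 0) / 2) • pm (1, 0) + ((m 1 0 - m 0 1) / 2) • pm (1, 1) := by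
  ext i k
  fin_cases i <;> fin_cases k <;> simp [pm, one_ne'] <;> ring

section

variable {A : Type} [Ring A] [StarRing A] [Algebra ℂ A] [StarModule ℂ A] {τ : A →ₗ[ℂ] ℂ}
  (j : ℕ → (M2 →⋆ₐ[ℂ] A))

/-- finite products -/
def Wn (n : ℕ) (v : VV) : A := ((List.range n).map (fun i => j i (pm (v i)))).prod

theorem Wn_zero (v : VV) : Wn j 0 v = 1 := by simp [Wn]

theorem Wn_succ (n : ℕ) (v : VV) : Wn j (n + 1) v = Wn j n v * j n (pm (v n)) := by
  simp [Wn, List.range_succ]

/-- the pairwise commutation -/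
def Cmm : Prop := ∀ k l, k ≠ l → ∀ a b, j k a * j l b = j l b * j k a

variable {j} (hc : Cmm j)

include hc in
theorem comm_Wn (m : ℕ) (v : VV) (l : ℕ) (x : M2) (hl : ∀ i < m, v i ≠ 0 → i ≠ l) :
    j l x * Wn j m v = Wn j m v * j l x := by
  induction m with
  | zero => rw [Wn_zero, one_mul, mul_one]
  | succ m ih =>
    have h1 := ih (fun i hi => hl i (by omega))
    rw [Wn_succ, ← mul_assoc, h1, mul_assoc, mul_assoc]
    congr 1
    by_cases hm : v m = 0
    · rw [hm, pm_zero, map_one, one_mul, mul_one]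
    · exact hc l m (Ne.symm (hl m (by omega) hm)) _ _

include hc in
theorem Wn_mul (n : ℕ) (v w : VV) :
    Wn j n v * Wn j n w = sg (∑ i ∈ Finset.range n, (v i).2 * (w i).1) • Wn j n (v + w) := by
  induction n with
  | zero => simp [Wn_zero, sg]
  | succ n ih =>
    rw [Wn_succ, Wn_succ, Wn_succ, Finset.sum_range_succ, sg_add]
    have h1 : j n (pm (v n)) * Wn j n w = Wn j n w * j n (pm (v n)) :=
      comm_Wn hc n w n _ (fun i hi _ => by omega)
    calc Wn j n v * j n (pm (v n)) * (Wn j n w * j n (pm (w n)))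
        = Wn j n v * (j n (pm (v n)) * Wn j n w) * j n (pm (w n)) := by noncomm_ring
      _ = (Wn j n v * Wn j n w) * (j n (pm (v n)) * j n (pm (w n))) := by rw [h1]; noncomm_ring
      _ = _ := by
        rw [ih, ← map_mul, pm_mul, map_smul, smul_mul_smul_comm]
        rfl

include hc in
theorem Wn_star (n : ℕ) (v : VV) :
    star (Wn j n v) = sg (∑ i ∈ Finset.range n, (v i).2 * (v i).1) • Wn j n v := by
  induction n with
  | zero => simp [Wn_zero, sg]
  | succ n ih =>
    rw [Wn_succ, Finset.sum_range_succ, sg_add, star_mul, ih, ← map_star, pm_star, map_smul,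
      smul_mul_smul_comm, comm_Wn hc n v n _ (fun i hi _ => by omega), mul_comm (sg _) (sg _)]

/-- an upper bound of the support -/
def bd (v : VV) : ℕ := v.support.sup id + 1

theorem bd_le {v : VV} {i : ℕ} (hi : bd v ≤ i) : v i = 0 := by
  by_contra hne
  have h3 : i ≤ v.support.sup id := Finset.le_sup (f := id) (Finsupp.mem_support_iff.2 hne)
  unfold bd at hi
  omega

theorem Wn_eq {v : VV} {n m : ℕ} (h : n ≤ m) (hv : ∀ i, n ≤ i → v i = 0) :
    Wn j m v = Wn j n v := by
  induction m, h using Nat.le_induction with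
  | base => rfl
  | succ m hm ih => rw [Wn_succ, hv m hm, pm_zero, map_one, mul_one, ih]

variable (j) in
/-- the Pauli strings -/
def Ws (v : VV) : A := Wn j (bd v) v

theorem Ws_eq {v : VV} {n : ℕ} (hv : ∀ i, n ≤ i → v i = 0) : Ws j v = Wn j n v := by
  unfold Ws
  rcases le_total n (bd v) with h | h
  · exact Wn_eq h hv
  · exact (Wn_eq h (fun i hi => bd_le hi)).symm

theorem bf_eq (v w : VV) {n : ℕ} (hv : ∀ i, n ≤ i → v i = 0) :
    bf v w = ∑ i ∈ Finset.range n, (v i).2 * (w i).1 := by
  unfold bf Finsupp.sum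
  refine Finset.sum_subset ?_ ?_
  · intro i hi
    rw [Finset.mem_range]
    by_contra hle
    exact (Finsupp.mem_support_iff.1 hi) (hv i (not_lt.1 hle))
  · intro i _ hi
    rw [Finsupp.notMem_support_iff.1 hi]
    simp

include hc in
theorem Ws_mul (v w : VV) : Ws j v * Ws j w = sg (bf v w) • Ws j (v + w) := by
  set n := max (bd v) (bd w) with hn
  have hv : ∀ i, n ≤ i → v i = 0 := fun i hi => bd_le (le_trans (le_max_left _ _) hi)
  have hw : ∀ i, n ≤ i → w i = 0 := fun i hi => bd_le (le_trans (le_max_right _ _) hi)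
  have hvw : ∀ i, n ≤ i → (v + w) i = 0 := fun i hi => by
    rw [Finsupp.add_apply, hv i hi, hw i hi, add_zero]
  rw [Ws_eq hv, Ws_eq hw, Ws_eq hvw, Wn_mul hc, bf_eq v w hv]

include hc in
theorem Ws_star (v : VV) : star (Ws j v) = sg (bf v v) • Ws j v := by
  rw [Ws, Wn_star hc, bf_eq v v (fun i hi => bd_le hi)]

theorem Ws_zero : Ws j 0 = 1 := by
  rw [Ws_eq (n := 0) (fun i _ => rfl), Wn_zero]

include hc in
theorem Ws_trace (h : TrAlg τ) (v : VV) : τ (Ws j v) = if v = 0 then 1 else 0 := by
  split_ifs with hv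
  · rw [hv, Ws_zero, h.one]
  · obtain ⟨i, hi⟩ : ∃ i, v i ≠ 0 := by
      by_contra hne
      push Not at hne
      exact hv (Finsupp.ext hne)
    obtain ⟨c, hc1⟩ : ∃ c : ZMod 2 × ZMod 2, c.2 * (v i).1 + (v i).2 * c.1 ≠ 0 := by
      revert hi
      generalize v i = p
      revert p
      decide
    set w : VV := Finsupp.single i c with hw
    have hs : sf w v ≠ 0 := by rw [hw, sf_single]; exact hc1
    have h1 : Ws j w * Ws j v = -(Ws j v * Ws j w) := by
      rw [Ws_mul hc, Ws_mul hc, add_comm v w]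
      have e : sg (bf w v) = - sg (bf v w) := by
        have h2 : bf w v + bf v w ≠ 0 := hs
        revert h2
        generalize bf w v = p
        generalize bf v w = q
        intro h2
        rcases zmod2_cases p with rfl | rfl <;> rcases zmod2_cases q with rfl | rfl <;>
          simp [sg, one_ne', one_add_one'] at h2 ⊢
      rw [e, neg_smul]
    have hww : Ws j w * star (Ws j w) = 1 := by
      rw [Ws_star hc, mul_smul_comm, Ws_mul hc, smul_smul, sg_mul_self, one_smul, vv_add_self,
        Ws_zero]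
    have hww' : star (Ws j w) * Ws j w = 1 := by
      rw [Ws_star hc, smul_mul_assoc, Ws_mul hc, smul_smul, sg_mul_self, one_smul, vv_add_self,
        Ws_zero]
    have h2 : τ (Ws j v) = - τ (Ws j v) := by
      calc τ (Ws j v) = τ (star (Ws j w) * (Ws j w * Ws j v)) := by
            rw [← mul_assoc, hww', one_mul]
        _ = - τ (star (Ws j w) * (Ws j v * Ws j w)) := by rw [h1, mul_neg, map_neg]
        _ = - τ (Ws j v) := by rw [h.comm, mul_assoc, hww, mul_one]
    have h3 : (2 : ℂ) * τ (Ws j v) = 0 := by linear_combination h2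
    exact (mul_eq_zero.1 h3).resolve_left two_ne_zero

include hc in
theorem pauliSys (h : TrAlg τ) : PauliSys τ (Ws j) where
  zero := Ws_zero
  mul := Ws_mul hc
  star := Ws_star hc
  trace := Ws_trace hc h

theorem Ws_single (i : ℕ) (c : ZMod 2 × ZMod 2) : Ws j (Finsupp.single i c) = j i (pm c) := by
  rw [Ws_eq (n := i + 1) (fun k hk => Finsupp.single_eq_of_ne (by omega)), Wn_succ,
    Finsupp.single_eq_same]
  have : Wn j i (Finsupp.single i c) = 1 := by
    have h1 : Wn j i (Finsupp.single i c) = Wn j 0 (Finsupp.single i c) := by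
      unfold Wn
      have : (List.range i).map (fun k => j k (pm ((Finsupp.single i c : VV) k))) =
          (List.range i).map (fun _ => (1 : A)) := by
        refine List.map_congr_left fun k hk => ?_
        rw [List.mem_range] at hk
        rw [Finsupp.single_eq_of_ne (by omega), pm_zero, map_one]
      rw [this]
      simp
    rw [h1, Wn_zero]
  rw [this, one_mul]

include hc in
/-- the generated algebra is the span of the strings -/
theorem adjoin_le (y : A) (hy : y ∈ Algebra.adjoin ℂ (⋃ k, Set.range (j k))) :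
    ∃ (F : Finset VV) (c : VV → ℂ), y = ∑ t ∈ F, c t • Ws j t := by
  have h1 : y ∈ Submodule.span ℂ (Set.range (Ws j)) := by
    refine Algebra.adjoin_induction ?_ ?_ ?_ ?_ hy
    · intro x hx
      obtain ⟨k, m, rfl⟩ := Set.mem_iUnion.1 hx
      rw [pm_span m, map_add, map_add, map_add, map_smul, map_smul, map_smul, map_smul,
        ← Ws_single, ← Ws_single, ← Ws_single, ← Ws_single]
      refine add_mem (add_mem (add_mem ?_ ?_) ?_) ?_ <;>
        exact Submodule.smul_mem _ _ (Submodule.subset_span ⟨_, rfl⟩)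
    · intro r
      rw [Algebra.algebraMap_eq_smul_one, ← Ws_zero (j := j)]
      exact Submodule.smul_mem _ _ (Submodule.subset_span ⟨_, rfl⟩)
    · intro x y _ _ hx hy
      exact add_mem hx hy
    · intro x y hx0 hy0 hx hy
      clear hx0 hy0
      induction hx using Submodule.span_induction with
      | mem x hx =>
        obtain ⟨v, rfl⟩ := hx
        induction hy using Submodule.span_induction with
        | mem y hy =>
          obtain ⟨w, rfl⟩ := hy
          rw [Ws_mul hc]
          exact Submodule.smul_mem _ _ (Submodule.subset_span ⟨_, rfl⟩)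
        | zero => rw [mul_zero]; exact zero_mem _
        | add a b _ _ ha hb => rw [mul_add]; exact add_mem ha hb
        | smul r a _ ha => rw [mul_smul_comm]; exact Submodule.smul_mem _ _ ha
      | zero => rw [zero_mul]; exact zero_mem _
      | add a b _ _ ha hb => rw [add_mul]; exact add_mem ha hb
      | smul r a _ ha => rw [smul_mul_assoc]; exact Submodule.smul_mem _ _ ha
  obtain ⟨c, hc'⟩ := (Finsupp.mem_span_range_iff_exists_finsupp).1 h1
  exact ⟨c.support, c, hc'.symm⟩

/-! ### flips -/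

end

section flipalg

variable {A : Type} [Ring A] [Algebra ℂ A]

theorem flip_alg {x z x' z' : A} (hx : x * x = 1) (hz : z * z = 1) (hxz : z * x = -(x * z))
    (hx' : x' * x' = 1) (hz' : z' * z' = 1) (hxz' : z' * x' = -(x' * z')) (c1 : x' * x = x * x')
    (c2 : x' * z = z * x') (c3 : z' * x = x * z') (c4 : z' * z = z * z') :
    (1 + x * x' + z * z' - x * z * x' * z') * (1 + x * x' + z * z' - x * z * x' * z') =
      (4 : ℂ) • (1 : A) ∧
    (1 + x * x' + z * z' - x * z * x' * z') * x = x' * (1 + x * x' + z * z' - x * z * x' * z') ∧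
    (1 + x * x' + z * z' - x * z * x' * z') * z = z' * (1 + x * x' + z * z' - x * z * x' * z') := by
  have a1 : ∀ t, x * (x * t) = t := fun t => by rw [← mul_assoc, hx, one_mul]
  have a2 : ∀ t, z * (z * t) = t := fun t => by rw [← mul_assoc, hz, one_mul]
  have a3 : ∀ t, z * (x * t) = -(x * (z * t)) := fun t => by
    rw [← mul_assoc, hxz, neg_mul, mul_assoc]
  have a4 : ∀ t, x' * (x' * t) = t := fun t => by rw [← mul_assoc, hx', one_mul]
  have a5 : ∀ t, z' * (z' * t) = t := fun t => by rw [← mul_assoc, hz', one_mul]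
  have a6 : ∀ t, z' * (x' * t) = -(x' * (z' * t)) := fun t => by
    rw [← mul_assoc, hxz', neg_mul, mul_assoc]
  have a7 : ∀ t, x' * (x * t) = x * (x' * t) := fun t => by rw [← mul_assoc, c1, mul_assoc]
  have a8 : ∀ t, x' * (z * t) = z * (x' * t) := fun t => by rw [← mul_assoc, c2, mul_assoc]
  have a9 : ∀ t, z' * (x * t) = x * (z' * t) := fun t => by rw [← mul_assoc, c3, mul_assoc]
  have a10 : ∀ t, z' * (z * t) = z * (z' * t) := fun t => by rw [← mul_assoc, c4, mul_assoc]
  refine ⟨?_, ?_, ?_⟩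
  · simp only [mul_add, add_mul, mul_sub, sub_mul, mul_assoc, one_mul, mul_one, a1, a2, a3, a4, a5,
      a6, a7, a8, a9, a10, hx, hz, hxz, hx', hz', hxz', c1, c2, c3, c4, mul_neg, neg_neg]
    module
  · simp only [mul_add, add_mul, mul_sub, sub_mul, mul_assoc, one_mul, mul_one, a1, a2, a3, a4, a5,
      a6, a7, a8, a9, a10, hx, hz, hxz, hx', hz', hxz', c1, c2, c3, c4, mul_neg, neg_neg]
    abel
  · simp only [mul_add, add_mul, mul_sub, sub_mul, mul_assoc, one_mul, mul_one, a1, a2, a3, a4, a5,
      a6, a7, a8, a9, a10, hx, hz, hxz, hx', hz', hxz', c1, c2, c3, c4, mul_neg, neg_neg]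
    abel

theorem flip_star_alg {x z x' z' : A} (hxz : z * x = -(x * z))
    (hxz' : z' * x' = -(x' * z')) (c1 : x' * x = x * x')
    (c2 : x' * z = z * x') (c3 : z' * x = x * z') (c4 : z' * z = z * z') :
    z' * (x' * (z * x)) = x * z * x' * z' := by
  have a3 : ∀ t, z * (x * t) = -(x * (z * t)) := fun t => by
    rw [← mul_assoc, hxz, neg_mul, mul_assoc]
  have a6 : ∀ t, z' * (x' * t) = -(x' * (z' * t)) := fun t => by
    rw [← mul_assoc, hxz', neg_mul, mul_assoc]
  have a7 : ∀ t, x' * (x * t) = x * (x' * t) := fun t => by rw [← mul_assoc, c1, mul_assoc]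
  have a8 : ∀ t, x' * (z * t) = z * (x' * t) := fun t => by rw [← mul_assoc, c2, mul_assoc]
  have a9 : ∀ t, z' * (x * t) = x * (z' * t) := fun t => by rw [← mul_assoc, c3, mul_assoc]
  have a10 : ∀ t, z' * (z * t) = z * (z' * t) := fun t => by rw [← mul_assoc, c4, mul_assoc]
  simp only [mul_assoc, a3, a6, a7, a8, a9, a10, hxz, hxz', c1, c2, c3, c4, mul_neg, neg_neg]

end flipalg

section

variable {A : Type} [Ring A] [StarRing A] [Algebra ℂ A] [StarModule ℂ A] {τ : A →ₗ[ℂ] ℂ}
  (j : ℕ → (M2 →⋆ₐ[ℂ] A))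

/-- the flip of the factors `i` and `m` -/
noncomputable def flip2 (i m : ℕ) : A :=
  (2⁻¹ : ℂ) • (1 + j i (pm (1, 0)) * j m (pm (1, 0)) + j i (pm (0, 1)) * j m (pm (0, 1)) -
    j i (pm (1, 0)) * j i (pm (0, 1)) * j m (pm (1, 0)) * j m (pm (0, 1)))

variable {j} (hc : Cmm j)

theorem px : pm (1, 0) * pm (1, 0) = 1 := by
  rw [pm_mul]
  simp only [zero_mul, sg, if_true, one_smul, Prod.mk_add_mk, one_add_one', add_zero]
  exact pm_zero

theorem pz : pm (0, 1) * pm (0, 1) = 1 := by
  rw [pm_mul]
  simp only [mul_zero, sg, if_true, one_smul, Prod.mk_add_mk, one_add_one', add_zero]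
  exact pm_zero

theorem pzx : pm (0, 1) * pm (1, 0) = -(pm (1, 0) * pm (0, 1)) := by
  rw [pm_mul, pm_mul]
  simp [sg, one_ne']

theorem sx : star (pm (1, 0)) = pm (1, 0) := by
  rw [pm_star]; simp [sg]

theorem sz : star (pm (0, 1)) = pm (0, 1) := by
  rw [pm_star]; simp [sg]

include hc in
theorem flip2_props {i m : ℕ} (him : i ≠ m) :
    flip2 j i m * flip2 j i m = 1 ∧ star (flip2 j i m) = flip2 j i m ∧
    ∀ x, flip2 j i m * j i x = j m x * flip2 j i m := by
  obtain ⟨h1, h2, h3⟩ := flip_alg (x := j i (pm (1, 0))) (z := j i (pm (0, 1)))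
    (x' := j m (pm (1, 0))) (z' := j m (pm (0, 1)))
    (by rw [← map_mul, px, map_one]) (by rw [← map_mul, pz, map_one])
    (by rw [← map_mul, pzx, map_neg, map_mul])
    (by rw [← map_mul, px, map_one]) (by rw [← map_mul, pz, map_one])
    (by rw [← map_mul, pzx, map_neg, map_mul])
    (hc m i him.symm _ _) (hc m i him.symm _ _) (hc m i him.symm _ _) (hc m i him.symm _ _)
  have e10 : flip2 j i m * j i (pm (1, 0)) = j m (pm (1, 0)) * flip2 j i m := by
    unfold flip2
    rw [smul_mul_assoc, h2, mul_smul_comm]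
  have e01 : flip2 j i m * j i (pm (0, 1)) = j m (pm (0, 1)) * flip2 j i m := by
    unfold flip2
    rw [smul_mul_assoc, h3, mul_smul_comm]
  have e11' : pm (1, 1) = pm (1, 0) * pm (0, 1) := by
    rw [pm_mul]; simp [sg]
  refine ⟨?_, ?_, ?_⟩
  · unfold flip2
    rw [smul_mul_smul_comm, h1, smul_smul]
    norm_num
  · unfold flip2
    have c1 := hc i m him
    rw [star_smul, star_sub, star_add, star_add, star_one, star_mul, star_mul, star_mul, star_mul,
      star_mul, ← map_star, ← map_star, ← map_star, ← map_star, sx, sz]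
    have e := flip_star_alg (x := j i (pm (1, 0))) (z := j i (pm (0, 1)))
      (x' := j m (pm (1, 0))) (z' := j m (pm (0, 1)))
      (by rw [← map_mul, pzx, map_neg, map_mul]) (by rw [← map_mul, pzx, map_neg, map_mul])
      (hc m i him.symm _ _) (hc m i him.symm _ _) (hc m i him.symm _ _) (hc m i him.symm _ _)
    rw [e, c1, c1 (pm (0, 1)) (pm (0, 1))]
    congr 1
    simp
  · intro x
    rw [pm_span x]
    simp only [map_add, map_smul, mul_add, add_mul, mul_smul_comm, smul_mul_assoc, e10, e01]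
    have e00 : flip2 j i m * j i (pm (0, 0)) = j m (pm (0, 0)) * flip2 j i m := by
      rw [show pm (0, 0) = 1 from pm_zero, map_one, map_one, mul_one, one_mul]
    rw [e00, e11', map_mul, map_mul, ← mul_assoc, e10, mul_assoc, e01, ← mul_assoc]

end

end Pool.Agent.H504R3
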