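import Mathlib
import Pool.Agent.H504R3.Gap
import Pool.Agent.H504R3.KP
import Pool.Agent.H504R3.PauliM
import Pool.Agent.H504R3.Defs
import Pool.Agent.Helper467.FP.P_n2_mul_le
import Pool.Agent.Helper467.FP.P_tw_elt

/-!
The tensor product of a non-Gamma factor and the hyperfinite factor.
-/

set_option autoImplicit false
set_option linter.unusedSectionVars false

open scoped InnerProductSpace

namespace Pool.Agent.H504R3

open Pool.Agent.Helper278 Pool.Agent.Helper436.SM Pool.Agent.H518R4.UG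

theorem TVN.tw (M : TVN) : Pool.Agent.H467F.TW M.τ :=
  Pool.Agent.H467F.tw_elt M.N M.τ M.normal ⟨M.map_one, M.tracial, M.faithful⟩

theorem TVN.trAlg (M : TVN) : TrAlg M.τ :=
  ⟨M.map_one, M.tracial, M.tw.nonneg, M.tw.conj, M.faithful⟩

theorem TVN.norm2_eq (M : TVN) (x : M.E) : M.norm2 x = n2 M.τ x := rfl

theorem TVN.opNorm_eq (M : TVN) (x : M.E) : M.opNorm x = ‖x‖ := rfl

theorem TVN.n2_mul_le (M : TVN) (a b : M.E) :
    n2 M.τ (a * b) ≤ M.opNorm a * n2 M.τ b ∧ n2 M.τ (b * a) ≤ n2 M.τ b * M.opNorm a :=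
  Pool.Agent.H467F.n2_mul_le M.tw a b

theorem TVN.ctr (M : TVN) {x : M.E} (hx : M.opNorm x ≤ 1) : Ctr M.τ x := by
  constructor
  · intro y
    have h1 := (M.n2_mul_le x y).1
    have h2 := n2_nonneg M.τ y
    nlinarith
  · intro y
    have h1 := (M.n2_mul_le x y).2
    have h2 := n2_nonneg M.τ y
    nlinarith

theorem TVN.fct (M : TVN) (h : M.IsIIOneFactor) : Fct M.τ :=
  Pool.Agent.H504R3.fct M.H M.N M.τ
    { center := by
        intro z hz hc
        obtain ⟨c, hc'⟩ := h.center ⟨z, hz⟩ (fun x => Subtype.ext (hc x.1 x.2))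
        exact ⟨c, congrArg Subtype.val hc'⟩
      infinite := h.infinite
      trace := ⟨M.map_one, M.tracial, M.faithful⟩
      normal := M.normal }

theorem TVN.norm_hom_le {M N : TVN} (α : N.E →⋆ₐ[ℂ] M.E) (x : N.E) : M.opNorm (α x) ≤ N.opNorm x :=
  NonUnitalStarAlgHom.norm_apply_le (F := N.E →⋆ₐ[ℂ] M.E) (A := Pool.Agent.H467F.Elt N.N)
    (B := Pool.Agent.H467F.Elt M.N) α x

/-- orthonormal unitaries -/
theorem exists_on {A : Type} [CStarAlgebra A] {τ : A →ₗ[ℂ] ℂ} (h : Fct τ) (n : ℕ) :
    ∃ v : Fin n → A, (∀ l, star (v l) * v l = 1) ∧ (∀ l, v l * star (v l) = 1) ∧ ON τ v := by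
  obtain ⟨w, g, hw⟩ := h.mu n
  have hwg : ∀ i, w i * g = w i := by
    intro i
    have h1 : (∑ k, w k * star (w k)) * w i = w i := by rw [hw.sum, one_mul]
    rw [Finset.sum_mul, Finset.sum_eq_single i] at h1
    · rw [mul_assoc, hw.ini] at h1
      exact h1
    · intro k _ hk
      rw [mul_assoc, hw.ort k i hk, mul_zero]
    · intro hi
      exact absurd (Finset.mem_univ i) hi
  set U : Fin (2 ^ n) → A := fun a => ∑ i, w (i + a) * star (w i) with hU
  have hsU : ∀ a, star (U a) = ∑ i, w i * star (w (i + a)) := by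
    intro a
    rw [hU]
    simp only [star_sum, star_mul, star_star]
  have e1 : ∀ a b, star (U a) * U b = ∑ i, w i * star (w (i + a - b)) := by
    intro a b
    rw [hsU, Finset.sum_mul]
    refine Finset.sum_congr rfl fun i _ => ?_
    rw [hU]
    simp only
    rw [Finset.mul_sum, Finset.sum_eq_single (i + a - b)]
    · rw [sub_add_cancel]
      calc w i * star (w (i + a)) * (w (i + a) * star (w (i + a - b)))
          = w i * (star (w (i + a)) * w (i + a)) * star (w (i + a - b)) := by
            simp only [mul_assoc]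
        _ = w i * star (w (i + a - b)) := by rw [hw.ini, hwg]
    · intro k _ hk
      have hne : i + a ≠ k + b := fun hh => hk (by rw [hh, add_sub_cancel_right])
      calc w i * star (w (i + a)) * (w (k + b) * star (w k))
          = w i * (star (w (i + a)) * w (k + b)) * star (w k) := by simp only [mul_assoc]
        _ = 0 := by rw [hw.ort _ _ hne, mul_zero, zero_mul]
    · intro hi
      exact absurd (Finset.mem_univ _) hi
  have e2 : ∀ a, star (U a) * U a = 1 := by
    intro a
    rw [e1]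
    simp only [add_sub_cancel_right]
    exact hw.sum
  have e3 : ∀ a, U a * star (U a) = 1 := by
    intro a
    have e4 : ∀ i, w (i + a) * star (w i) * (∑ k, w k * star (w (k + a))) =
        w (i + a) * star (w (i + a)) := by
      intro i
      rw [Finset.mul_sum, Finset.sum_eq_single i]
      · calc w (i + a) * star (w i) * (w i * star (w (i + a)))
            = w (i + a) * (star (w i) * w i) * star (w (i + a)) := by simp only [mul_assoc]
          _ = _ := by rw [hw.ini, hwg]
      · intro k _ hk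
        calc w (i + a) * star (w i) * (w k * star (w (k + a)))
            = w (i + a) * (star (w i) * w k) * star (w (k + a)) := by simp only [mul_assoc]
          _ = 0 := by rw [hw.ort _ _ (Ne.symm hk), mul_zero, zero_mul]
      · intro hi
        exact absurd (Finset.mem_univ _) hi
    rw [hsU, hU]
    simp only
    rw [Finset.sum_mul, Finset.sum_congr rfl fun i _ => e4 i]
    rw [← hw.sum]
    exact Fintype.sum_equiv (Equiv.addRight a) _ _ (fun i => rfl)
  have e5 : ON τ U := by
    intro a b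
    rw [e1]
    split_ifs with hab
    · subst hab
      simp only [add_sub_cancel_right]
      rw [hw.sum, h.tw.one]
    · rw [map_sum]
      refine Finset.sum_eq_zero fun i _ => ?_
      rw [h.tw.comm, hw.ort, map_zero]
      intro hh
      apply hab
      have : i + a - b = i + (a - b) := by rw [add_sub_assoc]
      rw [this] at hh
      have h3 : a - b = 0 := by
        have : i + (a - b) = i + 0 := by rw [hh, add_zero]
        exact add_left_cancel this
      exact sub_eq_zero.1 h3
  have hle : n ≤ 2 ^ n := Nat.lt_two_pow_self.le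
  refine ⟨fun l => U (Fin.castLE hle l), fun l => e2 _, fun l => e3 _, ?_⟩
  intro i k
  rw [e5]
  have : (Fin.castLE hle i = Fin.castLE hle k) = (i = k) := by
    rw [Fin.castLE_inj]
  simp only [this]

theorem exists_gap (N : TVN) (h : N.IsIIOneFactor) (hg : ¬ N.HasGamma) :
    ∃ (r : ℕ) (c : ℝ) (a : Fin r → N.E), 0 < c ∧ (∀ i, N.opNorm (a i) ≤ 1) ∧
      ∀ y : N.E, N.τ y = 0 → c * n2 N.τ y ^ 2 ≤ ∑ i, n2 N.τ (cmt (a i) y) ^ 2 := by
  by_contra hcon
  apply hg
  have hNG : ∀ (k : ℕ) (c : ℝ), 0 < c → NG N.τ k c := by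
    intro k c hc
    by_contra hng
    apply hcon
    unfold NG at hng
    push Not at hng
    obtain ⟨x, hx, hx2⟩ := hng
    exact ⟨k, c, x, hc, hx, hx2⟩
  intro F ε hε
  obtain ⟨u, hu, hu2⟩ := ngam (Pool.Agent.H467F.Elt N.N) N.τ (N.fct h) hNG F.card
    (fun i => (F.equivFin.symm i : N.E)) ε hε
  refine ⟨u.1, u.2, hu, fun x hx => ?_⟩
  have := hu2 (F.equivFin ⟨x, hx⟩)
  rw [Equiv.symm_apply_apply] at this
  rw [N.norm2_eq, N.trAlg.n2_sub_comm]
  exact this

section tensor

variable {M N R : TVN} (α : N.E →⋆ₐ[ℂ] M.E) (β : R.E →⋆ₐ[ℂ] M.E)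
  (hcom : ∀ x y, α x * β y = β y * α x) (htr : ∀ x y, M.τ (α x * β y) = N.τ x * R.τ y)

theorem Ws_map {A B : Type} [Ring A] [StarRing A] [Algebra ℂ A] [StarModule ℂ A] [Ring B]
    [StarRing B] [Algebra ℂ B] [StarModule ℂ B] (f : A →⋆ₐ[ℂ] B) (j : ℕ → (M2 →⋆ₐ[ℂ] A)) (t : VV) :
    Ws (fun k => f.comp (j k)) t = f (Ws j t) := by
  unfold Ws Wn
  rw [map_list_prod, List.map_map]
  rfl

include hcom htr in
theorem n2_prod (x : N.E) (y : R.E) : n2 M.τ (α x * β y) = n2 N.τ x * n2 R.τ y := by
  have e : star (α x * β y) * (α x * β y) = α (star x * x) * β (star y * y) := by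
    rw [star_mul, ← map_star, ← map_star, map_mul, map_mul]
    calc β (star y) * α (star x) * (α x * β y) = (β (star y) * (α (star x) * α x)) * β y := by
          simp only [mul_assoc]
      _ = ((α (star x) * α x) * β (star y)) * β y := by
          rw [← map_mul, ← hcom]
      _ = _ := by simp only [mul_assoc]
  have h1 := N.trAlg.re_nonneg x
  unfold n2
  rw [e, htr, Complex.mul_re, N.trAlg.im_zero x, zero_mul, sub_zero, Real.sqrt_mul h1]

variable (j : ℕ → (M2 →⋆ₐ[ℂ] R.E)) (hc : Cmm j)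

include hcom htr hc in
theorem n2_expand (F : Finset VV) (x : VV → N.E) :
    n2 M.τ (∑ t ∈ F, α (x t) * β (Ws j t)) ^ 2 = ∑ t ∈ F, n2 N.τ (x t) ^ 2 := by
  have hon := PauliSys.on (pauliSys hc R.trAlg)
  rw [M.trAlg.n2_sq, star_sum, Finset.sum_mul, map_sum, Complex.re_sum]
  refine Finset.sum_congr rfl fun s hs => ?_
  have e : ∀ t, M.τ (star (α (x s) * β (Ws j s)) * (α (x t) * β (Ws j t))) =
      N.τ (star (x s) * x t) * (if s = t then 1 else 0) := by
    intro t
    rw [← hon s t, ← htr]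
    congr 1
    rw [star_mul, ← map_star, ← map_star, map_mul, map_mul]
    calc β (star (Ws j s)) * α (star (x s)) * (α (x t) * β (Ws j t))
        = (β (star (Ws j s)) * (α (star (x s)) * α (x t))) * β (Ws j t) := by
          simp only [mul_assoc]
      _ = ((α (star (x s)) * α (x t)) * β (star (Ws j s))) * β (Ws j t) := by
          rw [← map_mul, ← hcom]
      _ = _ := by simp only [mul_assoc]
  rw [Finset.mul_sum, map_sum, Complex.re_sum, Finset.sum_eq_single s]
  · rw [e, if_pos rfl, mul_one, N.trAlg.n2_sq]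
  · intro t _ hts
    rw [e, if_neg (Ne.symm hts), mul_zero]
    rfl
  · intro hs'
    exact absurd hs hs'

include hcom htr hc in
/-- density of the finite expansions -/
theorem dense_expand (hd : ∀ (x : R.E) (ε : ℝ), 0 < ε →
      ∃ y ∈ Algebra.adjoin ℂ (⋃ k, Set.range (j k)), R.norm2 (x - y) < ε)
    (hdT : ∀ (z : M.E) (ε : ℝ), 0 < ε →
      ∃ w ∈ Submodule.span ℂ {w : M.E | ∃ x y, w = α x * β y}, M.norm2 (z - w) < ε)
    (z : M.E) (ε : ℝ) (hε : 0 < ε) :
    ∃ q : VV →₀ N.E, n2 M.τ (z - q.sum (fun t x => α x * β (Ws j t))) < ε := by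
  have hT := M.trAlg
  have key : ∀ w ∈ Submodule.span ℂ {w : M.E | ∃ x y, w = α x * β y}, ∀ ε : ℝ, 0 < ε →
      ∃ q : VV →₀ N.E, n2 M.τ (w - q.sum (fun t x => α x * β (Ws j t))) < ε := by
    intro w hw
    induction hw using Submodule.span_induction with
    | mem w hw =>
      obtain ⟨x, y, rfl⟩ := hw
      intro ε hε
      obtain ⟨y', hy', hyy⟩ := hd y (ε / (n2 N.τ x + 1))
        (div_pos hε (by have := n2_nonneg N.τ x; linarith))
      obtain ⟨F, c, rfl⟩ := adjoin_le hc y' hy'
      refine ⟨∑ t ∈ F, Finsupp.single t (c t • x), ?_⟩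
      have e : (∑ t ∈ F, Finsupp.single t (c t • x)).sum (fun t x => α x * β (Ws j t)) =
          α x * β (∑ t ∈ F, c t • Ws j t) := by
        rw [← Finsupp.sum_finsetSum_index (fun t => by rw [map_zero, zero_mul])
          (fun t a b => by rw [map_add, add_mul]), map_sum, Finset.mul_sum]
        refine Finset.sum_congr rfl fun t _ => ?_
        rw [Finsupp.sum_single_index (by rw [map_zero, zero_mul]), map_smul, map_smul,
          smul_mul_assoc, mul_smul_comm]
      rw [e, ← mul_sub, ← map_sub, n2_prod α β hcom htr]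
      rw [R.norm2_eq] at hyy
      have h0 := n2_nonneg N.τ x
      rw [lt_div_iff₀ (by linarith)] at hyy
      have h1 := n2_nonneg R.τ (y - ∑ t ∈ F, c t • Ws j t)
      nlinarith
    | zero =>
      intro ε hε
      refine ⟨0, ?_⟩
      rw [Finsupp.sum_zero_index, sub_zero, hT.n2_zero]
      exact hε
    | add a b _ _ ha hb =>
      intro ε hε
      obtain ⟨q, hq⟩ := ha (ε / 2) (by linarith)
      obtain ⟨q', hq'⟩ := hb (ε / 2) (by linarith)
      refine ⟨q + q', ?_⟩
      rw [Finsupp.sum_add_index' (fun t => by rw [map_zero, zero_mul])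
        (fun t a b => by rw [map_add, add_mul])]
      have e : a + b - (q.sum (fun t x => α x * β (Ws j t)) +
          q'.sum (fun t x => α x * β (Ws j t))) =
          (a - q.sum (fun t x => α x * β (Ws j t))) +
          (b - q'.sum (fun t x => α x * β (Ws j t))) := by abel
      rw [e]
      have := hT.n2_add_le (a - q.sum (fun t x => α x * β (Ws j t)))
        (b - q'.sum (fun t x => α x * β (Ws j t)))
      linarith
    | smul c a _ ha =>
      intro ε hε
      obtain ⟨q, hq⟩ := ha (ε / (‖c‖ + 1)) (div_pos hε (by positivity))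
      refine ⟨c • q, ?_⟩
      rw [Finsupp.sum_smul_index' (fun t => by rw [map_zero, zero_mul])]
      have e : c • a - q.sum (fun t x => α (c • x) * β (Ws j t)) =
          c • (a - q.sum (fun t x => α x * β (Ws j t))) := by
        rw [smul_sub, Finsupp.smul_sum]
        congr 1
        refine Finsupp.sum_congr fun t _ => ?_
        rw [map_smul, smul_mul_assoc]
      rw [e, n2_smul hT]
      rw [lt_div_iff₀ (by positivity)] at hq
      have h1 := n2_nonneg M.τ (a - q.sum (fun t x => α x * β (Ws j t)))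
      nlinarith
  obtain ⟨w, hw, hzw⟩ := hdT z (ε / 2) (by linarith)
  obtain ⟨q, hq⟩ := key w hw (ε / 2) (by linarith)
  refine ⟨q, ?_⟩
  rw [M.norm2_eq] at hzw
  have := hT.n2_tri z w (q.sum (fun t x => α x * β (Ws j t)))
  linarith

end tensor

/-- A strongly McDuff factor is in the situation of the key proposition. -/
theorem sit_of {M N R : TVN} (hN : N.IsIIOneFactor) (hg : ¬ N.HasGamma) (hR : R.IsHyperfinite)
    (hT : M.IsTensor N R) : ∃ (r : ℕ) (K : ℝ) (a : Fin r → M.E) (W : VV → M.E),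
      (∀ i, M.opNorm (a i) ≤ 1) ∧ Sit M.τ r K a W := by
  obtain ⟨r, c, a, hc0, ha, hgap⟩ := exists_gap N hN hg
  obtain ⟨j, hc, hd⟩ := hR
  obtain ⟨α, β, hcom, htr, hdT⟩ := hT
  have hβ : Cmm (fun k => β.comp (j k)) := by
    intro k l hkl x y
    show β (j k x) * β (j l y) = β (j l y) * β (j k x)
    rw [← map_mul, ← map_mul, hc k l hkl]
  have hW : ∀ t, Ws (fun k => β.comp (j k)) t = β (Ws j t) := fun t => Ws_map β j t
  have h := M.trAlg
  refine ⟨r, 1 / Real.sqrt c, fun i => α (a i), fun t => Ws (fun k => β.comp (j k)) t,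
    fun i => (TVN.norm_hom_le α (a i)).trans (ha i), ?_⟩
  have hsc : 0 < Real.sqrt c := Real.sqrt_pos.2 hc0
  set K := 1 / Real.sqrt c with hK
  have hK0 : 0 < K := by rw [hK]; positivity
  refine
  { tr := h
    pauli := pauliSys hβ h
    ctr := fun i => M.ctr ((TVN.norm_hom_le α (a i)).trans (ha i))
    vex := ?_
    aW := fun i w => by rw [hW]; exact hcom _ _
    K0 := hK0.le
    gap := ?_ }
  · intro n
    obtain ⟨v, hv1, hv2, hv3⟩ := exists_on (N.fct hN) n
    refine ⟨fun l => α (v l), fun l => ?_, fun l => ?_, fun i k => ?_, fun l w => ?_⟩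
    · rw [← map_star, ← map_mul]
      exact (congrArg α (hv1 l)).trans (map_one α)
    · rw [← map_star, ← map_mul]
      exact (congrArg α (hv2 l)).trans (map_one α)
    · have e : star (α (v i)) * α (v k) = α (star (v i) * v k) * β 1 := by
        rw [map_one, mul_one, map_mul, map_star]
      rw [e, htr, R.map_one, mul_one]
      exact hv3 i k
    · rw [hW]; exact hcom _ _
  · intro z η hη
    set δ : ℝ := η / (1 + 2 * K * r) with hδ
    have hr0 : (0 : ℝ) ≤ r := Nat.cast_nonneg r
    have hpos : 0 < 1 + 2 * K * r := by positivity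
    have hδ0 : 0 < δ := div_pos hη hpos
    obtain ⟨q, hq⟩ := dense_expand α β hcom htr j hc hd hdT z δ hδ0
    set w := q.sum (fun t x => α x * β (Ws j t)) with hw
    have hw' : w = ∑ t ∈ q.support, α (q t) * β (Ws j t) := rfl
    refine ⟨q.support, fun t => N.τ (q t), ?_⟩
    have e1 : w - ∑ t ∈ q.support, N.τ (q t) • Ws (fun k => β.comp (j k)) t =
        ∑ t ∈ q.support, α (q t - N.τ (q t) • 1) * β (Ws j t) := by
      rw [hw', ← Finset.sum_sub_distrib]
      refine Finset.sum_congr rfl fun t _ => ?_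
      rw [hW, map_sub, map_smul, map_one, sub_mul, smul_mul_assoc, one_mul]
    have e2 : ∀ i, cmt (α (a i)) w = ∑ t ∈ q.support, α (cmt (a i) (q t)) * β (Ws j t) := by
      intro i
      unfold cmt
      rw [hw', Finset.mul_sum, Finset.sum_mul, ← Finset.sum_sub_distrib]
      refine Finset.sum_congr rfl fun t _ => ?_
      rw [map_sub, map_mul, map_mul, sub_mul, mul_assoc, mul_assoc, mul_assoc, hcom (a i)]
    have e3 : c * n2 M.τ (w - ∑ t ∈ q.support, N.τ (q t) • Ws (fun k => β.comp (j k)) t) ^ 2 ≤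
        ∑ i, n2 M.τ (cmt (α (a i)) w) ^ 2 := by
      rw [e1, n2_expand α β hcom htr j hc, Finset.mul_sum]
      simp only [e2]
      have e4 : ∀ i, n2 M.τ (∑ t ∈ q.support, α (cmt (a i) (q t)) * β (Ws j t)) ^ 2 =
          ∑ t ∈ q.support, n2 N.τ (cmt (a i) (q t)) ^ 2 := fun i =>
        n2_expand α β hcom htr j hc _ _
      simp only [e4]
      rw [Finset.sum_comm]
      refine Finset.sum_le_sum fun t _ => ?_
      have h0 : N.τ (q t - N.τ (q t) • 1) = 0 := by
        rw [map_sub, map_smul, N.map_one, smul_eq_mul, mul_one, sub_self]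
      refine (hgap _ h0).trans (le_of_eq ?_)
      refine Finset.sum_congr rfl fun i _ => ?_
      congr 2
      unfold cmt
      rw [mul_sub, sub_mul, mul_smul_comm, smul_mul_assoc, mul_one, one_mul]
      abel
    set S := ∑ t ∈ q.support, N.τ (q t) • Ws (fun k => β.comp (j k)) t with hS
    have e5 : ∑ i, n2 M.τ (cmt (α (a i)) w) ^ 2 ≤ (∑ i, n2 M.τ (cmt (α (a i)) w)) ^ 2 :=
      Finset.sum_sq_le_sq_sum_of_nonneg fun i _ => n2_nonneg _ _
    have e6 : n2 M.τ (w - S) ≤ K * ∑ i, n2 M.τ (cmt (α (a i)) w) := by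
      have h1 : 0 ≤ ∑ i, n2 M.τ (cmt (α (a i)) w) := Finset.sum_nonneg fun i _ => n2_nonneg _ _
      have h2 : (Real.sqrt c * n2 M.τ (w - S)) ^ 2 ≤ (∑ i, n2 M.τ (cmt (α (a i)) w)) ^ 2 := by
        rw [mul_pow, Real.sq_sqrt hc0.le]
        exact e3.trans e5
      have h3 := (pow_le_pow_iff_left₀ (mul_nonneg hsc.le (n2_nonneg _ _)) h1 two_ne_zero).1 h2
      rw [hK, div_mul_eq_mul_div, one_mul, le_div_iff₀ hsc, mul_comm]
      exact h3
    have e7 : ∀ i, n2 M.τ (cmt (α (a i)) w) ≤ n2 M.τ (cmt (α (a i)) z) + 2 * δ := by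
      intro i
      have e : cmt (α (a i)) w = cmt (α (a i)) z - (α (a i) * (z - w) - (z - w) * α (a i)) := by
        unfold cmt; noncomm_ring
      rw [e]
      have h1 := h.n2_sub_le (cmt (α (a i)) z) (α (a i) * (z - w) - (z - w) * α (a i))
      have h2 := (M.ctr ((TVN.norm_hom_le α (a i)).trans (ha i))).comm_le h (z - w)
      linarith
    have e8 : ∑ i, n2 M.τ (cmt (α (a i)) w) ≤ ∑ i, n2 M.τ (cmt (α (a i)) z) + r * (2 * δ) := by
      refine (Finset.sum_le_sum fun i _ => e7 i).trans ?_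
      rw [Finset.sum_add_distrib, Finset.sum_const, Finset.card_univ, Fintype.card_fin,
        nsmul_eq_mul]
    have e9 := h.n2_tri z w S
    have e10 : K * ∑ i, n2 M.τ (cmt (α (a i)) w) ≤
        K * (∑ i, n2 M.τ (cmt (α (a i)) z) + r * (2 * δ)) := mul_le_mul_of_nonneg_left e8 hK0.le
    have e11 : δ * (1 + 2 * K * r) = η := by rw [hδ]; field_simp
    linarith

end Pool.Agent.H504R3
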