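import Mathlib
import Pool.Agent.H504R3.SDefs
import Pool.Agent.H504R3.Tens

/-!
From the structures of continuous logic to the bundled tracial von Neumann algebras.
-/

set_option autoImplicit false
set_option linter.unusedSectionVars false

open scoped InnerProductSpace

namespace Pool.Agent.H504R3.S

open Pool.Agent.H504R3 (TVN cmt M2)

/-- the structure of a tracial von Neumann algebra -/
noncomputable def str (T : TVN) : Str where
  carrier := T.E
  one := 1
  add x y := x + y
  mul x y := x * y
  adj x := star x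
  scal c x := c • x
  nrm x := T.opNorm x
  tr x := T.τ x

section

variable {H : Type} [NormedAddCommGroup H] [InnerProductSpace ℂ H] [CompleteSpace H]

theorem summable_inner (ξ : ℕ → H) (hs : Summable (fun k => ‖ξ k‖ ^ 2)) (x : H →L[ℂ] H) :
    Summable (fun k => ⟪ξ k, x (ξ k)⟫_ℂ) := by
  refine Summable.of_norm_bounded (hs.mul_left ‖x‖) fun k => ?_
  refine (norm_inner_le_norm _ _).trans ?_
  have h1 := x.le_opNorm (ξ k)
  have h2 := norm_nonneg (ξ k)
  nlinarith

/-- the functional -/
noncomputable def tauOf (N : VonNeumannAlgebra H) (ξ : ℕ → H)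
    (hs : Summable (fun k => ‖ξ k‖ ^ 2)) : N.toStarSubalgebra →ₗ[ℂ] ℂ where
  toFun x := ∑' k, ⟪ξ k, (x : H →L[ℂ] H) (ξ k)⟫_ℂ
  map_add' x y := by
    rw [← (summable_inner ξ hs x).tsum_add (summable_inner ξ hs y)]
    refine tsum_congr fun k => ?_
    rw [← inner_add_right]
    rfl
  map_smul' c x := by
    rw [RingHom.id_apply, smul_eq_mul, ← tsum_mul_left]
    refine tsum_congr fun k => ?_
    rw [← inner_smul_right]
    rfl

end

theorem exists_tvn (M : Str) (h : M.IsTVN) : ∃ T : TVN, M = str T := by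
  obtain ⟨H, i1, i2, i3, N, ξ, hs, rfl, h1, h2, h3⟩ := h
  refine ⟨{ H := H, N := N, τ := tauOf N ξ hs, map_one := h1, tracial := h2, faithful := ?_,
            normal := ⟨ξ, hs, fun x => rfl⟩ }, rfl⟩
  intro x hx
  have := h3 x hx
  rw [this]
  exact Subtype.ext (zero_smul ℂ (1 : H →L[ℂ] H))

theorem isTVN (T : TVN) : (str T).IsTVN := by
  obtain ⟨ξ, hs, hξ⟩ := T.normal
  refine ⟨T.H, T.i1, T.i2, T.i3, T.N, ξ, hs, ?_, T.map_one, T.tracial, fun x hx => ?_⟩
  · have : (fun x : T.E => T.τ x) = fun x : T.E => ∑' k, ⟪ξ k, (x : T.H →L[ℂ] T.H) (ξ k)⟫_ℂ :=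
      funext hξ
    show (⟨T.E, 1, fun x y => x + y, fun x y => x * y, fun x => star x, fun c x => c • x,
      fun x => T.opNorm x, fun x => T.τ x⟩ : Str) = _
    rw [this]
    rfl
  · rw [T.faithful x hx]
    exact (zero_smul ℂ (1 : T.E)).symm

theorem sub_eq (T : TVN) (x y : T.E) : (str T).sub x y = x - y := by
  show x + (-1 : ℂ) • y = x - y
  rw [neg_one_smul, sub_eq_add_neg]

theorem norm2_eq (T : TVN) (x : T.E) : (str T).norm2 x = T.norm2 x := rfl

theorem factor_of (T : TVN) (h : (str T).IsIIOneFactor) : T.IsIIOneFactor := by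
  refine ⟨fun z hz => h.center z hz, fun hfin => ?_⟩
  obtain ⟨x, hx'⟩ : ∃ x : Fin (Module.finrank ℂ T.E + 1) → T.E,
      ∀ i k, T.τ (star (x i) * x k) = if i = k then 1 else 0 := h.infinite _
  have hli : LinearIndependent ℂ x := by
    rw [Fintype.linearIndependent_iff]
    intro g hg i
    have h1 : T.τ (star (x i) * ∑ k, g k • x k) = g i := by
      rw [Finset.mul_sum, map_sum, Finset.sum_eq_single i]
      · rw [mul_smul_comm, map_smul, hx', if_pos rfl, smul_eq_mul, mul_one]
      · intro k _ hk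
        rw [mul_smul_comm, map_smul, hx', if_neg (Ne.symm hk), smul_zero]
      · intro hi
        exact absurd (Finset.mem_univ i) hi
    rw [hg, mul_zero, map_zero] at h1
    exact h1.symm
  have := hli.fintype_card_le_finrank
  rw [Fintype.card_fin] at this
  omega

theorem gamma_of (T : TVN) (h : T.HasGamma) : (str T).HasGamma := by
  intro F ε hε
  obtain ⟨u, hu, h0, h1⟩ := h F ε hε
  rw [Unitary.mem_iff] at hu
  refine ⟨u, hu, h0, fun x hx => ?_⟩
  have := h1 x hx
  rw [norm2_eq, sub_eq]
  exact this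

/-- star algebra homomorphisms -/
noncomputable def homOf (N M : TVN) (α : N.E → M.E) (h : Str.IsHom (str N) (str M) α) :
    N.E →⋆ₐ[ℂ] M.E where
  toFun := α
  map_one' := h.one
  map_mul' := h.mul
  map_zero' := by
    have := h.scal 0 (0 : N.E)
    have h2 : α ((0 : ℂ) • (0 : N.E)) = (0 : ℂ) • α (0 : N.E) := this
    rw [zero_smul, zero_smul] at h2
    exact h2
  map_add' := h.add
  commutes' c := by
    rw [Algebra.algebraMap_eq_smul_one, Algebra.algebraMap_eq_smul_one]
    have h2 : α (c • (1 : N.E)) = c • α (1 : N.E) := h.scal c (1 : N.E)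
    have h3 : α (1 : N.E) = 1 := h.one
    rw [h2, h3]
  map_star' := h.adj

/-- the value of a term -/
noncomputable def tval (M : TVN) {V : Type} (x : V → M.E) (t : Tm V) : M.E := t.val (str M) x

theorem val_mem (M : TVN) {V : Type} (x : V → M.E) (P : Submodule ℂ M.E) (hone : (1 : M.E) ∈ P)
    (hmul : ∀ x ∈ P, ∀ y ∈ P, x * y ∈ P) (hstar : ∀ x ∈ P, star x ∈ P) (hx : ∀ v, x v ∈ P) :
    ∀ t : Tm V, tval M x t ∈ P
  | .var v => hx v
  | .one => hone
  | .add s t => add_mem (val_mem M x P hone hmul hstar hx s) (val_mem M x P hone hmul hstar hx t)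
  | .mul s t => hmul _ (val_mem M x P hone hmul hstar hx s) _ (val_mem M x P hone hmul hstar hx t)
  | .adj s => hstar _ (val_mem M x P hone hmul hstar hx s)
  | .scal c s => Submodule.smul_mem _ c (val_mem M x P hone hmul hstar hx s)

theorem tensor_of (M N R : TVN) (h : (str M).IsTensor (str N) (str R)) : M.IsTensor N R := by
  obtain ⟨_, α, β, hα, hβ, hc, ht, hg⟩ := h
  set A := homOf N M α hα with hA
  set B := homOf R M β hβ with hB
  have hcom : ∀ x y, A x * B y = B y * A x := hc
  refine ⟨A, B, hcom, ht, fun z ε hε => ?_⟩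
  obtain ⟨t, h1⟩ := hg z ε hε
  rw [norm2_eq, sub_eq] at h1
  refine ⟨_, ?_, h1⟩
  set P := Submodule.span ℂ {w : M.E | ∃ x y, w = A x * B y} with hP
  have hone : (1 : M.E) ∈ P := Submodule.subset_span ⟨1, 1, by rw [map_one, map_one, mul_one]⟩
  have hmul : ∀ x ∈ P, ∀ y ∈ P, x * y ∈ P := by
    intro x hx y hy
    induction hx using Submodule.span_induction with
    | mem x hx =>
      obtain ⟨a, b, rfl⟩ := hx
      induction hy using Submodule.span_induction with
      | mem y hy =>
        obtain ⟨c, d, rfl⟩ := hy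
        refine Submodule.subset_span ⟨a * c, b * d, ?_⟩
        rw [map_mul, map_mul]
        calc A a * B b * (A c * B d) = A a * (B b * A c) * B d := by simp only [mul_assoc]
          _ = A a * (A c * B b) * B d := by rw [hcom]
          _ = _ := by simp only [mul_assoc]
      | zero => rw [mul_zero]; exact zero_mem _
      | add a b _ _ ha hb => rw [mul_add]; exact add_mem ha hb
      | smul r a _ ha => rw [mul_smul_comm]; exact Submodule.smul_mem _ _ ha
    | zero => rw [zero_mul]; exact zero_mem _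
    | add a b _ _ ha hb => rw [add_mul]; exact add_mem ha hb
    | smul r a _ ha => rw [smul_mul_assoc]; exact Submodule.smul_mem _ _ ha
  have hstar : ∀ x ∈ P, star x ∈ P := by
    intro x hx
    induction hx using Submodule.span_induction with
    | mem x hx =>
      obtain ⟨a, b, rfl⟩ := hx
      refine Submodule.subset_span ⟨star a, star b, ?_⟩
      rw [star_mul, ← map_star, ← map_star, hcom]
    | zero => rw [star_zero]; exact zero_mem _
    | add a b _ _ ha hb => rw [star_add]; exact add_mem ha hb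
    | smul r a _ ha => rw [star_smul]; exact Submodule.smul_mem _ _ ha
  refine val_mem M (Sum.elim α β) P hone hmul hstar (fun v => ?_) t
  cases v with
  | inl x => exact Submodule.subset_span ⟨x, 1, by rw [map_one, mul_one]; rfl⟩
  | inr y => exact Submodule.subset_span ⟨1, y, by rw [map_one, one_mul]; rfl⟩

/-- the homomorphism from the `2 × 2` matrices given by matrix units -/
noncomputable def muHom (M : TVN) (e : Fin 2 → Fin 2 → M.E) (h : (str M).IsMatrixUnits e) :
    M2 →⋆ₐ[ℂ] M.E := by
  have hmul : ∀ a b c d, e a b * e c d = if b = c then e a d else 0 := by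
    intro a b c d
    have h1 := h.mul a b c d
    rw [show (str M).zero = (0 : M.E) from zero_smul ℂ (1 : M.E)] at h1
    exact h1
  have hadj : ∀ a b, star (e a b) = e b a := h.adj
  have hone : e 0 0 + e 1 1 = 1 := h.one
  refine
  { toFun := fun m => m 0 0 • e 0 0 + m 0 1 • e 0 1 + m 1 0 • e 1 0 + m 1 1 • e 1 1
    map_one' := ?_
    map_mul' := ?_
    map_zero' := ?_
    map_add' := ?_
    commutes' := ?_
    map_star' := ?_ }
  · simp [hone]
  · intro m n
    simp only [Matrix.mul_apply, Fin.sum_univ_two, mul_add, add_mul, smul_mul_smul_comm, hmul]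
    simp
    module
  · simp
  · intro m n
    simp only [Matrix.add_apply]
    module
  · intro c
    rw [Algebra.algebraMap_eq_smul_one, Algebra.algebraMap_eq_smul_one, ← hone]
    simp
  · intro m
    simp only [Matrix.star_apply, star_add, star_smul, hadj]
    abel

theorem muHom_apply (M : TVN) (e : Fin 2 → Fin 2 → M.E) (h : (str M).IsMatrixUnits e) (m : M2) :
    muHom M e h m = m 0 0 • e 0 0 + m 0 1 • e 0 1 + m 1 0 • e 1 0 + m 1 1 • e 1 1 := rfl

theorem muHom_single (M : TVN) (e : Fin 2 → Fin 2 → M.E) (h : (str M).IsMatrixUnits e)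
    (a b : Fin 2) : muHom M e h (Matrix.single a b 1) = e a b := by
  rw [muHom_apply]
  fin_cases a <;> fin_cases b <;> simp [Matrix.single]

theorem hyp_of (R : TVN) (h : (str R).IsHyperfinite) : R.IsHyperfinite := by
  obtain ⟨e, he, hc', hg⟩ : ∃ e : ℕ → Fin 2 → Fin 2 → R.E,
      (∀ k, (str R).IsMatrixUnits (e k)) ∧
      (∀ k l, k ≠ l → ∀ a b c d, e k a b * e l c d = e l c d * e k a b) ∧
      (str R).Generates (fun v : ℕ × Fin 2 × Fin 2 => e v.1 v.2.1 v.2.2) := h.2
  refine ⟨fun k => muHom R (e k) (he k), ?_, ?_⟩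
  · intro k l hkl x y
    simp only [muHom_apply, mul_add, add_mul, smul_mul_smul_comm, hc' k l hkl]
    module
  · intro z ε hε
    obtain ⟨t, h1⟩ := hg z ε hε
    rw [norm2_eq, sub_eq] at h1
    refine ⟨_, ?_, h1⟩
    set S : Set R.E := ⋃ k, Set.range (muHom R (e k) (he k)) with hS
    refine val_mem R _ (Subalgebra.toSubmodule (Algebra.adjoin ℂ S)) ?_ ?_ ?_ ?_ t
    · exact one_mem (Algebra.adjoin ℂ S)
    · intro x hx y hy
      exact mul_mem (S := Subalgebra ℂ R.E) hx hy
    · intro x hx
      refine Algebra.adjoin_induction (p := fun x _ => star x ∈ Algebra.adjoin ℂ S)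
        ?_ ?_ ?_ ?_ hx
      · intro x hx
        obtain ⟨k, m, rfl⟩ := Set.mem_iUnion.1 hx
        rw [← map_star]
        exact Algebra.subset_adjoin (Set.mem_iUnion.2 ⟨k, star m, rfl⟩)
      · intro r
        rw [Algebra.algebraMap_eq_smul_one, star_smul, star_one]
        exact Subalgebra.smul_mem _ (one_mem _) _
      · intro x y _ _ hx hy
        rw [star_add]
        exact add_mem hx hy
      · intro x y _ _ hx hy
        rw [star_mul]
        exact mul_mem hy hx
    · intro v
      refine Algebra.subset_adjoin (Set.mem_iUnion.2 ⟨v.1, Matrix.single v.2.1 v.2.2 1, ?_⟩)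
      exact muHom_single R (e v.1) (he v.1) _ _

/-- a strongly McDuff factor, bundled -/
theorem mcduff_of (M : Str) (h : M.IsStronglyMcDuff) : ∃ M' N R : TVN, M = str M' ∧
    N.IsIIOneFactor ∧ ¬ N.HasGamma ∧ R.IsHyperfinite ∧ M'.IsTensor N R := by
  obtain ⟨N, R, hN, _, hg, hR, hT⟩ := h
  obtain ⟨N', rfl⟩ := exists_tvn N hN.tvn
  obtain ⟨R', rfl⟩ := exists_tvn R hR.1
  obtain ⟨M', rfl⟩ := exists_tvn M hT.1
  exact ⟨M', N', R', rfl, factor_of N' hN, fun h => hg (gamma_of N' h), hyp_of R' hR,
    tensor_of M' N' R' hT⟩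

end Pool.Agent.H504R3.S
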