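import Mathlib
import Pool.Agent.H504R3.PauliM

/-!
Finite permutations of the tensor factors are implemented by unitaries.
-/

set_option autoImplicit false
set_option linter.unusedSectionVars false

namespace Pool.Agent.H504R3

open Pool.Agent.Helper278 Pool.Agent.Helper436.SM

variable {A : Type} [Ring A] [StarRing A] [Algebra ℂ A] [StarModule ℂ A] {τ : A →ₗ[ℂ] ℂ}
  {j : ℕ → (M2 →⋆ₐ[ℂ] A)} (hc : Cmm j)

include hc in
theorem flip2_symm {i m : ℕ} (him : i ≠ m) (x : M2) :
    flip2 j i m * j m x = j i x * flip2 j i m := by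
  obtain ⟨h1, _, h3⟩ := flip2_props hc him
  have h4 := h3 x
  calc flip2 j i m * j m x = flip2 j i m * (j m x * flip2 j i m) * flip2 j i m := by
        rw [mul_assoc (flip2 j i m), mul_assoc (j m x), h1, mul_one]
    _ = (flip2 j i m * flip2 j i m) * j i x * flip2 j i m := by
        rw [← h4]; simp only [mul_assoc]
    _ = j i x * flip2 j i m := by rw [h1, one_mul]

include hc in
theorem flip2_other {i m l : ℕ} (hli : l ≠ i) (hlm : l ≠ m) (x : M2) :
    flip2 j i m * j l x = j l x * flip2 j i m := by
  have h1 : ∀ a, j i a * j l x = j l x * j i a := fun a => hc i l hli.symm a x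
  have h2 : ∀ a, j m a * j l x = j l x * j m a := fun a => hc m l hlm.symm a x
  unfold flip2
  rw [smul_mul_assoc, mul_smul_comm]
  congr 1
  have h3 : ∀ a b, j i a * j m b * j l x = j l x * (j i a * j m b) := by
    intro a b
    rw [mul_assoc, h2, ← mul_assoc, h1, mul_assoc]
  have h4 : ∀ a b c d, j i a * j i b * j m c * j m d * j l x =
      j l x * (j i a * j i b * j m c * j m d) := by
    intro a b c d
    calc j i a * j i b * j m c * j m d * j l x = j i a * j i b * j m c * (j m d * j l x) := by
          rw [mul_assoc]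
      _ = j i a * (j i b * (j m c * j l x)) * j m d := by rw [h2]; simp only [mul_assoc]
      _ = j i a * (j i b * j l x) * j m c * j m d := by rw [h2]; simp only [mul_assoc]
      _ = (j i a * j l x) * j i b * j m c * j m d := by rw [h1]; simp only [mul_assoc]
      _ = _ := by rw [h1]; simp only [mul_assoc]
  rw [sub_mul, add_mul, add_mul, one_mul, h3, h3, h4, mul_sub, mul_add, mul_add, mul_one]

include hc in
theorem exists_perm (σ : Equiv.Perm ℕ)
    (hσ : σ ∈ Subgroup.closure {σ : Equiv.Perm ℕ | σ.IsSwap}) :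
    ∃ u : A, star u * u = 1 ∧ u * star u = 1 ∧ ∀ i x, u * j i x = j (σ i) x * u := by
  classical
  induction hσ using Subgroup.closure_induction with
  | mem σ hσ =>
    obtain ⟨i, m, him, rfl⟩ := hσ
    obtain ⟨h1, h2, h3⟩ := flip2_props hc him
    refine ⟨flip2 j i m, by rw [h2, h1], by rw [h2, h1], fun l x => ?_⟩
    by_cases hli : l = i
    · subst hli
      rw [Equiv.swap_apply_left]
      exact h3 x
    · by_cases hlm : l = m
      · subst hlm
        rw [Equiv.swap_apply_right]
        exact flip2_symm hc him x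
      · rw [Equiv.swap_apply_of_ne_of_ne hli hlm]
        exact flip2_other hc hli hlm x
  | one => exact ⟨1, by simp, by simp, fun i x => by simp⟩
  | mul σ ρ _ _ h1 h2 =>
    obtain ⟨u, hu1, hu2, hu3⟩ := h1
    obtain ⟨v, hv1, hv2, hv3⟩ := h2
    refine ⟨u * v, ?_, ?_, fun i x => ?_⟩
    · rw [star_mul]
      calc star v * star u * (u * v) = star v * (star u * u) * v := by simp only [mul_assoc]
        _ = 1 := by rw [hu1, mul_one, hv1]
    · rw [star_mul]
      calc u * v * (star v * star u) = u * (v * star v) * star u := by simp only [mul_assoc]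
        _ = 1 := by rw [hv2, mul_one, hu2]
    · rw [mul_assoc, hv3, ← mul_assoc, hu3, mul_assoc]
      rfl
  | inv σ _ h1 =>
    obtain ⟨u, hu1, hu2, hu3⟩ := h1
    refine ⟨star u, by rw [star_star]; exact hu2, by rw [star_star]; exact hu1, fun i x => ?_⟩
    have h2 := hu3 (σ⁻¹ i) x
    rw [show σ (σ⁻¹ i) = i from Equiv.apply_symm_apply σ i] at h2
    calc star u * j i x = star u * (j i x * u) * star u := by
          rw [mul_assoc, mul_assoc, hu2, mul_one]
      _ = (star u * u) * j (σ⁻¹ i) x * star u := by rw [← h2]; simp only [mul_assoc]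
      _ = _ := by rw [hu1, one_mul]

/-- the flip of `[0,k)` and `[k,2k)` -/
def blk (k : ℕ) (m : ℕ) : ℕ := if m < k then m + k else if m < 2 * k then m - k else m

theorem blk_inv (k : ℕ) : Function.Involutive (blk k) := by
  intro m
  unfold blk
  split_ifs <;> omega

/-- the permutation -/
def blkp (k : ℕ) : Equiv.Perm ℕ := (blk_inv k).toPerm

theorem blkp_mem (k : ℕ) : blkp k ∈ Subgroup.closure {σ : Equiv.Perm ℕ | σ.IsSwap} := by
  classical
  rw [mem_closure_isSwap']
  refine Set.Finite.subset (Finset.range (2 * k)).finite_toSet ?_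
  intro m hm
  rw [Finset.mem_coe, Finset.mem_range]
  by_contra hle
  apply hm
  rw [MulAction.mem_fixedBy]
  show blk k m = m
  unfold blk
  split_ifs <;> omega

include hc in
/-- For every level there is a unitary that moves the low strings into the commutant of the low
strings. -/
theorem exists_flip (k : ℕ) : ∃ u : A, star u * u = 1 ∧ u * star u = 1 ∧
    ∀ v ∈ low k, ∀ w ∈ low k, cmt (u * Ws j v * star u) (Ws j w) = 0 := by
  obtain ⟨u, h1, h2, h3⟩ := exists_perm hc (blkp k) (blkp_mem k)
  refine ⟨u, h1, h2, fun v hv w hw => ?_⟩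
  have h4 : ∀ i < k, ∀ x, u * j i x = j (i + k) x * u := by
    intro i hi x
    rw [h3]
    congr 2
    show j (blk k i) = j (i + k)
    unfold blk
    rw [if_pos hi]
  -- strings and the shifted system
  have h5 : ∀ n ≤ k, u * Wn j n v = Wn (fun i => j (i + k)) n v * u := by
    intro n
    induction n with
    | zero => intro _; rw [Wn_zero, Wn_zero, one_mul, mul_one]
    | succ n ih =>
      intro hn
      rw [Wn_succ, Wn_succ, ← mul_assoc, ih (by omega), mul_assoc, h4 n (by omega), mul_assoc]
  have h6 : ∀ n i, i < k → ∀ x, Wn (fun i => j (i + k)) n v * j i x =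
      j i x * Wn (fun i => j (i + k)) n v := by
    intro n i hi x
    induction n with
    | zero => rw [Wn_zero, one_mul, mul_one]
    | succ n ih =>
      rw [Wn_succ, mul_assoc, hc (n + k) i (by omega), ← mul_assoc, ih, mul_assoc]
  have h7 : ∀ n ≤ k, Wn (fun i => j (i + k)) k v * Wn j n w =
      Wn j n w * Wn (fun i => j (i + k)) k v := by
    intro n
    induction n with
    | zero => intro _; rw [Wn_zero, one_mul, mul_one]
    | succ n ih =>
      intro hn
      rw [Wn_succ, ← mul_assoc, ih (by omega), mul_assoc, h6 k n (by omega), mul_assoc]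
  have h8 : u * Ws j v * star u = Wn (fun i => j (i + k)) k v := by
    rw [Ws_eq hv, h5 k le_rfl, mul_assoc, h2, mul_one]
  rw [h8, Ws_eq hw]
  unfold cmt
  rw [h7 k le_rfl, sub_self]

theorem low_mono {k l : ℕ} (h : k ≤ l) : low k ⊆ low l := fun _ ht i hi => ht i (h.trans hi)

theorem exists_low (F : Finset VV) : ∃ k, ∀ t ∈ F, t ∈ low k := by
  refine ⟨F.sup (fun t => t.support.sup id + 1), ?_⟩
  intro t ht m hm
  by_contra hne
  have h3 : m ≤ t.support.sup id := Finset.le_sup (f := id) (Finsupp.mem_support_iff.2 hne)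
  have h4 : t.support.sup id + 1 ≤ F.sup (fun t => t.support.sup id + 1) :=
    Finset.le_sup (f := fun t : VV => t.support.sup id + 1) ht
  omega

include hc in
/-- In the hyperfinite factor every finite family is moved into its almost commutant. -/
theorem flip_est (h : TrAlg τ)
    (hd : ∀ (x : A) (ε : ℝ), 0 < ε → ∃ (F : Finset VV) (c : VV → ℂ),
      n2 τ (x - ∑ t ∈ F, c t • Ws j t) < ε) {r : ℕ} (b : Fin r → A) (hb : ∀ i, Ctr τ (b i))
    (ε : ℝ) (hε : 0 < ε) : ∃ u : A, star u * u = 1 ∧ u * star u = 1 ∧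
      ∀ i i', n2 τ (cmt (u * b i * star u) (b i')) ≤ ε := by
  classical
  have hy := fun i => hd (b i) (ε / 4) (by linarith)
  choose F c hF using hy
  set C : ℝ := ∑ i, ∑ t ∈ F i, ‖c i t‖ with hC
  have hC0 : 0 ≤ C := Finset.sum_nonneg fun i _ => Finset.sum_nonneg fun t _ => norm_nonneg _
  have hz := fun i => hd (b i) (ε / (4 * (1 + C))) (by positivity)
  choose G d hG using hz
  obtain ⟨k, hk⟩ := exists_low (Finset.univ.biUnion (fun i => F i ∪ G i))
  obtain ⟨u, hu1, hu2, hu3⟩ := exists_flip hc k
  refine ⟨u, hu1, hu2, fun i i' => ?_⟩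
  have hu : Ctr τ u := Ctr.of_unitary h hu1 hu2
  have hus := hu.star' h
  have hcom : cmt (u * (∑ t ∈ F i, c i t • Ws j t) * star u) (∑ t ∈ G i', d i' t • Ws j t) = 0 := by
    have e1 : ∀ t ∈ F i, ∀ s ∈ G i', (u * Ws j t * star u) * Ws j s =
        Ws j s * (u * Ws j t * star u) := by
      intro t ht s hs
      have := hu3 t (hk t (Finset.mem_biUnion.2 ⟨i, Finset.mem_univ i, Finset.mem_union_left _ ht⟩))
        s (hk s (Finset.mem_biUnion.2 ⟨i', Finset.mem_univ i', Finset.mem_union_right _ hs⟩))
      exact sub_eq_zero.1 this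
    unfold cmt
    have e2 : u * (∑ t ∈ F i, c i t • Ws j t) * star u =
        ∑ t ∈ F i, c i t • (u * Ws j t * star u) := by
      rw [Finset.mul_sum, Finset.sum_mul]
      refine Finset.sum_congr rfl fun t _ => ?_
      rw [mul_smul_comm, smul_mul_assoc]
    rw [e2, sub_eq_zero, Finset.sum_mul_sum, Finset.sum_mul_sum, Finset.sum_comm]
    refine Finset.sum_congr rfl fun s hs => Finset.sum_congr rfl fun t ht => ?_
    rw [smul_mul_smul_comm, smul_mul_smul_comm, e1 t ht s hs, mul_comm]
  set y := ∑ t ∈ F i, c i t • Ws j t with hy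
  set z := ∑ t ∈ G i', d i' t • Ws j t with hz
  have e : cmt (u * b i * star u) (b i') = cmt (u * (b i - y) * star u) (b i') +
      cmt (u * y * star u) (b i' - z) + cmt (u * y * star u) z := by
    unfold cmt; noncomm_ring
  rw [e, hcom, add_zero]
  have hyz : ∀ x : A, n2 τ (u * y * star u * x) ≤ C * n2 τ x ∧
      n2 τ (x * (u * y * star u)) ≤ C * n2 τ x := by
    intro x
    have hle : ∑ t ∈ F i, ‖c i t‖ ≤ C := by
      rw [hC]
      exact Finset.single_le_sum (f := fun i => ∑ t ∈ F i, ‖c i t‖)
        (fun i _ => Finset.sum_nonneg fun t _ => norm_nonneg _) (Finset.mem_univ i)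
    have hx := n2_nonneg τ x
    have hW : ∀ t, Ctr τ (u * Ws j t * star u) := fun t =>
      (hu.mul (PauliSys.ctr (pauliSys hc h) h t)).mul hus
    constructor
    · have e1 : u * y * star u * x = ∑ t ∈ F i, c i t • (u * Ws j t * star u * x) := by
        rw [hy, Finset.mul_sum, Finset.sum_mul, Finset.sum_mul]
        refine Finset.sum_congr rfl fun t _ => ?_
        simp only [mul_smul_comm, smul_mul_assoc]
      rw [e1]
      refine (n2_sum_le h _ _).trans ?_
      calc ∑ t ∈ F i, n2 τ (c i t • (u * Ws j t * star u * x)) ≤ ∑ t ∈ F i, ‖c i t‖ * n2 τ x := by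
            refine Finset.sum_le_sum fun t _ => ?_
            rw [n2_smul h]
            exact mul_le_mul_of_nonneg_left ((hW t).left x) (norm_nonneg _)
        _ = (∑ t ∈ F i, ‖c i t‖) * n2 τ x := by rw [Finset.sum_mul]
        _ ≤ C * n2 τ x := mul_le_mul_of_nonneg_right hle hx
    · have e1 : x * (u * y * star u) = ∑ t ∈ F i, c i t • (x * (u * Ws j t * star u)) := by
        rw [hy, Finset.mul_sum, Finset.sum_mul, Finset.mul_sum]
        refine Finset.sum_congr rfl fun t _ => ?_
        simp only [mul_smul_comm, smul_mul_assoc]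
      rw [e1]
      refine (n2_sum_le h _ _).trans ?_
      calc ∑ t ∈ F i, n2 τ (c i t • (x * (u * Ws j t * star u))) ≤ ∑ t ∈ F i, ‖c i t‖ * n2 τ x := by
            refine Finset.sum_le_sum fun t _ => ?_
            rw [n2_smul h]
            exact mul_le_mul_of_nonneg_left ((hW t).right x) (norm_nonneg _)
        _ = (∑ t ∈ F i, ‖c i t‖) * n2 τ x := by rw [Finset.sum_mul]
        _ ≤ C * n2 τ x := mul_le_mul_of_nonneg_right hle hx
  have h1 : n2 τ (cmt (u * (b i - y) * star u) (b i')) ≤ ε / 2 := by
    have h2 : n2 τ (u * (b i - y) * star u) ≤ ε / 4 :=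
      ((hus.right _).trans (hu.left _)).trans (hF i).le
    have h3 := (hb i').comm_le h (u * (b i - y) * star u)
    rw [n2_cmt_comm h]
    unfold cmt
    linarith
  have h2 : n2 τ (cmt (u * y * star u) (b i' - z)) ≤ ε / 2 := by
    unfold cmt
    have h3 := h.n2_sub_le (u * y * star u * (b i' - z)) ((b i' - z) * (u * y * star u))
    have h4 := hyz (b i' - z)
    have h5 := (hG i').le
    have h6 : C * n2 τ (b i' - z) ≤ ε / 4 := by
      have h7 : C * n2 τ (b i' - z) ≤ C * (ε / (4 * (1 + C))) := mul_le_mul_of_nonneg_left h5 hC0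
      have h8 : C * (ε / (4 * (1 + C))) ≤ ε / 4 := by
        rw [← mul_div_assoc, div_le_div_iff₀ (by positivity) (by norm_num)]
        nlinarith
      linarith
    linarith [h4.1, h4.2]
  have h3 := h.n2_add_le (cmt (u * (b i - y) * star u) (b i')) (cmt (u * y * star u) (b i' - z))
  linarith

end Pool.Agent.H504R3
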