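import Mathlib
import Pool.Agent.H504R3.SDefs

/-!
Isomorphisms preserve the values of formulas.
-/

set_option autoImplicit false

namespace Pool.Agent.H504R3.S

/-- isomorphisms -/
structure Iso (M N : Str) (e : M.carrier ≃ N.carrier) : Prop where
  one : e M.one = N.one
  add : ∀ x y, e (M.add x y) = N.add (e x) (e y)
  mul : ∀ x y, e (M.mul x y) = N.mul (e x) (e y)
  adj : ∀ x, e (M.adj x) = N.adj (e x)
  scal : ∀ c x, e (M.scal c x) = N.scal c (e x)
  nrm : ∀ x, N.nrm (e x) = M.nrm x
  tr : ∀ x, N.tr (e x) = M.tr x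

variable {M N : Str} {e : M.carrier ≃ N.carrier} (h : Iso M N e)

include h in
theorem tm_iso {V : Type} (x : V → M.carrier) : ∀ t : Tm V,
    t.val N (fun v => e (x v)) = e (t.val M x)
  | .var _ => rfl
  | .one => h.one.symm
  | .add s t => by
    show N.add (s.val N _) (t.val N _) = e (M.add _ _)
    rw [tm_iso x s, tm_iso x t, h.add]
  | .mul s t => by
    show N.mul (s.val N _) (t.val N _) = e (M.mul _ _)
    rw [tm_iso x s, tm_iso x t, h.mul]
  | .adj s => by
    show N.adj (s.val N _) = e (M.adj _)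
    rw [tm_iso x s, h.adj]
  | .scal c s => by
    show N.scal c (s.val N _) = e (M.scal c _)
    rw [tm_iso x s, h.scal]

include h in
theorem norm2_iso (x : M.carrier) : N.norm2 (e x) = M.norm2 x := by
  unfold Str.norm2
  rw [← h.adj, ← h.mul, h.tr]

/-- the equivalence of the balls -/
def ballEquiv (h : Iso M N e) (r : ℕ) : M.Ball r ≃ N.Ball r :=
  e.subtypeEquiv (fun x => by rw [h.nrm])

theorem cons_eq {n : ℕ} (y : M.carrier) (x : Fin n → M.carrier) :
    (fun i => e ((Fin.cons y x : Fin (n + 1) → M.carrier) i)) =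
      Fin.cons (e y) (fun i => e (x i)) := by
  funext i
  refine Fin.cases ?_ (fun k => ?_) i
  · rfl
  · rfl

include h in
theorem fm_iso : ∀ {n : ℕ} (φ : Fm n) (x : Fin n → M.carrier),
    φ.val N (fun i => e (x i)) = φ.val M x
  | _, .re t, x => by
    show (N.tr (t.val N _)).re = (M.tr (t.val M x)).re
    rw [tm_iso h, h.tr]
  | _, .im t, x => by
    show (N.tr (t.val N _)).im = (M.tr (t.val M x)).im
    rw [tm_iso h, h.tr]
  | _, .nrm t, x => by
    show N.norm2 (t.val N _) = M.norm2 (t.val M x)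
    rw [tm_iso h, norm2_iso h]
  | _, .conn u φ, x => by
    show u (fun i => (φ i).val N _) = u (fun i => (φ i).val M x)
    congr 1
    funext i
    exact fm_iso (φ i) x
  | _, .sup r φ, x => by
    show ⨆ y : N.Ball r, φ.val N (Fin.cons y.1 _) = ⨆ y : M.Ball r, φ.val M (Fin.cons y.1 x)
    refine ((ballEquiv h r).surjective.iSup_congr _ fun y => ?_).symm
    rw [← fm_iso φ (Fin.cons y.1 x), cons_eq]
    rfl
  | _, .inf r φ, x => by
    show ⨅ y : N.Ball r, φ.val N (Fin.cons y.1 _) = ⨅ y : M.Ball r, φ.val M (Fin.cons y.1 x)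
    refine ((ballEquiv h r).surjective.iInf_congr _ fun y => ?_).symm
    rw [← fm_iso φ (Fin.cons y.1 x), cons_eq]
    rfl

end Pool.Agent.H504R3.S
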