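import Mathlib
import Pool.Agent.H504R3.SDefs

/-!
# Simple theories of tracial von Neumann algebras

Types, indiscernible sequences, dividing and simplicity for the theory of a tracial von Neumann
algebra, without the choice of a monster model: the elements that the definitions take in the monster
model are taken in elementary extensions.
-/

set_option autoImplicit false

namespace Pool.Agent.H504R3.S

/-- The families `x` in `M` and `y` in `N` (indexed by the same set `V`) have the same type: every
formula has the same value at `x` in `M` and at `y` in `N`. -/
def SameType (M N : Str) {V : Type} (x : V → M.carrier) (y : V → N.carrier) : Prop :=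
  ∀ (n : ℕ) (φ : Fm n) (v : Fin n → V), φ.val M (fun i => x (v i)) = φ.val N (fun i => y (v i))

/-- `ι` is an elementary embedding of `M` in the tracial von Neumann algebra `N`. -/
structure IsElemExt (M N : Str) (ι : M.carrier → N.carrier) : Prop where
  tvn : N.IsTVN
  elem : SameType M N id ι

/-- The set `A` is separable: it has a countable 2-norm dense subset. -/
def Str.SeparableSet (M : Str) (A : Set M.carrier) : Prop :=
  ∃ D ⊆ A, D.Countable ∧ ∀ x ∈ A, ∀ ε : ℝ, 0 < ε → ∃ y ∈ D, M.norm2 (M.sub x y) < ε

/-- The sequence `b` of families in `N`, indexed by `I`, is indiscernible over the family `a`: for all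
`m`, all subfamilies of length `m` in increasing order have the same type over `a`. -/
def Indiscernible (N : Str) {I J : Type} (b : ℕ → I → N.carrier) (a : J → N.carrier) : Prop :=
  ∀ (m : ℕ) (s t : Fin m → ℕ), StrictMono s → StrictMono t →
    SameType N N (Sum.elim (fun q : Fin m × I => b (s q.1) q.2) a)
      (Sum.elim (fun q : Fin m × I => b (t q.1) q.2) a)

/-- The type `p(x, B)` of the finite tuple `c` over the set `B` divides over `A ⊆ B`: in an elementary
extension `N` of `M` there is a sequence `b 0, b 1, …` of families indexed by `B`, indiscernible over
`A`, such that `b 0` is `B` itself and the union of the types `p(x, b i)` is inconsistent, that is, it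
is realised in no elementary extension of `N`. -/
def Divides (M : Str) {k : ℕ} (c : Fin k → M.carrier) (B A : Set M.carrier) : Prop :=
  ∃ (N : Str) (ι : M.carrier → N.carrier) (b : ℕ → B → N.carrier), IsElemExt M N ι ∧
    (∀ y : B, b 0 y = ι y) ∧ Indiscernible N b (fun a : A => ι a) ∧
    ¬ ∃ (N' : Str) (κ : N.carrier → N'.carrier) (c' : Fin k → N'.carrier), IsElemExt N N' κ ∧
      ∀ i, SameType M N' (Sum.elim c (fun y : B => y.1)) (Sum.elim c' (fun y : B => κ (b i y)))

/-- The theory of `R` is simple: for every model `M` of it, every set `B ⊆ M` and every finite tuple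
`c` in `M`, the type of `c` over `B` does not divide over some separable subset `A` of `B`. -/
def Str.HasSimpleTheory (R : Str) : Prop :=
  ∀ M : Str, M.IsTVN → M.ElemEq R → ∀ (k : ℕ) (c : Fin k → M.carrier) (B : Set M.carrier),
    ∃ A ⊆ B, M.SeparableSet A ∧ ¬ Divides M c B A

end Pool.Agent.H504R3.S
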