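import Mathlib
import Pool.Agent.H504R3.Bridge
import Pool.Agent.H504R3.Flip

/-!
A sentence that distinguishes strongly McDuff factors from the hyperfinite factor.
-/

set_option autoImplicit false
set_option linter.unusedSectionVars false

open scoped InnerProductSpace

namespace Pool.Agent.H504R3.S

open Pool.Agent.Helper278 Pool.Agent.Helper436.SM
open Pool.Agent.H504R3 (TVN cmt n2_cmt_comm n2_one flip_est adjoin_le sit_of key Cmm)

/-- the commutator of terms -/
def cmT {V : Type} (s t : Tm V) : Tm V := .add (.mul s t) (.scal (-1) (.mul t s))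

theorem cmT_val (M : TVN) {V : Type} (x : V → M.E) (s t : Tm V) :
    tval M x (cmT s t) = cmt (tval M x s) (tval M x t) := by
  show tval M x s * tval M x t + (-1 : ℂ) • (tval M x t * tval M x s) = _
  unfold cmt
  rw [neg_one_smul, sub_eq_add_neg]

/-- the sum -/
def sumC (k : ℕ) : C(Fin k → ℝ, ℝ) := ⟨fun x => ∑ i, x i, by fun_prop⟩

/-- the defect of `u` -/
def dfT {V : Type} (u : Tm V) : Tm V := .add (.mul (.adj u) u) (.scal (-1) .one)

theorem dfT_val (M : TVN) {V : Type} (x : V → M.E) (u : Tm V) :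
    tval M x (dfT u) = star (tval M x u) * tval M x u - 1 := by
  show star (tval M x u) * tval M x u + (-1 : ℂ) • (1 : M.E) = _
  rw [neg_one_smul, sub_eq_add_neg]

/-- the value of the matrix -/
noncomputable def mx (M : TVN) {r : ℕ} (u : M.E) (b : Fin r → M.E) : ℝ :=
  n2 M.τ (star u * u - 1) + ∑ i, ∑ k, n2 M.τ (cmt (u * b i * star u) (b k))

/-- the matrix of the sentence -/
def mxF (r : ℕ) : Fm (r + 1) :=
  .conn (sumC (r + 1)) (Fin.cases (.nrm (dfT (.var 0))) (fun i =>
    .conn (sumC r) (fun k => .nrm (cmT (.mul (.mul (.var 0) (.var i.succ)) (.adj (.var 0)))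
      (.var k.succ)))))

theorem mxF_val (M : TVN) {r : ℕ} (u : M.E) (b : Fin r → M.E) :
    (mxF r).val (str M) (Fin.cons u b) = mx M u b := by
  show ∑ i : Fin (r + 1), Fm.val (str M) _ (Fin.cons u b) = _
  rw [Fin.sum_univ_succ]
  unfold mx
  congr 1
  · show M.norm2 (tval M (Fin.cons u b) (dfT (.var 0))) = _
    rw [dfT_val]
    rfl
  · refine Finset.sum_congr rfl fun i _ => ?_
    show ∑ k : Fin r, M.norm2 (tval M (Fin.cons u b) (cmT _ _)) = _
    refine Finset.sum_congr rfl fun k _ => ?_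
    rw [cmT_val]
    rfl

theorem mx_nonneg (M : TVN) {r : ℕ} (u : M.E) (b : Fin r → M.E) : 0 ≤ mx M u b :=
  add_nonneg (n2_nonneg _ _) (Finset.sum_nonneg fun _ _ => Finset.sum_nonneg fun _ _ =>
    n2_nonneg _ _)

theorem opNorm_zero (M : TVN) : M.opNorm 0 = 0 := by unfold TVN.opNorm; simp

theorem ball_ne (M : TVN) (r : ℕ) : Nonempty ((str M).Ball r) :=
  ⟨⟨(0 : M.E), (opNorm_zero M).le.trans (Nat.cast_nonneg r)⟩⟩

/-- iterated suprema over the unit ball -/
def supn : (n : ℕ) → Fm n → Fm 0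
  | 0, φ => φ
  | n + 1, φ => supn n (.sup 1 φ)

theorem supn_le (M : TVN) (c : ℝ) : ∀ (n : ℕ) (φ : Fm n),
    (∀ b : Fin n → M.E, (∀ i, M.opNorm (b i) ≤ 1) → φ.val (str M) b ≤ c) →
      (supn n φ).val (str M) Fin.elim0 ≤ c
  | 0, φ, h => h _ (fun i => i.elim0)
  | n + 1, φ, h => supn_le M c n (.sup 1 φ) (fun b hb => by
      show ⨆ y : (str M).Ball 1, φ.val (str M) (Fin.cons y.1 b) ≤ c
      have := ball_ne M 1
      refine ciSup_le fun y => h _ ?_
      intro i
      refine Fin.cases ?_ (fun k => ?_) i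
      · exact y.2.trans (by simp)
      · exact hb k)

theorem le_supn (M : TVN) (c C : ℝ) : ∀ (n : ℕ) (φ : Fm n),
    (∀ b : Fin n → M.E, (∀ i, M.opNorm (b i) ≤ 1) → φ.val (str M) b ≤ C) →
      (∃ b : Fin n → M.E, (∀ i, M.opNorm (b i) ≤ 1) ∧ c ≤ φ.val (str M) b) →
      c ≤ (supn n φ).val (str M) Fin.elim0
  | 0, φ, _, h => by
      obtain ⟨b, _, hb⟩ := h
      have : b = Fin.elim0 := funext fun i => i.elim0
      rw [this] at hb
      exact hb
  | n + 1, φ, h, h2 => le_supn M c C n (.sup 1 φ) (fun b hb => by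
      show ⨆ y : (str M).Ball 1, φ.val (str M) (Fin.cons y.1 b) ≤ C
      have := ball_ne M 1
      refine ciSup_le fun y => h _ ?_
      intro i
      refine Fin.cases ?_ (fun k => ?_) i
      · exact y.2.trans (by simp)
      · exact hb k) (by
      obtain ⟨b, hb1, hb2⟩ := h2
      refine ⟨fun i => b i.succ, fun i => hb1 _, ?_⟩
      show c ≤ ⨆ y : (str M).Ball 1, φ.val (str M) (Fin.cons y.1 fun i => b i.succ)
      have hbdd : BddAbove (Set.range fun y : (str M).Ball 1 =>
          φ.val (str M) (Fin.cons y.1 fun i => b i.succ)) := by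
        refine ⟨C, ?_⟩
        rintro _ ⟨y, rfl⟩
        refine h _ ?_
        intro i
        refine Fin.cases ?_ (fun k => ?_) i
        · exact y.2.trans (by simp)
        · exact hb1 _
      refine le_trans ?_ (le_ciSup hbdd ⟨b 0, (hb1 0).trans (by simp)⟩)
      have : (Fin.cons (b 0) fun i => b i.succ : Fin (n + 1) → M.E) = b :=
        Fin.cons_self_tail b
      have h3 := hb2
      rw [← this] at h3
      exact h3)

/-- the sentence -/
def sent (r : ℕ) : Fm 0 := supn r (.inf 1 (mxF r))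

theorem inf_val (M : TVN) {r : ℕ} (b : Fin r → M.E) :
    (Fm.inf 1 (mxF r)).val (str M) b = ⨅ y : (str M).Ball 1, mx M y.1 b := by
  show ⨅ y : (str M).Ball 1, (mxF r).val (str M) (Fin.cons y.1 b) = _
  exact iInf_congr fun y => mxF_val M y.1 b

theorem bddBelow_mx (M : TVN) {r : ℕ} (b : Fin r → M.E) :
    BddBelow (Set.range fun y : (str M).Ball 1 => mx M y.1 b) :=
  ⟨0, by rintro _ ⟨y, rfl⟩; exact mx_nonneg M _ _⟩

theorem inf_le_one (M : TVN) {r : ℕ} (b : Fin r → M.E) :
    (Fm.inf 1 (mxF r)).val (str M) b ≤ 1 := by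
  rw [inf_val]
  refine (ciInf_le (bddBelow_mx M b) ⟨(0 : M.E), (opNorm_zero M).le.trans (by simp)⟩).trans ?_
  have h := M.trAlg
  unfold mx cmt
  simp only [zero_mul, mul_zero, sub_self, h.n2_zero, Finset.sum_const_zero, add_zero, zero_sub,
    h.n2_neg, n2_one h, le_refl]

theorem opNorm_unitary (M : TVN) {u : M.E} (hu : star u * u = 1) : M.opNorm u ≤ 1 := by
  have h1 : ‖star u * u‖ = ‖u‖ * ‖u‖ := CStarRing.norm_star_mul_self
  have h2 : ‖(1 : M.E)‖ ≤ 1 := by
    show ‖(1 : M.H →L[ℂ] M.H)‖ ≤ 1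
    exact ContinuousLinearMap.norm_id_le
  rw [hu] at h1
  show ‖u‖ ≤ 1
  have h3 := norm_nonneg u
  nlinarith

/-- every sentence of the family has value at most `0` in the hyperfinite factor -/
theorem sent_hyp (R : TVN) (hR : R.IsHyperfinite) (r : ℕ) : (sent r).val (str R) Fin.elim0 ≤ 0 := by
  refine supn_le R 0 r _ fun b hb => ?_
  rw [inf_val]
  obtain ⟨j, hc, hd⟩ := hR
  have h := R.trAlg
  refine le_of_forall_pos_le_add fun ε hε => ?_
  obtain ⟨u, hu1, _, hu3⟩ := flip_est (A := R.E) hc h (fun x ε hε => by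
    obtain ⟨y, hy, hxy⟩ := hd x ε hε
    obtain ⟨F, c, rfl⟩ := adjoin_le hc y hy
    exact ⟨F, c, hxy⟩) b (fun i => R.ctr (hb i)) (ε / ((r : ℝ) * r + 1)) (by positivity)
  refine (ciInf_le (bddBelow_mx R b) ⟨u, (opNorm_unitary R hu1).trans (by simp)⟩).trans ?_
  unfold mx
  simp only
  rw [hu1, sub_self, h.n2_zero, zero_add, zero_add]
  refine (Finset.sum_le_sum fun i _ => Finset.sum_le_sum fun k _ => hu3 i k).trans ?_
  rw [Finset.sum_const, Finset.sum_const, Finset.card_univ, Fintype.card_fin, nsmul_eq_mul,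
    nsmul_eq_mul, ← mul_assoc, ← mul_div_assoc, div_le_iff₀ (by positivity)]
  nlinarith

theorem mx_lower {M : TVN} {r : ℕ} {K : ℝ} {a : Fin r → M.E} {W : VV → M.E}
    (S : Pool.Agent.H504R3.Sit M.τ r K a W) {ε : ℝ} (hε : ε = 1 / (80 * (K * r + 1) ^ 3))
    (u : M.E) (hu : M.opNorm u ≤ 1) : ε ≤ mx M u a := by
  by_contra hlt
  rw [not_le] at hlt
  have h1 : n2 M.τ (star u * u - 1) ≤ mx M u a := by
    unfold mx
    have : 0 ≤ ∑ i, ∑ k, n2 M.τ (cmt (u * a i * star u) (a k)) :=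
      Finset.sum_nonneg fun _ _ => Finset.sum_nonneg fun _ _ => n2_nonneg _ _
    linarith
  have h2 : ∀ i k, n2 M.τ (cmt (u * a i * star u) (a k)) ≤ mx M u a := by
    intro i k
    unfold mx
    have h3 := Finset.single_le_sum (f := fun k => n2 M.τ (cmt (u * a i * star u) (a k)))
      (fun _ _ => n2_nonneg _ _) (Finset.mem_univ k)
    have h4 := Finset.single_le_sum
      (f := fun i => ∑ k, n2 M.τ (cmt (u * a i * star u) (a k)))
      (fun _ _ => Finset.sum_nonneg fun _ _ => n2_nonneg _ _) (Finset.mem_univ i)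
    have h5 := n2_nonneg M.τ (star u * u - 1)
    linarith
  exact key S rfl hε (M.ctr hu) (h1.trans hlt.le) (fun i k => (h2 i k).trans hlt.le)

/-- In a strongly McDuff factor one of the sentences has positive value. -/
theorem sent_pos {M N R : TVN} (hN : N.IsIIOneFactor) (hg : ¬ N.HasGamma) (hR : R.IsHyperfinite)
    (hT : M.IsTensor N R) : ∃ r, 0 < (sent r).val (str M) Fin.elim0 := by
  obtain ⟨r, K, a, W, ha, S⟩ := sit_of hN hg hR hT
  have hκ0 : 0 < K * r + 1 := by
    have := mul_nonneg S.K0 (Nat.cast_nonneg (α := ℝ) r)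
    linarith
  set ε := 1 / (80 * (K * r + 1) ^ 3) with hε
  have hε0 : 0 < ε := by rw [hε]; positivity
  refine ⟨r, lt_of_lt_of_le hε0 ?_⟩
  refine le_supn M ε 1 r _ (fun b _ => inf_le_one M b) ⟨a, ha, ?_⟩
  rw [inf_val]
  have := ball_ne M 1
  exact le_ciInf fun u => mx_lower S hε u.1 (u.2.trans (by simp))

/-- Strongly McDuff factors are not elementarily equivalent to the hyperfinite factor. -/
theorem not_elemEq (M R : Str) (hM : M.IsStronglyMcDuff) (hR : R.IsHyperfinite) :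
    ¬ M.ElemEq R := by
  obtain ⟨M', N', R', rfl, hN, hg, hR', hT⟩ := mcduff_of M hM
  obtain ⟨R'', rfl⟩ := exists_tvn R hR.1
  obtain ⟨r, hr⟩ := sent_pos hN hg hR' hT
  intro h
  have h1 := sent_hyp R'' (hyp_of R'' hR) r
  rw [h] at hr
  linarith

end Pool.Agent.H504R3.S
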