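import Mathlib
import Pool.Agent.H504R3.Bridge
import Pool.Agent.Helper278.CEMod
import Pool.Agent.Helper278.CEBall
import Pool.Agent.Helper278.Model
import Pool.Agent.Helper278.HU.H5
import Pool.Agent.Helper278.CEFactor

/-!
The tracial ultrapower as a tracial von Neumann algebra, and Los' theorem.
-/

set_option autoImplicit false
set_option linter.unusedSectionVars false

open scoped InnerProductSpace Topology BoundedContinuousFunction
open Filter

namespace Pool.Agent.H504R3.S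

open Pool.Agent.Helper278 Pool.Agent.Helper278.CE
open Pool.Agent.H504R3 (TVN)

/-- `M` is the ultrapower of `R` -/
structure UP (R M : TVN) (U : Ultrafilter ℕ) (π : (ℕ →ᵇ R.E) →⋆ₐ[ℂ] M.E) : Prop where
  tr : ∀ x : ℕ →ᵇ R.E, Tendsto (fun n => R.τ (x n)) U (𝓝 (M.τ (π x)))
  nrm : ∀ (x : ℕ →ᵇ R.E) (r : ℕ), (∀ n, R.opNorm (x n) ≤ r) → M.opNorm (π x) ≤ r
  lift : ∀ (m : M.E) (r : ℕ), M.opNorm m ≤ r →
    ∃ x : ℕ →ᵇ R.E, (∀ n, R.opNorm (x n) ≤ r) ∧ π x = m

theorem exists_up (R : TVN) (U : Ultrafilter ℕ) (hU : ∀ n, {n} ∉ U) :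
    ∃ (M : TVN) (π : (ℕ →ᵇ R.E) →⋆ₐ[ℂ] M.E), UP R M U π := by
  let T : TracialState R.N := ⟨R.τ, R.normal, R.map_one, R.tracial, R.faithful⟩
  obtain ⟨Q, _, _, _, _, π0, σ, hπ⟩ := exists_ultrapower T U
  have hS := sigma_trAlg hπ
  have hB := ball_ultra hU hπ
  obtain ⟨K, _, _, _, j, hd, hj⟩ := exists_gns hS
  have hb := fun a => bddL hS hB a
  have hT := Pool.Agent.Helper278.HU.tauL_tr hS hd hj hb
  have hn := Pool.Agent.Helper278.CE.normal_vector (MM j)
    (Pool.Agent.Helper278.HU.tauL j) (j 1) (fun x => rfl)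
  let M : TVN :=
    { H := K
      N := MM j
      τ := Pool.Agent.Helper278.HU.tauL j
      map_one := hT.one
      tracial := hT.comm
      faithful := hT.faithful
      normal := hn }
  refine ⟨M, (LmHom hS hd hj hB).comp π0, ?_, ?_, ?_⟩
  · intro x
    have h1 : M.τ ((LmHom hS hd hj hB) (π0 x)) = σ (π0 x) := by
      show ⟪j 1, Lm j (π0 x) (j 1)⟫_ℂ = σ (π0 x)
      rw [Lm_j hS hd hj hB, mul_one, hj, star_one, one_mul]
      rfl
    show Tendsto _ _ (𝓝 (M.τ ((LmHom hS hd hj hB) (π0 x))))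
    rw [h1]
    exact hπ.trace x
  · intro x r hx
    show ‖Lm j (π0 x)‖ ≤ r
    refine ContinuousLinearMap.opNorm_le_bound _ (Nat.cast_nonneg r) fun ξ => ?_
    refine hd.induction_on (p := fun ξ => ‖Lm j (π0 x) ξ‖ ≤ r * ‖ξ‖) ξ
      (isClosed_le (by fun_prop) (by fun_prop)) fun b => ?_
    rw [Lm_j hS hd hj hB, norm_j hj, norm_j hj]
    rcases Nat.eq_zero_or_pos r with hr | hr
    · subst hr
      have h0 : x = 0 := by
        ext1 n
        have h1 := hx n
        rw [Nat.cast_zero] at h1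
        exact norm_le_zero_iff.1 h1
      rw [h0, map_zero, zero_mul, hS.n2_zero, Nat.cast_zero, zero_mul]
    · have hr0 : (0 : ℝ) < r := Nat.cast_pos.2 hr
      have hmem : π0 ((((r : ℝ)⁻¹ : ℝ) : ℂ) • x) ∈ ballQ π0 := by
        refine ⟨_, fun n => ?_, rfl⟩
        show ‖(((r : ℝ)⁻¹ : ℝ) : ℂ) • x n‖ ≤ 1
        rw [norm_smul, Complex.norm_real, Real.norm_eq_abs, abs_of_pos (inv_pos.2 hr0),
          inv_mul_le_iff₀ hr0, mul_one]
        exact hx n
      have h1 := hB.contr _ hmem b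
      have h2 : π0 x * b = (((r : ℝ) : ℝ) : ℂ) • (π0 ((((r : ℝ)⁻¹ : ℝ) : ℂ) • x) * b) := by
        rw [map_smul, smul_mul_assoc, smul_smul]
        have : ((r : ℝ) : ℂ) * (((r : ℝ)⁻¹ : ℝ) : ℂ) = 1 := by
          rw [← Complex.ofReal_mul, mul_inv_cancel₀ hr0.ne', Complex.ofReal_one]
        rw [this, one_smul]
      rw [h2, Pool.Agent.H504R3.n2_smul hS, Complex.norm_real, Real.norm_eq_abs, abs_of_pos hr0]
      exact mul_le_mul_of_nonneg_left h1 hr0.le
  · intro m r hm
    rcases Nat.eq_zero_or_pos r with hr | hr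
    · subst hr
      refine ⟨0, fun n => by simp [TVN.opNorm], ?_⟩
      rw [map_zero]
      rw [Nat.cast_zero] at hm
      exact Subtype.ext (norm_le_zero_iff.1 hm).symm
    · have hr0 : (0 : ℝ) < r := Nat.cast_pos.2 hr
      have hmem : (((r : ℝ)⁻¹ : ℝ) : ℂ) • (m : K →L[ℂ] K) ∈ MM j :=
        ((((r : ℝ)⁻¹ : ℝ) : ℂ) • (m : Elt (MM j))).2
      have hn1 : ‖(((r : ℝ)⁻¹ : ℝ) : ℂ) • (m : K →L[ℂ] K)‖ ≤ 1 := by
        rw [norm_smul, Complex.norm_real, Real.norm_eq_abs, abs_of_pos (inv_pos.2 hr0),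
          inv_mul_le_iff₀ hr0, mul_one]
        exact hm
      obtain ⟨_, ⟨y, hy, rfl⟩, ha⟩ := exists_of_mem hS hd hj hB _ hmem hn1
      refine ⟨(((r : ℝ) : ℝ) : ℂ) • y, fun n => ?_, ?_⟩
      · show ‖((r : ℝ) : ℂ) • y n‖ ≤ r
        rw [norm_smul, Complex.norm_real, Real.norm_eq_abs, abs_of_pos hr0]
        have := hy n
        nlinarith
      · rw [map_smul]
        apply Subtype.ext
        show ((r : ℝ) : ℂ) • Lm j (π0 y) = (m : K →L[ℂ] K)
        rw [← ha, smul_smul]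
        have : ((r : ℝ) : ℂ) * (((r : ℝ)⁻¹ : ℝ) : ℂ) = 1 := by
          rw [← Complex.ofReal_mul, mul_inv_cancel₀ hr0.ne', Complex.ofReal_one]
        rw [this, one_smul]

/-! ### suprema and infima of ultralimits -/

theorem tendsto_sup {X Y : Type} [Nonempty X] [Nonempty Y] (U : Ultrafilter ℕ) (f : ℕ → X → ℝ)
    (g : Y → ℝ) (P : (ℕ → X) → Y) (hP : Function.Surjective P)
    (hf : ∀ x : ℕ → X, Tendsto (fun k => f k (x k)) U (𝓝 (g (P x)))) (B : ℝ)
    (hB : ∀ k x, |f k x| ≤ B) : Tendsto (fun k => ⨆ x, f k x) U (𝓝 (⨆ y, g y)) := by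
  have hbf : ∀ k, BddAbove (Set.range (f k)) := fun k =>
    ⟨B, by rintro _ ⟨x, rfl⟩; exact (abs_le.1 (hB k x)).2⟩
  have hbg : BddAbove (Set.range g) := by
    refine ⟨B, ?_⟩
    rintro _ ⟨y, rfl⟩
    obtain ⟨x, rfl⟩ := hP y
    exact le_of_tendsto' (hf x) fun k => (abs_le.1 (hB k _)).2
  rw [Metric.tendsto_nhds]
  intro ε hε
  have h1 : ∀ k, ∃ x, (⨆ x, f k x) - ε / 2 < f k x := fun k =>
    exists_lt_of_lt_ciSup (by linarith)
  choose x hx using h1
  obtain ⟨y, hy⟩ : ∃ y, (⨆ y, g y) - ε / 2 < g y := exists_lt_of_lt_ciSup (by linarith)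
  obtain ⟨z, rfl⟩ := hP y
  have h2 := (hf x).eventually (gt_mem_nhds (show g (P x) < g (P x) + ε / 2 by linarith))
  have h3 := (hf z).eventually (lt_mem_nhds (show (⨆ y, g y) - ε / 2 < g (P z) from hy))
  filter_upwards [h2, h3] with k hk2 hk3
  rw [Real.dist_eq, abs_lt]
  have h4 := le_ciSup hbg (P x)
  have h5 := le_ciSup (hbf k) (z k)
  have h6 := hx k
  constructor <;> linarith

theorem tendsto_inf {X Y : Type} [Nonempty X] [Nonempty Y] (U : Ultrafilter ℕ) (f : ℕ → X → ℝ)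
    (g : Y → ℝ) (P : (ℕ → X) → Y) (hP : Function.Surjective P)
    (hf : ∀ x : ℕ → X, Tendsto (fun k => f k (x k)) U (𝓝 (g (P x)))) (B : ℝ)
    (hB : ∀ k x, |f k x| ≤ B) : Tendsto (fun k => ⨅ x, f k x) U (𝓝 (⨅ y, g y)) := by
  have hbf : ∀ k, BddBelow (Set.range (f k)) := fun k =>
    ⟨-B, by rintro _ ⟨x, rfl⟩; exact (abs_le.1 (hB k x)).1⟩
  have hbg : BddBelow (Set.range g) := by
    refine ⟨-B, ?_⟩
    rintro _ ⟨y, rfl⟩
    obtain ⟨x, rfl⟩ := hP y
    exact ge_of_tendsto' (hf x) fun k => (abs_le.1 (hB k _)).1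
  rw [Metric.tendsto_nhds]
  intro ε hε
  have h1 : ∀ k, ∃ x, f k x < (⨅ x, f k x) + ε / 2 := fun k =>
    exists_lt_of_ciInf_lt (by linarith)
  choose x hx using h1
  obtain ⟨y, hy⟩ : ∃ y, g y < (⨅ y, g y) + ε / 2 := exists_lt_of_ciInf_lt (by linarith)
  obtain ⟨z, rfl⟩ := hP y
  have h2 := (hf x).eventually (lt_mem_nhds (show g (P x) - ε / 2 < g (P x) by linarith))
  have h3 := (hf z).eventually (gt_mem_nhds (show g (P z) < (⨅ y, g y) + ε / 2 from hy))
  filter_upwards [h2, h3] with k hk2 hk3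
  rw [Real.dist_eq, abs_lt]
  have h4 := ciInf_le hbg (P x)
  have h5 := ciInf_le (hbf k) (z k)
  have h6 := hx k
  constructor <;> linarith

/-! ### terms -/

section

variable {R M : TVN}

/-- the value of a term at bounded sequences -/
noncomputable def tmB {V : Type} (x : V → ℕ →ᵇ R.E) : Tm V → (ℕ →ᵇ R.E)
  | .var v => x v
  | .one => 1
  | .add s t => tmB x s + tmB x t
  | .mul s t => tmB x s * tmB x t
  | .adj s => star (tmB x s)
  | .scal c s => c • tmB x s

theorem tmB_apply {V : Type} (x : V → ℕ →ᵇ R.E) (k : ℕ) :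
    ∀ t : Tm V, tmB x t k = tval R (fun v => x v k) t
  | .var v => rfl
  | .one => rfl
  | .add s t => by
    show tmB x s k + tmB x t k = tval R _ s + tval R _ t
    rw [tmB_apply x k s, tmB_apply x k t]
  | .mul s t => by
    show tmB x s k * tmB x t k = tval R _ s * tval R _ t
    rw [tmB_apply x k s, tmB_apply x k t]
  | .adj s => by
    show star (tmB x s k) = star (tval R _ s)
    rw [tmB_apply x k s]
  | .scal c s => by
    show c • tmB x s k = c • tval R _ s
    rw [tmB_apply x k s]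

theorem tmB_pi {V : Type} (π : (ℕ →ᵇ R.E) →⋆ₐ[ℂ] M.E) (x : V → ℕ →ᵇ R.E) :
    ∀ t : Tm V, π (tmB x t) = tval M (fun v => π (x v)) t
  | .var v => rfl
  | .one => map_one π
  | .add s t => by
    show π (tmB x s + tmB x t) = tval M _ s + tval M _ t
    rw [map_add, tmB_pi π x s, tmB_pi π x t]
  | .mul s t => by
    show π (tmB x s * tmB x t) = tval M _ s * tval M _ t
    rw [map_mul, tmB_pi π x s, tmB_pi π x t]
  | .adj s => by
    show π (star (tmB x s)) = star (tval M _ s)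
    rw [map_star, tmB_pi π x s]
  | .scal c s => by
    show π (c • tmB x s) = c • tval M _ s
    rw [map_smul, tmB_pi π x s]

theorem opNorm_add (a b : R.E) : R.opNorm (a + b) ≤ R.opNorm a + R.opNorm b := norm_add_le _ _

theorem opNorm_mul (a b : R.E) : R.opNorm (a * b) ≤ R.opNorm a * R.opNorm b := norm_mul_le _ _

theorem opNorm_star (a : R.E) : R.opNorm (star a) = R.opNorm a := norm_star _

theorem opNorm_smul (c : ℂ) (a : R.E) : R.opNorm (c • a) = ‖c‖ * R.opNorm a := norm_smul _ _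

theorem opNorm_one : R.opNorm 1 ≤ 1 := ContinuousLinearMap.norm_id_le

theorem opNorm_nonneg (a : R.E) : 0 ≤ R.opNorm a := norm_nonneg _

theorem n2_le_opNorm (a : R.E) : n2 R.τ a ≤ R.opNorm a := by
  have h := (R.n2_mul_le a 1).1
  rwa [mul_one, Pool.Agent.H504R3.n2_one R.trAlg, mul_one] at h

theorem tau_le_opNorm (a : R.E) : ‖R.τ a‖ ≤ R.opNorm a := by
  have h := R.trAlg.cauchy' 1 a
  rw [one_mul, Pool.Agent.H504R3.n2_one R.trAlg, one_mul] at h
  exact h.trans (n2_le_opNorm a)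

theorem tm_bdd {V : Type} (C : ℝ) : ∀ t : Tm V,
    ∃ B : ℝ, ∀ x : V → R.E, (∀ v, R.opNorm (x v) ≤ C) → R.opNorm (tval R x t) ≤ B
  | .var v => ⟨C, fun x hx => hx v⟩
  | .one => ⟨1, fun _ _ => opNorm_one⟩
  | .add s t => by
    obtain ⟨B, hB⟩ := tm_bdd C s
    obtain ⟨D, hD⟩ := tm_bdd C t
    exact ⟨B + D, fun x hx => (opNorm_add (R := R) _ _).trans (add_le_add (hB x hx) (hD x hx))⟩
  | .mul s t => by
    obtain ⟨B, hB⟩ := tm_bdd C s
    obtain ⟨D, hD⟩ := tm_bdd C t
    exact ⟨B * D, fun x hx => (opNorm_mul (R := R) _ _).trans (mul_le_mul (hB x hx) (hD x hx)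
      (opNorm_nonneg (R := R) _) ((opNorm_nonneg (R := R) _).trans (hB x hx)))⟩
  | .adj s => by
    obtain ⟨B, hB⟩ := tm_bdd C s
    exact ⟨B, fun x hx => (opNorm_star (R := R) _).le.trans (hB x hx)⟩
  | .scal c s => by
    obtain ⟨B, hB⟩ := tm_bdd C s
    exact ⟨‖c‖ * B, fun x hx => (opNorm_smul (R := R) _ _).le.trans
      (mul_le_mul_of_nonneg_left (hB x hx) (norm_nonneg _))⟩

theorem ball_nonempty (R : TVN) (r : ℕ) : Nonempty ((str R).Ball r) :=
  ⟨⟨(0 : R.E), by
    show R.opNorm 0 ≤ r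
    unfold TVN.opNorm
    simp⟩⟩

theorem fm_bdd : ∀ {n : ℕ} (φ : Fm n) (C : ℝ),
    ∃ B : ℝ, ∀ x : Fin n → R.E, (∀ v, R.opNorm (x v) ≤ C) → |φ.val (str R) x| ≤ B
  | _, .re t, C => by
    obtain ⟨B, hB⟩ := tm_bdd (R := R) C t
    exact ⟨B, fun x hx => (Complex.abs_re_le_norm _).trans ((tau_le_opNorm (R := R) _).trans
      (hB x hx))⟩
  | _, .im t, C => by
    obtain ⟨B, hB⟩ := tm_bdd (R := R) C t
    exact ⟨B, fun x hx => (Complex.abs_im_le_norm _).trans ((tau_le_opNorm (R := R) _).trans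
      (hB x hx))⟩
  | _, .nrm t, C => by
    obtain ⟨B, hB⟩ := tm_bdd (R := R) C t
    refine ⟨B, fun x hx => ?_⟩
    show |n2 R.τ (tval R x t)| ≤ B
    rw [abs_of_nonneg (n2_nonneg _ _)]
    exact (n2_le_opNorm (R := R) _).trans (hB x hx)
  | _, .conn (k := k) u φ, C => by
    choose B hB using fun i => fm_bdd (φ i) C
    have hcomp : IsCompact (Set.univ.pi fun i : Fin k => Metric.closedBall (0 : ℝ) (B i)) :=
      isCompact_univ_pi fun i => isCompact_closedBall _ _
    obtain ⟨D, hD⟩ := hcomp.exists_bound_of_continuousOn u.continuous.continuousOn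
    refine ⟨D, fun x hx => hD _ ?_⟩
    intro i _
    rw [mem_closedBall_zero_iff]
    exact hB i x hx
  | _, .sup r φ, C => by
    obtain ⟨B, hB⟩ := fm_bdd φ (max C r)
    refine ⟨B, fun x hx => ?_⟩
    have hb : ∀ y : (str R).Ball r, |φ.val (str R) (Fin.cons y.1 x)| ≤ B := fun y => hB _ (by
      intro i
      refine Fin.cases ?_ (fun k => ?_) i
      · exact y.2.trans (le_max_right _ _)
      · exact (hx k).trans (le_max_left _ _))
    have hne := ball_nonempty R r
    show |⨆ y : (str R).Ball r, φ.val (str R) (Fin.cons y.1 x)| ≤ B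
    rw [abs_le]
    refine ⟨?_, ciSup_le fun y => (abs_le.1 (hb y)).2⟩
    obtain ⟨y⟩ := hne
    exact (abs_le.1 (hb y)).1.trans (le_ciSup (f := fun y : (str R).Ball r =>
      φ.val (str R) (Fin.cons y.1 x)) ⟨B, by rintro _ ⟨y, rfl⟩; exact (abs_le.1 (hb y)).2⟩ y)
  | _, .inf r φ, C => by
    obtain ⟨B, hB⟩ := fm_bdd φ (max C r)
    refine ⟨B, fun x hx => ?_⟩
    have hb : ∀ y : (str R).Ball r, |φ.val (str R) (Fin.cons y.1 x)| ≤ B := fun y => hB _ (by
      intro i
      refine Fin.cases ?_ (fun k => ?_) i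
      · exact y.2.trans (le_max_right _ _)
      · exact (hx k).trans (le_max_left _ _))
    have hne := ball_nonempty R r
    show |⨅ y : (str R).Ball r, φ.val (str R) (Fin.cons y.1 x)| ≤ B
    rw [abs_le]
    refine ⟨le_ciInf fun y => (abs_le.1 (hb y)).1, ?_⟩
    obtain ⟨y⟩ := hne
    exact (ciInf_le (f := fun y : (str R).Ball r =>
      φ.val (str R) (Fin.cons y.1 x)) ⟨-B, by rintro _ ⟨y, rfl⟩; exact (abs_le.1 (hb y)).1⟩
      y).trans (abs_le.1 (hb y)).2

/-! ### Los -/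

variable {U : Ultrafilter ℕ} {π : (ℕ →ᵇ R.E) →⋆ₐ[ℂ] M.E} (h : UP R M U π)

/-- the bounded sequence of a sequence in a ball -/
noncomputable def ofB (r : ℕ) (x : ℕ → (str R).Ball r) : ℕ →ᵇ R.E :=
  BoundedContinuousFunction.ofNormedAddCommGroupDiscrete (fun k => ((x k).1 : R.E)) r
    (fun k => (x k).2)

theorem ofB_apply (r : ℕ) (x : ℕ → (str R).Ball r) (k : ℕ) : ofB r x k = (x k).1 := rfl

/-- the map from sequences in the ball to the ball -/
noncomputable def piB (h : UP R M U π) (r : ℕ) (x : ℕ → (str R).Ball r) : (str M).Ball r :=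
  ⟨π (ofB r x), h.nrm _ r fun k => (x k).2⟩

include h in
theorem piB_surj (r : ℕ) : Function.Surjective (piB h r) := by
  rintro ⟨m, hm⟩
  obtain ⟨x, hx, hxm⟩ := h.lift m r hm
  refine ⟨fun k => ⟨x k, hx k⟩, Subtype.ext ?_⟩
  show π (ofB r _) = m
  rw [← hxm]
  congr 1

include h in
theorem los : ∀ {n : ℕ} (φ : Fm n) (x : Fin n → ℕ →ᵇ R.E),
    Tendsto (fun k => φ.val (str R) (fun i => x i k)) U (𝓝 (φ.val (str M) (fun i => π (x i))))
  | _, .re t, x => by
    have h1 := (Complex.continuous_re.tendsto _).comp (h.tr (tmB x t))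
    rw [tmB_pi] at h1
    refine h1.congr fun k => ?_
    show (R.τ (tmB x t k)).re = _
    rw [tmB_apply]
    rfl
  | _, .im t, x => by
    have h1 := (Complex.continuous_im.tendsto _).comp (h.tr (tmB x t))
    rw [tmB_pi] at h1
    refine h1.congr fun k => ?_
    show (R.τ (tmB x t k)).im = _
    rw [tmB_apply]
    rfl
  | _, .nrm t, x => by
    have h1 := (Real.continuous_sqrt.tendsto _).comp
      ((Complex.continuous_re.tendsto _).comp (h.tr (star (tmB x t) * tmB x t)))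
    rw [map_mul, map_star, tmB_pi] at h1
    refine h1.congr fun k => ?_
    show Real.sqrt (R.τ (star (tmB x t k) * tmB x t k)).re = _
    rw [tmB_apply]
    rfl
  | _, .conn (k := m) u φ, x => by
    have h1 : Tendsto (fun k => fun i => (φ i).val (str R) (fun i => x i k)) U
        (𝓝 (fun i => (φ i).val (str M) (fun i => π (x i)))) := by
      rw [tendsto_pi_nhds]
      intro i
      exact los (φ i) x
    exact (u.continuous.tendsto _).comp h1
  | n, .sup r φ, x => by
    have hne1 := ball_nonempty R r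
    have hne2 := ball_nonempty M r
    obtain ⟨C, hC⟩ : ∃ C : ℝ, ∀ i k, R.opNorm (x i k) ≤ C := by
      refine ⟨∑ i, ‖x i‖, fun i k => ((x i).norm_coe_le_norm k).trans ?_⟩
      exact Finset.single_le_sum (f := fun i => ‖x i‖) (fun _ _ => norm_nonneg _)
        (Finset.mem_univ i)
    obtain ⟨B, hB⟩ := fm_bdd (R := R) φ (max C r)
    refine tendsto_sup U (fun k (y : (str R).Ball r) => φ.val (str R) (Fin.cons y.1 fun i => x i k))
      (fun y : (str M).Ball r => φ.val (str M) (Fin.cons y.1 fun i => π (x i))) (piB h r)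
      (piB_surj h r) (fun y => ?_) B (fun k y => hB _ ?_)
    · have h1 := los φ (Fin.cons (ofB r y) x)
      have e1 : (fun i => π ((Fin.cons (ofB r y) x : Fin (n + 1) → ℕ →ᵇ R.E) i)) =
          Fin.cons (piB h r y).1 (fun i => π (x i)) := by
        funext i
        refine Fin.cases ?_ (fun k => ?_) i <;> rfl
      rw [e1] at h1
      refine h1.congr fun k => ?_
      congr 1
      funext i
      refine Fin.cases ?_ (fun k => ?_) i <;> rfl
    · intro i
      refine Fin.cases ?_ (fun k => ?_) i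
      · exact y.2.trans (le_max_right _ _)
      · exact (hC _ _).trans (le_max_left _ _)
  | n, .inf r φ, x => by
    have hne1 := ball_nonempty R r
    have hne2 := ball_nonempty M r
    obtain ⟨C, hC⟩ : ∃ C : ℝ, ∀ i k, R.opNorm (x i k) ≤ C := by
      refine ⟨∑ i, ‖x i‖, fun i k => ((x i).norm_coe_le_norm k).trans ?_⟩
      exact Finset.single_le_sum (f := fun i => ‖x i‖) (fun _ _ => norm_nonneg _)
        (Finset.mem_univ i)
    obtain ⟨B, hB⟩ := fm_bdd (R := R) φ (max C r)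
    refine tendsto_inf U (fun k (y : (str R).Ball r) => φ.val (str R) (Fin.cons y.1 fun i => x i k))
      (fun y : (str M).Ball r => φ.val (str M) (Fin.cons y.1 fun i => π (x i))) (piB h r)
      (piB_surj h r) (fun y => ?_) B (fun k y => hB _ ?_)
    · have h1 := los φ (Fin.cons (ofB r y) x)
      have e1 : (fun i => π ((Fin.cons (ofB r y) x : Fin (n + 1) → ℕ →ᵇ R.E) i)) =
          Fin.cons (piB h r y).1 (fun i => π (x i)) := by
        funext i
        refine Fin.cases ?_ (fun k => ?_) i <;> rfl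
      rw [e1] at h1
      refine h1.congr fun k => ?_
      congr 1
      funext i
      refine Fin.cases ?_ (fun k => ?_) i <;> rfl
    · intro i
      refine Fin.cases ?_ (fun k => ?_) i
      · exact y.2.trans (le_max_right _ _)
      · exact (hC _ _).trans (le_max_left _ _)

end

end Pool.Agent.H504R3.S
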