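import Mathlib
import Pool.Agent.H504R3.SDefsSimple
import Pool.Agent.H504R3.Iso
import Pool.Agent.H504R3.Ultra
import Pool.Agent.H504R3.Flip
import Pool.Agent.H504R3.ThB

/-!
The theory of the hyperfinite II_1 factor is not simple.
-/

set_option autoImplicit false
set_option linter.unusedSectionVars false

open scoped InnerProductSpace Topology BoundedContinuousFunction
open Filter

namespace Pool.Agent.H504R3.S

open Pool.Agent.Helper278 Pool.Agent.Helper436.SM
open Pool.Agent.H504R3 (TVN M2 Cmm pm pz sz exists_perm Ws_single pauliSys px)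

/-- permutations with a given pattern -/
theorem exists_pattern : ∀ (l : ℕ) (m m' : Fin l → ℕ), (∀ q q', m q = m q' ↔ m' q = m' q') →
    ∃ σ ∈ Subgroup.closure {σ : Equiv.Perm ℕ | σ.IsSwap}, ∀ q, σ (m q) = m' q
  | 0, _, _, _ => ⟨1, one_mem _, fun q => q.elim0⟩
  | l + 1, m, m', h => by
    obtain ⟨σ, hσ, hq⟩ := exists_pattern l (fun q => m q.castSucc) (fun q => m' q.castSucc)
      (fun q q' => h _ _)
    by_cases hex : ∃ q : Fin l, m q.castSucc = m (Fin.last l)
    · obtain ⟨q0, hq0⟩ := hex
      refine ⟨σ, hσ, fun q => ?_⟩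
      refine Fin.lastCases ?_ (fun q => hq q) q
      rw [← hq0, hq q0]
      exact (h _ _).1 hq0
    · push Not at hex
      refine ⟨Equiv.swap (σ (m (Fin.last l))) (m' (Fin.last l)) * σ, mul_mem ?_ hσ, fun q => ?_⟩
      · by_cases he : σ (m (Fin.last l)) = m' (Fin.last l)
        · rw [he, Equiv.swap_self]
          exact one_mem _
        · exact Subgroup.subset_closure ⟨_, _, he, rfl⟩
      · refine Fin.lastCases ?_ (fun q => ?_) q
        · rw [Equiv.Perm.mul_apply, Equiv.swap_apply_left]
        · rw [Equiv.Perm.mul_apply, hq q]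
          refine Equiv.swap_apply_of_ne_of_ne ?_ ?_
          · intro he
            rw [← hq q] at he
            exact hex q (σ.injective he)
          · intro he
            exact hex q ((h _ _).2 he)

/-- the code of a branch at level `n` -/
noncomputable def code (n : ℕ) (f : ℕ → Bool) : ℕ :=
  (Fintype.equivFin (Fin n → Bool) (fun i => f i)).val

theorem code_lt (n : ℕ) (f : ℕ → Bool) : code n f < Fintype.card (Fin n → Bool) :=
  (Fintype.equivFin (Fin n → Bool) (fun i => f i)).2

theorem code_inj {n : ℕ} {f g : ℕ → Bool} (h : code n f = code n g) (i : ℕ) (hi : i < n) :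
    f i = g i := by
  have h1 : (fun i : Fin n => f i) = fun i : Fin n => g i :=
    (Fintype.equivFin (Fin n → Bool)).injective (Fin.ext h)
  exact congrFun h1 ⟨i, hi⟩

/-- the index of the tensor factor -/
noncomputable def idx (n : ℕ) (p : (ℕ → Bool) × ℕ) : ℕ := Nat.pair (code n p.1) p.2

theorem idx_eventually (p p' : (ℕ → Bool) × ℕ) :
    ∀ᶠ n in (hyperfilter ℕ : Filter ℕ), (idx n p = idx n p' ↔ p = p') := by
  by_cases h : p = p'
  · subst h
    exact Eventually.of_forall fun n => by simp
  · have h1 : ∀ᶠ n in (atTop : Filter ℕ), idx n p ≠ idx n p' := by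
      by_cases h2 : p.1 = p'.1
      · have h3 : p.2 ≠ p'.2 := fun h3 => h (Prod.ext h2 h3)
        refine Eventually.of_forall fun n hn => h3 ?_
        exact (Nat.pair_eq_pair.1 hn).2
      · obtain ⟨i, hi⟩ := Function.ne_iff.1 h2
        filter_upwards [eventually_gt_atTop i] with n hn hcon
        exact hi (code_inj (Nat.pair_eq_pair.1 hcon).1 i hn)
    have h4 : ∀ᶠ n in (hyperfilter ℕ : Filter ℕ), idx n p ≠ idx n p' :=
      Nat.hyperfilter_le_atTop h1
    exact h4.mono fun n hn => iff_of_false hn h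

/-- the swap of the columns `0` and `1` in the rows below `K` -/
def colSwap (K m : ℕ) : ℕ :=
  if m.unpair.1 < K then Nat.pair m.unpair.1 (Equiv.swap 0 1 m.unpair.2) else m

theorem colSwap_inv (K : ℕ) : Function.Involutive (colSwap K) := by
  intro m
  unfold colSwap
  by_cases h : m.unpair.1 < K
  · rw [if_pos h, Nat.unpair_pair]
    simp only [h, if_true, Equiv.swap_apply_self]
    exact Nat.pair_unpair m
  · rw [if_neg h, if_neg h]

theorem colSwap_mem (K : ℕ) : (colSwap_inv K).toPerm ∈
    Subgroup.closure {σ : Equiv.Perm ℕ | σ.IsSwap} := by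
  classical
  rw [mem_closure_isSwap']
  refine Set.Finite.subset (((Finset.range K).image (fun a => Nat.pair a 0)) ∪
    ((Finset.range K).image (fun a => Nat.pair a 1))).finite_toSet ?_
  intro m hm
  rw [Finset.mem_coe, Finset.mem_union, Finset.mem_image, Finset.mem_image]
  by_contra hcon
  apply hm
  rw [MulAction.mem_fixedBy]
  show colSwap K m = m
  unfold colSwap
  by_cases h : m.unpair.1 < K
  · rw [if_pos h]
    have h0 : m.unpair.2 ≠ 0 := by
      intro h0
      exact hcon (Or.inl ⟨m.unpair.1, Finset.mem_range.2 h, by rw [← h0, Nat.pair_unpair]⟩)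
    have h1 : m.unpair.2 ≠ 1 := by
      intro h0
      exact hcon (Or.inr ⟨m.unpair.1, Finset.mem_range.2 h, by rw [← h0, Nat.pair_unpair]⟩)
    rw [Equiv.swap_apply_of_ne_of_ne h0 h1, Nat.pair_unpair]
  · rw [if_neg h]

section

variable {R M : TVN} {j : ℕ → (M2 →⋆ₐ[ℂ] R.E)} (hc : Cmm j)

/-- the generators -/
noncomputable def Z (j : ℕ → (M2 →⋆ₐ[ℂ] R.E)) (m : ℕ) : R.E := j m (pm (0, 1))

theorem Z_star (m : ℕ) : star (Z j m) = Z j m := by
  unfold Z
  rw [← map_star, sz]

theorem Z_sq (m : ℕ) : Z j m * Z j m = 1 := by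
  unfold Z
  rw [← map_mul, pz, map_one]

theorem Z_norm (m : ℕ) : R.opNorm (Z j m) ≤ 1 :=
  opNorm_unitary R (by rw [Z_star, Z_sq])

include hc in
theorem Z_orth {m m' : ℕ} (h : m ≠ m') : R.τ (Z j m * Z j m') = 0 := by
  have hon := Pool.Agent.H504R3.PauliSys.on (pauliSys hc R.trAlg)
  have h1 := hon (Finsupp.single m (0, 1)) (Finsupp.single m' (0, 1))
  rw [Ws_single, Ws_single, if_neg] at h1
  · have h2 : R.τ (star (Z j m) * Z j m') = 0 := h1
    rwa [Z_star] at h2
  · intro he
    exact h ((Finsupp.single_left_inj (by decide)).1 he)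

include hc in
theorem Z_dist {m m' : ℕ} (h : m ≠ m') :
    R.τ (star (Z j m - Z j m') * (Z j m - Z j m')) = 2 := by
  have e : star (Z j m - Z j m') * (Z j m - Z j m') =
      Z j m * Z j m + Z j m' * Z j m' - Z j m * Z j m' - Z j m' * Z j m := by
    rw [star_sub, Z_star, Z_star]; noncomm_ring
  rw [e, Z_sq, Z_sq, map_sub, map_sub, map_add, R.map_one, Z_orth hc h, Z_orth hc h.symm]
  norm_num

/-- the sequence of generators along a branch and a column -/
noncomputable def Gs (j : ℕ → (M2 →⋆ₐ[ℂ] R.E)) (p : (ℕ → Bool) × ℕ) : ℕ →ᵇ R.E :=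
  BoundedContinuousFunction.ofNormedAddCommGroupDiscrete (fun n => Z j (idx n p)) 1
    (fun n => Z_norm (j := j) (idx n p))

theorem Gs_apply (p : (ℕ → Bool) × ℕ) (n : ℕ) : Gs j p n = Z j (idx n p) := rfl

/-- conjugation by a unitary -/
noncomputable def adEquiv (w : R.E) (h1 : star w * w = 1) (h2 : w * star w = 1) : R.E ≃ R.E where
  toFun x := w * x * star w
  invFun x := star w * x * w
  left_inv x := by
    calc star w * (w * x * star w) * w = (star w * w) * x * (star w * w) := by
          simp only [mul_assoc]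
      _ = x := by rw [h1, one_mul, mul_one]
  right_inv x := by
    calc w * (star w * x * w) * star w = (w * star w) * x * (w * star w) := by
          simp only [mul_assoc]
      _ = x := by rw [h2, one_mul, mul_one]

theorem ad_norm (w : R.E) (h1 : star w * w = 1) (x : R.E) :
    R.opNorm (w * x * star w) ≤ R.opNorm x := by
  have a1 := opNorm_unitary R h1
  have a2 : R.opNorm (star w) ≤ 1 := by rw [opNorm_star]; exact a1
  have a3 := opNorm_mul (R := R) (w * x) (star w)
  have a4 := opNorm_mul (R := R) w x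
  have a5 := opNorm_nonneg (R := R) x
  have a6 := opNorm_nonneg (R := R) (w * x)
  have a7 := opNorm_nonneg (R := R) w
  nlinarith

theorem ad_iso (w : R.E) (h1 : star w * w = 1) (h2 : w * star w = 1) :
    Iso (str R) (str R) (adEquiv w h1 h2) := by
  have a1 : w * 1 * star w = 1 := by rw [mul_one, h2]
  have a2 : ∀ x y : R.E, w * (x + y) * star w = w * x * star w + w * y * star w := by
    intro x y
    rw [mul_add, add_mul]
  have a3 : ∀ x y : R.E, w * (x * y) * star w = w * x * star w * (w * y * star w) := by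
    intro x y
    calc w * (x * y) * star w = w * x * 1 * y * star w := by
          rw [mul_one]; simp only [mul_assoc]
      _ = w * x * (star w * w) * y * star w := by rw [h1]
      _ = _ := by simp only [mul_assoc]
  have a4 : ∀ x : R.E, w * star x * star w = star (w * x * star w) := by
    intro x
    rw [star_mul, star_mul, star_star, mul_assoc]
  have a5 : ∀ (c : ℂ) (x : R.E), w * (c • x) * star w = c • (w * x * star w) := by
    intro c x
    rw [mul_smul_comm, smul_mul_assoc]
  have a6 : ∀ x : R.E, R.opNorm (w * x * star w) = R.opNorm x := by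
    intro x
    refine le_antisymm (ad_norm w h1 x) ?_
    have h3 := ad_norm (star w) (by rw [star_star]; exact h2) (w * x * star w)
    rw [star_star] at h3
    have h4 : star w * (w * x * star w) * w = x := (adEquiv w h1 h2).left_inv x
    rw [h4] at h3
    exact h3
  have a7 : ∀ x : R.E, R.τ (w * x * star w) = R.τ x := by
    intro x
    rw [R.tracial, ← mul_assoc, h1, one_mul]
  exact ⟨a1, a2, a3, a4, a5, a6, a7⟩

variable {U : Ultrafilter ℕ} {π : (ℕ →ᵇ R.E) →⋆ₐ[ℂ] M.E}

include hc in
/-- families with the same equality pattern have the same type -/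
theorem same_type (h : UP R M (hyperfilter ℕ) π) {V : Type} (P P' : V → (ℕ → Bool) × ℕ)
    (hP : ∀ v v', P v = P v' ↔ P' v = P' v') :
    SameType (str M) (str M) (fun v => π (Gs j (P v))) (fun v => π (Gs j (P' v))) := by
  intro n φ v
  have h1 := los h φ (fun i => Gs j (P (v i)))
  have h2 := los h φ (fun i => Gs j (P' (v i)))
  refine tendsto_nhds_unique h1 (h2.congr' ?_)
  have h3 : ∀ᶠ k in (hyperfilter ℕ : Filter ℕ), ∀ q q' : Fin n,
      (idx k (P (v q)) = idx k (P (v q')) ↔ P (v q) = P (v q')) ∧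
      (idx k (P' (v q)) = idx k (P' (v q')) ↔ P' (v q) = P' (v q')) :=
    eventually_all.2 fun q => eventually_all.2 fun q' =>
      (idx_eventually _ _).and (idx_eventually _ _)
  filter_upwards [h3] with k hk
  obtain ⟨σ, hσ, hq⟩ := exists_pattern n (fun q => idx k (P (v q))) (fun q => idx k (P' (v q)))
    (fun q q' => (hk q q').1.trans ((hP _ _).trans (hk q q').2.symm))
  obtain ⟨w, w1, w2, w3⟩ := exists_perm hc σ hσ
  have h4 := fm_iso (ad_iso w w1 w2) φ (fun i => Gs j (P (v i)) k)
  refine (congrArg (fun z => φ.val (str R) z) ?_).trans h4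
  funext i
  show Z j (idx k (P' (v i))) = w * Z j (idx k (P (v i))) * star w
  unfold Z
  rw [w3, mul_assoc, w2, mul_one, hq]

theorem elemEq_up (h : UP R M (hyperfilter ℕ) π) : (str M).ElemEq (str R) := by
  intro φ
  have h1 := los h φ (Fin.elim0 : Fin 0 → ℕ →ᵇ R.E)
  have h2 : (fun i => π ((Fin.elim0 : Fin 0 → ℕ →ᵇ R.E) i)) = Fin.elim0 :=
    funext fun i => i.elim0
  rw [h2] at h1
  refine tendsto_nhds_unique h1 ?_
  have h3 : (fun k => φ.val (str R) (fun i => (Fin.elim0 : Fin 0 → ℕ →ᵇ R.E) i k)) =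
      fun _ : ℕ => φ.val (str R) Fin.elim0 := by
    funext k
    congr 1
    exact funext fun i => i.elim0
  rw [h3]
  exact tendsto_const_nhds

include hc in
theorem G_dist (h : UP R M (hyperfilter ℕ) π) {p p' : (ℕ → Bool) × ℕ} (hp : p ≠ p') :
    n2 M.τ (π (Gs j p) - π (Gs j p')) = Real.sqrt 2 := by
  have h1 := h.tr (star (Gs j p - Gs j p') * (Gs j p - Gs j p'))
  have h2 : Tendsto (fun n => R.τ ((star (Gs j p - Gs j p') * (Gs j p - Gs j p')) n))
      (hyperfilter ℕ : Filter ℕ) (𝓝 2) := by
    refine tendsto_const_nhds.congr' ?_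
    filter_upwards [idx_eventually p p'] with n hn
    exact (Z_dist hc (fun he => hp (hn.1 he))).symm
  have h3 := tendsto_nhds_unique h1 h2
  unfold n2
  rw [map_mul, map_star, map_sub] at h3
  rw [h3]
  norm_num

end

theorem uncountable_branches : ¬ Countable (ℕ → Bool) := by
  intro hcon
  obtain ⟨e, he⟩ := exists_surjective_nat (ℕ → Bool)
  obtain ⟨n, hn⟩ := he (fun n => !(e n n))
  have := congrFun hn n
  simp at this

/-- the term `x a x* - c` -/
def cT : Tm (Fin 3) :=
  .add (.mul (.mul (.var 0) (.var 1)) (.adj (.var 0))) (.scal (-1) (.var 2))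

theorem cT_val (M : TVN) (x : Fin 3 → M.E) :
    tval M x cT = x 0 * x 1 * star (x 0) - x 2 := by
  show x 0 * x 1 * star (x 0) + (-1 : ℂ) • x 2 = _
  rw [neg_one_smul, sub_eq_add_neg]

/-- the term `x - y` -/
def dT : Tm (Fin 2) := .add (.var 0) (.scal (-1) (.var 1))

theorem dT_val (M : TVN) (x : Fin 2 → M.E) : tval M x dT = x 0 - x 1 := by
  show x 0 + (-1 : ℂ) • x 1 = _
  rw [neg_one_smul, sub_eq_add_neg]

theorem n2_eq_zero (M : TVN) {x : M.E} (h : n2 M.τ x = 0) : x = 0 := by
  refine M.faithful x ?_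
  have h1 := M.trAlg.n2_sq x
  rw [h] at h1
  apply Complex.ext
  · rw [← h1]; simp
  · rw [M.trAlg.im_zero]; simp

end Pool.Agent.H504R3.S
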