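import Mathlib
import Pool.Agent.H504R3.ThC

/-!
The theory of the hyperfinite II_1 factor is not simple: the main theorem.
-/

set_option autoImplicit false
set_option linter.unusedSectionVars false

open scoped InnerProductSpace Topology BoundedContinuousFunction
open Filter

namespace Pool.Agent.H504R3.S

open Pool.Agent.Helper278 Pool.Agent.Helper436.SM
open Pool.Agent.H504R3 (TVN M2 Cmm pm pz sz exists_perm Ws_single pauliSys px)

/-- the core: the type of `x` over `B` divides over every separable subset -/
theorem not_simple (R : Str) (hR : R.IsHyperfinite) : ¬ R.HasSimpleTheory := by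
  classical
  obtain ⟨R, rfl⟩ := exists_tvn R hR.1
  obtain ⟨j, hc, _⟩ := hyp_of R hR
  obtain ⟨M, π, h⟩ := exists_up R (hyperfilter ℕ) (fun n hn =>
    notMem_hyperfilter_of_finite (Set.finite_singleton n) hn)
  intro hs
  -- the generators
  set G : (ℕ → Bool) × ℕ → M.E := fun p => π (Gs j p) with hG
  have hdist : ∀ p p', p ≠ p' → n2 M.τ (G p - G p') = Real.sqrt 2 := fun p p' hp =>
    G_dist hc h hp
  have hinj : Function.Injective G := by
    intro p p' he
    by_contra hne
    have h1 := hdist p p' hne
    rw [he, sub_self, M.trAlg.n2_zero] at h1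
    have : (0 : ℝ) < Real.sqrt 2 := by positivity
    linarith
  -- the unitary
  have hX : ∀ n, ∃ u : R.E, star u * u = 1 ∧ u * star u = 1 ∧ ∀ i x,
      u * j i x = j ((Function.Involutive.toPerm _
        (colSwap_inv (Fintype.card (Fin n → Bool))) : Equiv.Perm ℕ) i) x * u := fun n =>
    exists_perm hc _ (colSwap_mem _)
  choose X hX1 hX2 hX3 using hX
  let Xs : ℕ →ᵇ R.E := BoundedContinuousFunction.ofNormedAddCommGroupDiscrete X 1
    (fun n => opNorm_unitary R (hX1 n))
  set x : M.E := π Xs with hx
  have hxG : ∀ f, x * G (f, 0) * star x = G (f, 1) := by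
    intro f
    rw [hx, hG]
    simp only
    rw [← map_star, ← map_mul, ← map_mul]
    congr 1
    ext1 n
    show X n * Z j (idx n (f, 0)) * star (X n) = Z j (idx n (f, 1))
    unfold Z
    rw [hX3, mul_assoc, hX2, mul_one]
    congr 2
    show colSwap _ (idx n (f, 0)) = idx n (f, 1)
    unfold colSwap idx
    rw [Nat.unpair_pair]
    simp only [code_lt, if_true]
    rw [Equiv.swap_apply_left]
  -- the set
  let B : Set M.E := {y | ∃ (f : ℕ → Bool) (e : ℕ), e ≤ 1 ∧ y = G (f, e)}
  obtain ⟨A, hAB, ⟨D, _, hDc, hD⟩, hnd⟩ := hs (str M) (isTVN M) (elemEq_up h) 1 (fun _ => x) B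
  -- `A` is countable
  have hAc : A.Countable := by
    let va : A → M.E := fun a => a.1
    let vd : D → M.E := fun d => d.1
    have h1 : ∀ a : A, ∃ d : D, M.norm2 (va a - vd d) < 1 / 2 := by
      intro a
      obtain ⟨d, hd, hd2⟩ := hD a.1 a.2 (1 / 2) (by norm_num)
      rw [norm2_eq, sub_eq] at hd2
      exact ⟨⟨d, hd⟩, hd2⟩
    choose d hd using h1
    have hdinj : Function.Injective d := by
      intro a a' he
      by_contra hne
      obtain ⟨f, e, _, hfe⟩ := hAB a.2
      obtain ⟨f', e', _, hfe'⟩ := hAB a'.2
      have hne2 : ((f, e) : (ℕ → Bool) × ℕ) ≠ (f', e') := by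
        intro h2
        apply hne
        apply Subtype.ext
        rw [hfe, hfe', h2]
      have h3 := hdist _ _ hne2
      have h4 := M.trAlg.n2_tri (va a) (vd (d a)) (va a')
      have h5 : n2 M.τ (va a - vd (d a)) < 1 / 2 := hd a
      have h6 : n2 M.τ (va a' - vd (d a')) < 1 / 2 := hd a'
      rw [← he, M.trAlg.n2_sub_comm] at h6
      have hva : va a = G (f, e) := hfe
      have hva' : va a' = G (f', e') := hfe'
      have h7 : n2 M.τ (va a - va a') = Real.sqrt 2 := by
        rw [← h3, hva, hva']
      have h8 : (1 : ℝ) ≤ Real.sqrt 2 := Real.one_le_sqrt.2 (by norm_num)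
      linarith
    have : Countable D := hDc.to_subtype
    exact (Set.countable_coe_iff).1 (hdinj.countable)
  -- a branch outside
  obtain ⟨f, hf⟩ : ∃ f : ℕ → Bool, G (f, 1) ∉ A := by
    by_contra hcon
    push Not at hcon
    have hinj2 : Function.Injective (fun f : ℕ → Bool => (⟨G (f, 1), hcon f⟩ : A)) := by
      intro f g he
      have h1 := hinj (congrArg Subtype.val he)
      exact (Prod.mk.inj h1).1
    have : Countable A := hAc.to_subtype
    exact uncountable_branches hinj2.countable
  apply hnd
  -- the choice of branches and columns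
  have hpick : ∀ y : B, ∃ p : (ℕ → Bool) × ℕ, p.2 ≤ 1 ∧ y.1 = G p := by
    rintro ⟨y, g, e, he, hy⟩
    exact ⟨(g, e), he, hy⟩
  choose pick hpick1 hpick2 using hpick
  have hf1 : ∀ y : B, pick y = (f, 1) ↔ y.1 = G (f, 1) := by
    intro y
    constructor
    · intro he
      rw [hpick2 y, he]
    · intro he
      rw [hpick2 y] at he
      exact hinj he
  -- the sequence
  let b : ℕ → B → M.E := fun i y => if pick y = (f, 1) then G (f, i + 1) else y.1
  have hA' : ∀ a : A, ∃ p : (ℕ → Bool) × ℕ, p.2 ≤ 1 ∧ p ≠ (f, 1) ∧ (a.1 : M.E) = G p := by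
    intro a
    obtain ⟨g, e, he, hy⟩ := hAB a.2
    refine ⟨(g, e), he, ?_, hy⟩
    intro h1
    apply hf
    rw [← h1, ← hy]
    exact a.2
  choose pa hpa1 hpa2 hpa3 using hA'
  refine ⟨str M, id, b, ⟨isTVN M, fun _ _ _ => rfl⟩, ?_, ?_, ?_⟩
  · intro y
    show (if pick y = (f, 1) then G (f, 0 + 1) else y.1) = y.1
    split_ifs with h1
    · exact ((hf1 y).1 h1).symm
    · rfl
  · intro m s t hs ht
    let P : (Fin m → ℕ) → (Fin m × B) ⊕ A → (ℕ → Bool) × ℕ := fun s v =>
      Sum.elim (fun q : Fin m × B => if pick q.2 = (f, 1) then (f, s q.1 + 1) else pick q.2) pa v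
    have hPG : ∀ s : Fin m → ℕ, (Sum.elim (fun q : Fin m × B => b (s q.1) q.2)
        (fun a : A => id a.1) : (Fin m × B) ⊕ A → M.E) = fun v => π (Gs j (P s v)) := by
      intro s
      funext v
      rcases v with ⟨p, y⟩ | a
      · show (if pick y = (f, 1) then G (f, s p + 1) else y.1) =
          G (if pick y = (f, 1) then (f, s p + 1) else pick y)
        split_ifs with h1
        · rfl
        · exact hpick2 y
      · exact hpa3 a
    have hPP : ∀ s t : Fin m → ℕ, Function.Injective s → Function.Injective t → ∀ v v',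
        P s v = P s v' → P t v = P t v' := by
      intro s t hs ht v v' he
      rcases v with ⟨p, y⟩ | a <;> rcases v' with ⟨p', y'⟩ | a'
      · have he' : (if pick y = (f, 1) then (f, s p + 1) else pick y) =
            (if pick y' = (f, 1) then (f, s p' + 1) else pick y') := he
        show (if pick y = (f, 1) then (f, t p + 1) else pick y) =
            (if pick y' = (f, 1) then (f, t p' + 1) else pick y')
        by_cases h1 : pick y = (f, 1) <;> by_cases h2 : pick y' = (f, 1)
        · rw [if_pos h1, if_pos h2] at he' ⊢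
          have h3 := (Prod.mk.inj he').2
          have h4 : p = p' := hs (by omega)
          rw [h4]
        · rw [if_pos h1, if_neg h2] at he'
          exfalso
          have h3 := hpick1 y'
          have h4 : (pick y').2 = s p + 1 := by rw [← he']
          have h5 : s p + 1 = 1 := by omega
          rw [h5] at he'
          exact h2 he'.symm
        · rw [if_neg h1, if_pos h2] at he'
          exfalso
          have h3 := hpick1 y
          have h4 : (pick y).2 = s p' + 1 := by rw [he']
          have h5 : s p' + 1 = 1 := by omega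
          rw [h5] at he'
          exact h1 he'
        · rw [if_neg h1, if_neg h2] at he' ⊢
          exact he'
      · have he' : (if pick y = (f, 1) then (f, s p + 1) else pick y) = pa a' := he
        show (if pick y = (f, 1) then (f, t p + 1) else pick y) = pa a'
        by_cases h1 : pick y = (f, 1)
        · rw [if_pos h1] at he'
          exfalso
          have h3 := hpa1 a'
          have h4 : (pa a').2 = s p + 1 := by rw [← he']
          have h5 : s p + 1 = 1 := by omega
          rw [h5] at he'
          exact hpa2 a' he'.symm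
        · rw [if_neg h1] at he' ⊢
          exact he'
      · have he' : pa a = (if pick y' = (f, 1) then (f, s p' + 1) else pick y') := he
        show pa a = (if pick y' = (f, 1) then (f, t p' + 1) else pick y')
        by_cases h1 : pick y' = (f, 1)
        · rw [if_pos h1] at he'
          exfalso
          have h3 := hpa1 a
          have h4 : (pa a).2 = s p' + 1 := by rw [he']
          have h5 : s p' + 1 = 1 := by omega
          rw [h5] at he'
          exact hpa2 a he'
        · rw [if_neg h1] at he' ⊢
          exact he'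
      · exact he
    have h1 := same_type hc h (P s) (P t) (fun v v' =>
      ⟨hPP s t hs.injective ht.injective v v', hPP t s ht.injective hs.injective v v'⟩)
    rw [← hPG s, ← hPG t] at h1
    exact h1
  · rintro ⟨N', κ, c', hκ, hty⟩
    obtain ⟨N, rfl⟩ := exists_tvn N' hκ.tvn
    let κ' : M.E → N.E := κ
    let y : N.E := c' 0
    -- the elements of the set
    let b0 : B := ⟨G (f, 0), f, 0, by norm_num, rfl⟩
    let b1 : B := ⟨G (f, 1), f, 1, le_rfl, rfl⟩
    have hb0 : ∀ i, b i b0 = G (f, 0) := by
      intro i
      show (if pick b0 = (f, 1) then G (f, i + 1) else G (f, 0)) = G (f, 0)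
      rw [if_neg]
      intro h1
      have h2 : G (f, 0) = G (f, 1) := (hf1 b0).1 h1
      have h3 := (Prod.mk.inj (hinj h2)).2
      omega
    have hb1 : ∀ i, b i b1 = G (f, i + 1) := by
      intro i
      show (if pick b1 = (f, 1) then G (f, i + 1) else G (f, 1)) = G (f, i + 1)
      rw [if_pos ((hf1 b1).2 rfl)]
    have hrel : ∀ i, y * κ' (G (f, 0)) * star y = κ' (G (f, i + 1)) := by
      intro i
      let v : Fin 3 → Fin 1 ⊕ B := ![Sum.inl 0, Sum.inr b0, Sum.inr b1]
      have h1 := hty i 3 (.nrm cT) v
      have h2 : n2 M.τ (tval M (fun i => Sum.elim (fun _ : Fin 1 => x) (fun y : B => y.1) (v i))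
          cT) = n2 N.τ (tval N (fun k => Sum.elim c' (fun y : B => κ (b i y)) (v k)) cT) := h1
      rw [cT_val, cT_val] at h2
      have h3 : n2 M.τ (x * G (f, 0) * star x - G (f, 1)) =
          n2 N.τ (y * κ' (b i b0) * star y - κ' (b i b1)) := h2
      rw [hxG, sub_self, M.trAlg.n2_zero, hb0, hb1] at h3
      exact sub_eq_zero.1 (n2_eq_zero N h3.symm)
    have h12 : κ' (G (f, 1)) = κ' (G (f, 2)) := (hrel 0).symm.trans (hrel 1)
    have h1 := hκ.elem 2 (.nrm dT) (![G (f, 1), G (f, 2)] : Fin 2 → M.E)
    have h2 : n2 M.τ (tval M (fun i => id ((![G (f, 1), G (f, 2)] : Fin 2 → M.E) i)) dT) =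
        n2 N.τ (tval N (fun i => κ' ((![G (f, 1), G (f, 2)] : Fin 2 → M.E) i)) dT) := h1
    rw [dT_val, dT_val] at h2
    have h3 : n2 M.τ (G (f, 1) - G (f, 2)) = n2 N.τ (κ' (G (f, 1)) - κ' (G (f, 2))) := h2
    rw [h12, sub_self, N.trAlg.n2_zero, hdist _ _ (by
      intro he
      have := (Prod.mk.inj he).2
      omega)] at h3
    have : (0 : ℝ) < Real.sqrt 2 := by positivity
    linarith

end Pool.Agent.H504R3.S
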